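import Pool.Agent.SXP.HInf

/-! Project SXP, module SXP-HOv: two disjoint planes have at most one ideal point in common, and
consequences for the group.

* `inf_same`: let `c = (ρ g⁻¹).1 1 0`... Precisely: suppose `(ρ g).1 1 0 ≠ 0`.  Let `q := g⁻¹` as a matrix,
  `q.1 1 0 = -(ρ g).1 1 0 ≠ 0`, `p := q 0 0 / q 1 0 ∈ ℂ` (the ideal point `g⁻¹ ∞`).  `AtInf S`: `S = plane N`,
  `N 0 0 = 0`.  `AtInf (act (ρ g) '' S)`: `= plane N₁`, `N₁ 0 0 = 0`, so `S = plane N₂` with
  `N₂ = (ρ g)ᴴ N₁ (ρ g)` (`act_image_plane` for `g⁻¹`, `act_mul`), and `star(q e₀) N₂ (q e₀) = N₁ 0 0 = 0` for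
  `q e₀ = (q 0 0, q 1 0)`.  The point `R := [[|p|^2 + 1, p], [conj p, 1]] ∈ H3` is directly above `p`.
  Claim: `R ∈ S`.  We have `lin N₂ R = N₂ 0 0 (|p|^2 + 1) + 2 Re(p N₂ 1 0) + N₂ 1 1`, and
  `|q 1 0|^{-2} star(q e₀) N₂ (q e₀) = N₂ 0 0 |p|^2 + 2 Re(conj p N₂ 0 1) + N₂ 1 1 = 0` (note
  `conj p N₂ 0 1 = conj (p N₂ 1 0)`), so `lin N₂ R = N₂ 0 0`.  It remains that `N₂ 0 0 = 0`: lemma
  `atInf_iff`: if `IsNormal N`, `IsNormal N₂`, `plane N = plane N₂` and `N 0 0 = 0` then `N₂ 0 0 = 0`.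
  (Proof of the lemma: `N 1 0 ≠ 0` since `det N < 0`.  The points `[[|z|^2 + T^2, z], [conj z, 1]] / T`
  (`det = 1`) with `2 Re(z N 1 0) + N 1 1 = 0` are in `plane N` for every `T > 0`; `lin N₂` times `T` of
  it is `N₂ 0 0 (|z|^2 + T^2) + 2 Re(z N₂ 1 0) + N₂ 1 1 = 0` for all `T > 0`: compare `T = 1, 2`.)
  The same for `S'`: `R ∈ S ∩ S'`, contradiction to disjointness.
* `comm_of_stab`: `(ρ g).1 1 0 = 0` gives `g ∈ closure {μ, lam}` which commutes with `μ`
  (`Subgroup.closure_induction`, `hc.comm`), so `g * μ * g⁻¹ = μ`. -/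

namespace SXP

variable {G : Type*} [Group G] {ρ : G →* Matrix.SpecialLinearGroup (Fin 2) ℂ} {μ lam : G}
  {m l : ℂ} {P : Set (Set H3)}

open Matrix in
private theorem hov_herm {N : Matrix (Fin 2) (Fin 2) ℂ} (hN : N.IsHermitian) :
    (N 0 0).im = 0 ∧ (N 1 1).im = 0 ∧ (N 0 1).re = (N 1 0).re ∧ (N 0 1).im = -(N 1 0).im := by
  have h00 := congrFun (congrFun hN 0) 0
  have h11 := congrFun (congrFun hN 1) 1
  have h01 := congrFun (congrFun hN 0) 1
  rw [Matrix.conjTranspose_apply] at h00 h11 h01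
  have a := congrArg Complex.im h00
  have b := congrArg Complex.im h11
  have c := congrArg Complex.re h01
  have d := congrArg Complex.im h01
  simp only [Complex.star_def, Complex.conj_im, Complex.conj_re] at a b c d
  exact ⟨by linarith, by linarith, by linarith, by linarith⟩

open Matrix in
private theorem hov_pt (z : ℂ) (T : ℝ) (hT : 0 < T) :
    ∃ P : H3, ∀ N : Matrix (Fin 2) (Fin 2) ℂ, N.IsHermitian →
      lin N P.1 * T = (N 0 0).re * (z.re ^ 2 + z.im ^ 2 + T ^ 2) +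
        2 * (z.re * (N 1 0).re - z.im * (N 1 0).im) + (N 1 1).re := by
  have hT0 : T ≠ 0 := hT.ne'
  refine ⟨⟨!![⟨(z.re ^ 2 + z.im ^ 2 + T ^ 2) / T, 0⟩, ⟨z.re / T, z.im / T⟩;
    ⟨z.re / T, -(z.im / T)⟩, ⟨1 / T, 0⟩], ?_, ?_, ?_⟩, ?_⟩
  · ext i j
    fin_cases i <;> fin_cases j <;>
      simp [Matrix.conjTranspose_apply, Complex.ext_iff]
  · simp only [Matrix.of_apply, Matrix.cons_val_zero, Matrix.cons_val']
    positivity
  · rw [Matrix.det_fin_two]
    apply Complex.ext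
    · simp
      field_simp
      ring
    · simp
      ring
  · intro N hN
    obtain ⟨h00, h11, h01, h01'⟩ := hov_herm hN
    simp only [lin, Matrix.trace_fin_two, Matrix.mul_apply, Fin.sum_univ_two]
    simp
    rw [h01, h01']
    field_simp
    ring

theorem atInf_iff {N : Matrix (Fin 2) (Fin 2) ℂ} (hN : IsNormal N) :
    AtInf (plane N) ↔ N 0 0 = 0 := by
  constructor
  · rintro ⟨N', hN', he, h0⟩
    obtain ⟨a00, a11, a01, a01'⟩ := hov_herm hN.1
    obtain ⟨b00, b11, b01, b01'⟩ := hov_herm hN'.1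
    have hdet : 0 < (N' 1 0).re ^ 2 + (N' 1 0).im ^ 2 := by
      have h := hN'.2
      rw [Matrix.det_fin_two, h0] at h
      simp [b01, b01'] at h
      nlinarith
    set q : ℝ := (N' 1 0).re ^ 2 + (N' 1 0).im ^ 2 with hq
    have hq0 : q ≠ 0 := hdet.ne'
    set z : ℂ := ⟨-((N' 1 1).re / 2 * (N' 1 0).re / q), (N' 1 1).re / 2 * (N' 1 0).im / q⟩ with hz
    have hzz : 2 * (z.re * (N' 1 0).re - z.im * (N' 1 0).im) + (N' 1 1).re = 0 := by
      simp only [hz]
      field_simp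
      rw [hq]
      ring
    have hT : ∀ T : ℝ, 0 < T → (N 0 0).re * (z.re ^ 2 + z.im ^ 2 + T ^ 2) +
        2 * (z.re * (N 1 0).re - z.im * (N 1 0).im) + (N 1 1).re = 0 := by
      intro T hT
      obtain ⟨P, hP⟩ := hov_pt z T hT
      have h1 := hP N' hN'.1
      have h00' : (N' 0 0).re = 0 := by rw [h0]; rfl
      rw [h00', zero_mul, zero_add, hzz] at h1
      have h2 : lin N' P.1 = 0 := by
        rcases mul_eq_zero.1 h1 with h | h
        · exact h
        · exact absurd h hT.ne'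
      have h3 : P ∈ plane N := by
        rw [he]
        exact h2
      have h4 : lin N P.1 = 0 := h3
      rw [← hP N hN.1, h4, zero_mul]
    have h1 := hT 1 one_pos
    have h2 := hT 2 two_pos
    have h3 : (N 0 0).re = 0 := by linarith
    exact Complex.ext h3 a00
  · intro h
    exact ⟨N, hN, rfl, h⟩

theorem inf_same {S S' : Set H3} (hd : Disjoint S S') (h1 : AtInf S) (h2 : AtInf S')
    (g : Matrix.SpecialLinearGroup (Fin 2) ℂ) (h3 : AtInf (act g '' S))
    (h4 : AtInf (act g '' S')) : g.1 1 0 = 0 := by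
  by_contra hg
  have hq : (g⁻¹).1 1 0 ≠ 0 := by
    rw [Matrix.SpecialLinearGroup.coe_inv, Matrix.adjugate_fin_two]
    simpa using hg
  have key : ∀ S : Set H3, AtInf S → AtInf (act g '' S) → ∀ P : H3,
      (∀ N : Matrix (Fin 2) (Fin 2) ℂ, N.IsHermitian →
      lin N P.1 * 1 = (N 0 0).re * (((g⁻¹).1 0 0 / (g⁻¹).1 1 0).re ^ 2 +
        ((g⁻¹).1 0 0 / (g⁻¹).1 1 0).im ^ 2 + 1 ^ 2) +
        2 * (((g⁻¹).1 0 0 / (g⁻¹).1 1 0).re * (N 1 0).re -
          ((g⁻¹).1 0 0 / (g⁻¹).1 1 0).im * (N 1 0).im) + (N 1 1).re) → P ∈ S := by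
    intro S hS hS' P hP
    obtain ⟨N, hN, rfl, h0⟩ := hS
    rw [act_image_plane, atInf_iff (normal_act g⁻¹ hN)] at hS'
    obtain ⟨a00, a11, a01, a01'⟩ := hov_herm hN.1
    have hl := hP N hN.1
    set q := (g⁻¹).1 with hqdef
    set p : ℂ := q 0 0 / q 1 0 with hp
    have hqp : q 0 0 = p * q 1 0 := by
      rw [hp, div_mul_cancel₀ _ hq]
    have hr := congrArg Complex.re hS'
    simp only [Matrix.mul_apply, Fin.sum_univ_two, Matrix.conjTranspose_apply, h0, hqp] at hr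
    simp [a01, a01', a11] at hr
    have hq2 : 0 < (q 1 0).re ^ 2 + (q 1 0).im ^ 2 := by
      have := Complex.normSq_pos.mpr hq
      rw [Complex.normSq_apply] at this
      nlinarith
    have h5 : ((q 1 0).re ^ 2 + (q 1 0).im ^ 2) *
        (2 * (p.re * (N 1 0).re - p.im * (N 1 0).im) + (N 1 1).re) = 0 := by
      linear_combination hr
    have h6 : 2 * (p.re * (N 1 0).re - p.im * (N 1 0).im) + (N 1 1).re = 0 := by
      rcases mul_eq_zero.1 h5 with h | h
      · exact absurd h hq2.ne'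
      · exact h
    have h00' : (N 0 0).re = 0 := by rw [h0]; rfl
    show lin N P.1 = 0
    rw [h00'] at hl
    linarith
  obtain ⟨P, hP⟩ := hov_pt ((g⁻¹).1 0 0 / (g⁻¹).1 1 0) 1 one_pos
  exact Set.disjoint_left.1 hd (key S h1 h3 P hP) (key S' h2 h4 P hP)

theorem comm_of_stab (hc : TorusCusp ρ μ lam m l) {g : G} (hg : (ρ g).1 1 0 = 0) :
    g * μ * g⁻¹ = μ := by
  have h1 := hc.stab g hg
  have h2 : ∀ x ∈ Subgroup.closure ({μ, lam} : Set G), x * μ = μ * x := by
    intro x hx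
    induction hx using Subgroup.closure_induction with
    | mem x hx =>
      rcases hx with rfl | hx
      · rfl
      · rw [Set.mem_singleton_iff] at hx
        subst hx
        exact hc.comm.symm
    | one => simp
    | mul x y _ _ hx hy => rw [mul_assoc, hy, ← mul_assoc, hx, mul_assoc]
    | inv x _ hx =>
      rw [inv_mul_eq_iff_eq_mul, ← mul_assoc, hx, mul_assoc, mul_inv_cancel, mul_one]
  rw [h2 g h1, mul_assoc, mul_inv_cancel, mul_one]

end SXP
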