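import Pool.Agent.SXP.GAct

/-! Project SXP, module SXP-HInf: a plane separating the two ends of the axis of the parabolic `μ`
passes through the ideal point `∞`.

* `rho_zpow`: `(ρ (μ ^ k)).1 = !![1, k m; 0, 1]` or its negative, for all integers `k` (`Int.induction_on`
  or naturals and inverses; determinant-one inverse `!![1, -m; 0, 1]`).
* For `N` with `S = plane N` and `x.1 = [[a, w], [conj w, b]]`, `b > 0`:
  `lin N (act (ρ (μ ^ k)) x).1 = (N 0 0).re * (a + 2 k Re(m conj w) + k^2 |m|^2 b) +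
   2 Re((w + k m b) N 1 0) + b (N 1 1).re`, a real polynomial in `k` with leading coefficient
  `(N 0 0).re |m|^2 b`, where `m ≠ 0` (`hc.ind`) and `b > 0` (`a b = 1 + |w|^2`).
* If `N 0 0 ≠ 0` (it is real) then for large `k` the values at `k` and `-k` have the same sign, so
  `¬ Sep` by `sep_iff` for large `k`: contradiction.  Hence `N 0 0 = 0` and `AtInf S`. -/

namespace SXP

open Matrix

variable {G : Type*} [Group G] {ρ : G →* Matrix.SpecialLinearGroup (Fin 2) ℂ} {μ lam : G}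
  {m l : ℂ}

private theorem uni_mul {A B : Matrix.SpecialLinearGroup (Fin 2) ℂ} {a b : ℂ}
    (hA : A.1 = !![1, a; 0, 1] ∨ A.1 = -!![1, a; 0, 1])
    (hB : B.1 = !![1, b; 0, 1] ∨ B.1 = -!![1, b; 0, 1]) :
    (A * B).1 = !![1, a + b; 0, 1] ∨ (A * B).1 = -!![1, a + b; 0, 1] := by
  have key : (!![1, a; 0, 1] : Matrix (Fin 2) (Fin 2) ℂ) * !![1, b; 0, 1] = !![1, a + b; 0, 1] := by
    rw [Matrix.mul_fin_two]
    simp [add_comm]
  have hAB : (A * B).1 = A.1 * B.1 := Matrix.SpecialLinearGroup.coe_mul A B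
  rcases hA with hA | hA <;> rcases hB with hB | hB
  · left
    rw [hAB, hA, hB, key]
  · right
    rw [hAB, hA, hB, Matrix.mul_neg, key]
  · right
    rw [hAB, hA, hB, Matrix.neg_mul, key]
  · left
    rw [hAB, hA, hB, Matrix.neg_mul, Matrix.mul_neg, neg_neg, key]

private theorem uni_inv {A : Matrix.SpecialLinearGroup (Fin 2) ℂ} {a : ℂ}
    (hA : A.1 = !![1, a; 0, 1] ∨ A.1 = -!![1, a; 0, 1]) :
    (A⁻¹).1 = !![1, -a; 0, 1] ∨ (A⁻¹).1 = -!![1, -a; 0, 1] := by
  have hinv : (A⁻¹).1 = Matrix.adjugate A.1 := Matrix.SpecialLinearGroup.coe_inv A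
  rcases hA with hA | hA
  · left
    rw [hinv, hA, Matrix.adjugate_fin_two]
    simp
  · right
    rw [hinv, hA, Matrix.adjugate_fin_two]
    ext i j
    fin_cases i <;> fin_cases j <;> simp

theorem rho_zpow {μ : G} {m : ℂ} (hμ : (ρ μ).1 = !![1, m; 0, 1] ∨ (ρ μ).1 = -!![1, m; 0, 1])
    (k : ℤ) : (ρ (μ ^ k)).1 = !![1, (k : ℂ) * m; 0, 1] ∨ (ρ (μ ^ k)).1 = -!![1, (k : ℂ) * m; 0, 1] := by
  induction k using Int.induction_on with
  | zero =>
    left
    rw [_root_.zpow_zero, map_one]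
    ext i j
    fin_cases i <;> fin_cases j <;> simp
  | succ k ih =>
    have h := uni_mul ih hμ
    have e1 : ρ (μ ^ ((k : ℤ) + 1)) = ρ (μ ^ (k : ℤ)) * ρ μ := by
      rw [_root_.zpow_add_one, map_mul]
    have e2 : (((k : ℤ) + 1 : ℤ) : ℂ) * m = ((k : ℤ) : ℂ) * m + m := by
      push_cast
      ring
    rw [e1, e2]
    exact h
  | pred k ih =>
    have h := uni_mul ih (uni_inv hμ)
    have e1 : ρ (μ ^ (-(k : ℤ) - 1)) = ρ (μ ^ (-(k : ℤ))) * (ρ μ)⁻¹ := by
      rw [_root_.zpow_sub_one, map_mul, map_inv]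
    have e2 : ((-(k : ℤ) - 1 : ℤ) : ℂ) * m = ((-(k : ℤ) : ℤ) : ℂ) * m + -m := by
      push_cast
      ring
    rw [e1, e2]
    exact h

private theorem lin_quad (N P : Matrix (Fin 2) (Fin 2) ℂ) (m : ℂ) :
    ∃ B C : ℝ, ∀ k : ℤ, lin N (!![1, (k : ℂ) * m; 0, 1] * P * (!![1, (k : ℂ) * m; 0, 1])ᴴ) =
      (m * star m * P 1 1 * N 0 0).re * (k : ℝ) ^ 2 + B * k + C := by
  refine ⟨((m * P 1 0 + star m * P 0 1) * N 0 0 + m * P 1 1 * N 1 0 + star m * P 1 1 * N 0 1).re,
    (P 0 0 * N 0 0 + P 0 1 * N 1 0 + P 1 0 * N 0 1 + P 1 1 * N 1 1).re, fun k => ?_⟩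
  have h : ((!![1, (k : ℂ) * m; 0, 1] * P * (!![1, (k : ℂ) * m; 0, 1])ᴴ) * N).trace =
      (((k : ℝ) ^ 2 : ℝ) : ℂ) * (m * star m * P 1 1 * N 0 0) +
      ((k : ℝ) : ℂ) * ((m * P 1 0 + star m * P 0 1) * N 0 0 + m * P 1 1 * N 1 0 +
        star m * P 1 1 * N 0 1) +
      (P 0 0 * N 0 0 + P 0 1 * N 1 0 + P 1 0 * N 0 1 + P 1 1 * N 1 1) := by
    simp only [Matrix.trace_fin_two, Matrix.mul_apply, Fin.sum_univ_two,
      Matrix.conjTranspose_apply, Matrix.cons_val_zero, Matrix.cons_val_one, Matrix.of_apply,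
      Matrix.cons_val', Matrix.cons_val_fin_one, star_one, star_zero, star_mul', star_intCast]
    push_cast
    ring
  rw [lin, h, Complex.add_re, Complex.add_re, Complex.re_ofReal_mul, Complex.re_ofReal_mul]
  ring

theorem cross_inf (hc : TorusCusp ρ μ lam m l) {S : Set H3} (hS : IsPlane S) (x : H3)
    (h : ∃ K : ℕ, ∀ k : ℕ, K ≤ k →
      Sep S (act (ρ (μ ^ (-(k : ℤ)))) x) (act (ρ (μ ^ (k : ℤ))) x)) : AtInf S := by
  obtain ⟨N, hN, rfl⟩ := hS
  refine ⟨N, hN, rfl, ?_⟩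
  by_contra hN0
  obtain ⟨K, hK⟩ := h
  obtain ⟨B, C, hBC⟩ := lin_quad N x.1 m
  have hact : ∀ k : ℤ, lin N (act (ρ (μ ^ k)) x).1 =
      (m * star m * x.1 1 1 * N 0 0).re * (k : ℝ) ^ 2 + B * k + C := by
    intro k
    rw [← hBC k]
    rcases rho_zpow hc.hμ k with hk | hk
    · simp only [act, hk]
    · simp only [act, hk, Matrix.conjTranspose_neg, Matrix.mul_neg, Matrix.neg_mul, neg_neg]
  have hm : m ≠ 0 := by
    have := hc.ind.ne_zero 0
    simpa using this
  obtain ⟨P, hP, hP0, hPd⟩ := x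
  have hentry : ∀ {M : Matrix (Fin 2) (Fin 2) ℂ}, M.IsHermitian → ∀ i, (M i i).im = 0 := by
    intro M hM i
    have h1 := congrArg Complex.im (congrFun (congrFun hM i) i)
    simp [Matrix.conjTranspose_apply] at h1
    linarith
  have e00 := hentry hP 0
  have e11 := hentry hP 1
  have n00 := hentry hN.1 0
  have e10 : P 1 0 = star (P 0 1) := by
    have := congrFun (congrFun hP 1) 0
    rw [← this]
    rfl
  have hP1 : 0 < (P 1 1).re := by
    rw [Matrix.det_fin_two] at hPd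
    have hdr := congrArg Complex.re hPd
    rw [e10] at hdr
    simp [e00, e11] at hdr
    by_contra hneg
    have h1 : (P 1 1).re ≤ 0 := not_lt.1 hneg
    nlinarith [sq_nonneg (P 0 1).re, sq_nonneg (P 0 1).im,
      mul_nonneg hP0.le (neg_nonneg.2 h1)]
  have hA : (m * star m * P 1 1 * N 0 0).re = Complex.normSq m * (P 1 1).re * (N 0 0).re := by
    have h1 : m * star m = ((Complex.normSq m : ℝ) : ℂ) := Complex.mul_conj m
    rw [h1, mul_assoc, Complex.re_ofReal_mul, Complex.mul_re, e11, n00]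
    ring
  have hN0' : (N 0 0).re ≠ 0 := by
    intro h0
    exact hN0 (Complex.ext h0 n00)
  have hAne : (m * star m * P 1 1 * N 0 0).re ≠ 0 := by
    rw [hA]
    exact mul_ne_zero (mul_ne_zero (Complex.normSq_pos.2 hm).ne' hP1.ne') hN0'
  set A := (m * star m * P 1 1 * N 0 0).re with hAdef
  have hApos : 0 < |A| := abs_pos.2 hAne
  obtain ⟨k0, hk0⟩ := exists_nat_gt ((|B| + |C|) / |A|)
  have hkk : ∀ k : ℕ, k0 ≤ k → 1 ≤ k → |B| + |C| < |A| * k := by
    intro k h1 _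
    have h2 : (k0 : ℝ) ≤ k := by exact_mod_cast h1
    have h3 : (|B| + |C|) / |A| < k := lt_of_lt_of_le hk0 h2
    rw [div_lt_iff₀ hApos] at h3
    linarith
  set k := max (max k0 1) K with hk
  have hk1 : 1 ≤ k := (le_max_right k0 1).trans (le_max_left _ _)
  have hkk0 : k0 ≤ k := (le_max_left k0 1).trans (le_max_left _ _)
  have hkK : K ≤ k := le_max_right _ _
  have hsep := (sep_iff hN).1 (hK k hkK)
  rw [hact, hact] at hsep
  have hk1' : (1 : ℝ) ≤ k := by exact_mod_cast hk1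
  have hmain := hkk k hkk0 hk1
  have hbig : |B| * k + |C| < |A| * (k : ℝ) ^ 2 := by
    have hB := abs_nonneg B
    have hC := abs_nonneg C
    nlinarith
  push_cast at hsep
  have hfac : 0 < (A * (-(k : ℝ)) ^ 2 + B * -(k : ℝ) + C) * (A * (k : ℝ) ^ 2 + B * k + C) := by
    have hk0' : (0 : ℝ) ≤ k := by linarith
    have hb1 : |B * k + C| ≤ |B| * k + |C| := by
      refine (abs_add_le _ _).trans ?_
      rw [abs_mul, abs_of_nonneg hk0']
    have hb2 : |-(B * k) + C| ≤ |B| * k + |C| := by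
      refine (abs_add_le _ _).trans ?_
      rw [abs_neg, abs_mul, abs_of_nonneg hk0']
    have hb1' := abs_le.1 hb1
    have hb2' := abs_le.1 hb2
    rcases lt_or_gt_of_ne hAne with hneg | hpos
    · rw [abs_of_neg hneg] at hbig
      apply mul_pos_of_neg_of_neg
      · nlinarith
      · nlinarith
    · rw [abs_of_pos hpos] at hbig
      apply mul_pos
      · nlinarith
      · nlinarith
  exact absurd hsep (not_lt.2 hfac.le)

end SXP
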