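import Pool.Agent.SXP.GSep

/-! Project SXP, module SXP-GAct: the action of `SL(2, ℂ)`.

* `act_one`, `act_mul`: `Subtype.ext`, `Matrix.conjTranspose_mul`, `Matrix.mul_assoc`.
* `lin_act`: `tr (g P gᴴ N) = tr (P (gᴴ N g))` (`Matrix.trace_mul_cycle`/`Matrix.trace_mul_comm`).
* `normal_act`: Hermitian: `Matrix.isHermitian_conjTranspose_mul_mul`; the determinant is
  `conj (det g) det N det g = det N`.
* `act_image_plane`: `y ∈ act g '' plane N ↔ act g⁻¹ y ∈ plane N ↔ lin N (act g⁻¹ y) = 0`.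
* `sep_act`: (←) from `N` with `S = plane N` take `N' := (g⁻¹)ᴴ N g⁻¹`; (→) apply (←) to `g⁻¹`. -/

namespace SXP

open Matrix

theorem act_one (x : H3) : act 1 x = x := by
  apply Subtype.ext
  unfold act
  simp

theorem act_mul (g h : Matrix.SpecialLinearGroup (Fin 2) ℂ) (x : H3) :
    act (g * h) x = act g (act h x) := by
  apply Subtype.ext
  unfold act
  simp only [Matrix.SpecialLinearGroup.coe_mul, Matrix.conjTranspose_mul, Matrix.mul_assoc]

private theorem gact_inv (g : Matrix.SpecialLinearGroup (Fin 2) ℂ) (x : H3) :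
    act g⁻¹ (act g x) = x := by
  rw [← act_mul, inv_mul_cancel, act_one]

private theorem gact_inv' (g : Matrix.SpecialLinearGroup (Fin 2) ℂ) (x : H3) :
    act g (act g⁻¹ x) = x := by
  rw [← act_mul, mul_inv_cancel, act_one]

theorem lin_act (g : Matrix.SpecialLinearGroup (Fin 2) ℂ) (N : Matrix (Fin 2) (Fin 2) ℂ)
    (x : H3) : lin N (act g x).1 = lin (g.1ᴴ * N * g.1) x.1 := by
  have h1 : ((g.1 * x.1 * g.1ᴴ) * N).trace = (x.1 * (g.1ᴴ * N * g.1)).trace := by
    rw [Matrix.mul_assoc, Matrix.mul_assoc, Matrix.trace_mul_comm]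
    simp only [Matrix.mul_assoc]
  unfold lin act
  rw [h1]

theorem normal_act (g : Matrix.SpecialLinearGroup (Fin 2) ℂ) {N : Matrix (Fin 2) (Fin 2) ℂ}
    (hN : IsNormal N) : IsNormal (g.1ᴴ * N * g.1) := by
  refine ⟨Matrix.isHermitian_conjTranspose_mul_mul _ hN.1, ?_⟩
  have hg := g.2
  rw [Matrix.det_mul, Matrix.det_mul, Matrix.det_conjTranspose, hg]
  simpa using hN.2

theorem act_image_plane (g : Matrix.SpecialLinearGroup (Fin 2) ℂ)
    (N : Matrix (Fin 2) (Fin 2) ℂ) :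
    act g '' plane N = plane ((g⁻¹).1ᴴ * N * (g⁻¹).1) := by
  ext y
  constructor
  · rintro ⟨x, hx, rfl⟩
    have h1 := lin_act g⁻¹ N (act g x)
    rw [gact_inv] at h1
    exact h1.symm.trans hx
  · intro hy
    refine ⟨act g⁻¹ y, ?_, gact_inv' g y⟩
    exact (lin_act g⁻¹ N y).trans hy

private theorem gact_sep (g : Matrix.SpecialLinearGroup (Fin 2) ℂ) {S : Set H3} {x y : H3}
    (h : Sep S x y) : Sep (act g '' S) (act g x) (act g y) := by
  obtain ⟨N, hN, rfl, h1, h2⟩ := h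
  refine ⟨(g⁻¹).1ᴴ * N * (g⁻¹).1, normal_act g⁻¹ hN, act_image_plane g N, ?_, ?_⟩
  · have h3 := lin_act g⁻¹ N (act g x)
    rw [gact_inv] at h3
    rw [← h3]
    exact h1
  · have h3 := lin_act g⁻¹ N (act g y)
    rw [gact_inv] at h3
    rw [← h3]
    exact h2

theorem sep_act (g : Matrix.SpecialLinearGroup (Fin 2) ℂ) {S : Set H3} {x y : H3} :
    Sep (act g '' S) (act g x) (act g y) ↔ Sep S x y := by
  refine ⟨fun h => ?_, gact_sep g⟩
  have h1 := gact_sep g⁻¹ h
  rw [gact_inv, gact_inv, Set.image_image] at h1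
  have h2 : (fun z => act g⁻¹ (act g z)) = id := funext fun z => gact_inv g z
  rw [h2, Set.image_id] at h1
  exact h1

end SXP
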