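import Pool.Agent.SXP.Main

/-! Project SXP: finiteness and parity of the crossing number. -/

set_option linter.style.haveILetI false

namespace SXP

variable {G : Type*} [Group G] {ρ : G →* Matrix.SpecialLinearGroup (Fin 2) ℂ} {μ lam : G}
  {m l : ℂ} {P : Set (Set H3)}

theorem crossNum_fin (hP : TGSurface ρ P) (x : H3) : crossNum ρ P μ x ≠ ⊤ := by
  unfold crossNum
  rw [Set.encard_ne_top_iff]
  exact (fin_sep hP x (act (ρ μ) x)).subset (fun S hS => ⟨hS.1, hS.2.2⟩)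

theorem even_ds (hP : TGSurface ρ P) (hS : Separating ρ P) (p : Pts P) :
    letI := ptsAct hP
    Even (ds (psep P) p (μ • p)) := by
  letI := ptsAct hP
  letI := planeAct hP
  obtain ⟨htr, U, V, hU, hV, hUn, hVn, hd, hUV, hUg, hVg⟩ := hS
  have hoff : ∀ x, x ∈ U ∪ V ↔ x ∉ ⋃₀ P := by
    intro x; rw [hUV]; exact Iff.rfl
  have hinv : ∀ (g : G) (x : H3), act (ρ g⁻¹) (act (ρ g) x) = x := by
    intro g x; rw [← act_mul, ← map_mul, inv_mul_cancel, map_one, act_one]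
  have hcg : ∀ (g : G) (x : Pts P), (g • x).1 ∈ U ↔ x.1 ∈ U := by
    intro g x
    constructor
    · intro h
      have := hUg g⁻¹ _ h
      rwa [show act (ρ g⁻¹) (g • x).1 = x.1 from hinv g x.1] at this
    · intro h; exact hUg g _ h
  have key := ws_parity (ws hP) (psep_smul hP)
    (fun w w' => by
      obtain ⟨g, hg⟩ := htr w w.2 w' w'.2
      exact ⟨g, Subtype.ext hg⟩)
    (fun x => x.1 ∈ U)
    (fun x y h => col_reg hP hU hV hd hUV x.2 y.2 (fun S hS => h ⟨S, hS⟩))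
    hcg
    (by
      obtain ⟨x, hx⟩ := hUn
      exact ⟨⟨x, (hoff x).mp (Or.inl hx)⟩, hx⟩)
    (by
      obtain ⟨x, hx⟩ := hVn
      exact ⟨⟨x, (hoff x).mp (Or.inr hx)⟩, fun h => Set.disjoint_left.mp hd h hx⟩)
    p (μ • p)
  exact key.mp (hcg μ p).symm

theorem cross_eq (hP : TGSurface ρ P) (p : Pts P)
    (h : ∀ S : P, Sep S.1 p.1 (act (ρ μ) p.1) → AtInf S.1) :
    letI := ptsAct hP
    crossNum ρ P μ p.1 = ds (psep P) p (μ • p) := by
  letI := ptsAct hP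
  rw [ds_eq, (fin_sep hP p.1 (μ • p).1).cast_ncard_eq]
  unfold crossNum
  congr 1
  ext S
  constructor
  · rintro ⟨h1, -, h3⟩; exact ⟨h1, h3⟩
  · rintro ⟨h1, h3⟩; exact ⟨h1, h ⟨S, h1⟩ h3, h3⟩

theorem cross_inf' (hc : TorusCusp ρ μ lam m l) (hP : TGSurface ρ P) (S : P) (x : Pts P)
    (h : letI := ptsAct hP; letI := planeAct hP
      Cross (psep P) μ S) : AtInf S.1 := by
  letI := ptsAct hP
  letI := planeAct hP
  exact cross_inf hc (hP.planes S S.2) x.1 (h x)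

theorem cross_even (hc : TorusCusp ρ μ lam m l) (hP : TGSurface ρ P) (hS : Separating ρ P)
    {x : H3} (hx : x ∉ ⋃₀ P) : ∃ k : ℕ, crossNum ρ P μ x = (2 * k : ℕ) := by
  letI := ptsAct hP
  letI := planeAct hP
  haveI : Nonempty (Pts P) := ⟨⟨x, hx⟩⟩
  by_cases h2 : ∀ p : Pts P, 2 ≤ ds (psep P) p (μ • p)
  · obtain ⟨p₀, hp, -⟩ := ws_min (ws hP) (psep_smul hP) h2
    have h3 := cross_eq (μ := μ) hP p₀ (fun S hS => cross_inf' hc hP S p₀ (hp S hS))
    obtain ⟨k, hk⟩ := even_ds (μ := μ) hP hS p₀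
    refine ⟨k, ?_⟩
    rw [crossNum_const hc hP hx p₀.2, h3, hk]
    push_cast; ring
  · push Not at h2
    obtain ⟨p, hp⟩ := h2
    obtain ⟨k, hk⟩ := even_ds (μ := μ) hP hS p
    have h0 : ds (psep P) p (μ • p) = 0 := by omega
    have h3 := cross_le (μ := μ) hP p (μ • p) rfl
    rw [h0] at h3
    refine ⟨0, ?_⟩
    rw [crossNum_const hc hP hx p.2]
    simpa using h3

end SXP
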