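import Mathlib

/-! Project SXP, definitions: hyperbolic space, totally geodesic planes, Kleinian groups with a
torus cusp, and embedded totally geodesic surfaces (through their lifts).

`H3` is the hyperboloid model of hyperbolic 3-space inside the Hermitian matrices: the matrix
`P` with `P 1 1 = 1 / t`, `P 0 1 = z / t`, `P 0 0 = (|z|^2 + t^2) / t` is the point `(z, t)` of the
upper half-space; `g` in `SL(2, ℂ)` acts by `P ↦ g P gᴴ`, which is the Poincare extension of its
Moebius transformation.  The totally geodesic planes are the intersections with the hyperplanes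
`Re tr(P N) = 0`, `N` Hermitian with negative determinant (hemispheres, and vertical half-planes
when `N 0 0 = 0`). -/

namespace SXP

open Matrix

/-- Hyperbolic 3-space: Hermitian positive definite 2x2 matrices of determinant one. -/
abbrev H3 : Type :=
  {P : Matrix (Fin 2) (Fin 2) ℂ // P.IsHermitian ∧ 0 < (P 0 0).re ∧ P.det = 1}

theorem act_mem (g : Matrix.SpecialLinearGroup (Fin 2) ℂ) (P : H3) :
    (g.1 * P.1 * g.1ᴴ).IsHermitian ∧ 0 < ((g.1 * P.1 * g.1ᴴ) 0 0).re ∧
      (g.1 * P.1 * g.1ᴴ).det = 1 := by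
  obtain ⟨P, hP, h0, hd⟩ := P
  have hg := g.2
  refine ⟨Matrix.isHermitian_mul_mul_conjTranspose _ hP, ?_, ?_⟩
  · simp only
    have e10 : P 1 0 = star (P 0 1) := by
      have := congrFun (congrFun hP 1) 0; rw [← this]; rfl
    have e00 : (P 0 0).im = 0 := by
      have := congrArg Complex.im (congrFun (congrFun hP 0) 0)
      simp [Matrix.conjTranspose_apply] at this; linarith
    have e11 : (P 1 1).im = 0 := by
      have := congrArg Complex.im (congrFun (congrFun hP 1) 1)
      simp [Matrix.conjTranspose_apply] at this; linarith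
    rw [Matrix.det_fin_two] at hd hg
    have hdr := congrArg Complex.re hd
    rw [e10] at hdr
    simp [e00, e11] at hdr
    have key : (P 0 0).re * ((g.1 * P * g.1ᴴ) 0 0).re =
        ((g.1 0 0).re * (P 0 0).re + (g.1 0 1).re * (P 0 1).re + (g.1 0 1).im * (P 0 1).im) ^ 2 +
        ((g.1 0 0).im * (P 0 0).re + (g.1 0 1).im * (P 0 1).re - (g.1 0 1).re * (P 0 1).im) ^ 2 +
        ((g.1 0 1).re ^ 2 + (g.1 0 1).im ^ 2) := by
      simp [Matrix.mul_apply, Fin.sum_univ_two, Matrix.conjTranspose_apply, e10, e00, e11]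
      linear_combination ((g.1 0 1).re ^ 2 + (g.1 0 1).im ^ 2) * hdr
    have hpos : 0 < (P 0 0).re * ((g.1 * P * g.1ᴴ) 0 0).re := by
      rw [key]
      by_cases hb : g.1 0 1 = 0
      · rw [hb] at hg ⊢
        have ha : g.1 0 0 ≠ 0 := by
          intro h; rw [h] at hg; simp at hg
        have : 0 < (g.1 0 0).re ^ 2 + (g.1 0 0).im ^ 2 := by
          have := Complex.normSq_pos.mpr ha
          rw [Complex.normSq_apply] at this; nlinarith
        simp
        have h2 : ((g.1 0 0).re * (P 0 0).re) ^ 2 + ((g.1 0 0).im * (P 0 0).re) ^ 2 =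
          ((g.1 0 0).re ^ 2 + (g.1 0 0).im ^ 2) * (P 0 0).re ^ 2 := by ring
        rw [h2]; positivity
      · have := Complex.normSq_pos.mpr hb
        rw [Complex.normSq_apply] at this
        nlinarith [sq_nonneg ((g.1 0 0).re * (P 0 0).re + (g.1 0 1).re * (P 0 1).re +
          (g.1 0 1).im * (P 0 1).im), sq_nonneg ((g.1 0 0).im * (P 0 0).re +
          (g.1 0 1).im * (P 0 1).re - (g.1 0 1).re * (P 0 1).im)]
    exact (pos_iff_pos_of_mul_pos hpos).mp h0
  · simp [Matrix.det_mul, Matrix.det_conjTranspose, hd, hg]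

/-- The isometric action of `SL(2, ℂ)` on hyperbolic space. -/
noncomputable def act (g : Matrix.SpecialLinearGroup (Fin 2) ℂ) (P : H3) : H3 :=
  ⟨g.1 * P.1 * g.1ᴴ, act_mem g P⟩

/-- The linear form `P ↦ Re tr(P N)`. -/
noncomputable def lin (N P : Matrix (Fin 2) (Fin 2) ℂ) : ℝ := ((P * N).trace).re

/-- Normal vectors of totally geodesic planes: Hermitian matrices of negative determinant. -/
def IsNormal (N : Matrix (Fin 2) (Fin 2) ℂ) : Prop := N.IsHermitian ∧ N.det.re < 0

/-- The totally geodesic plane with normal `N`. -/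
def plane (N : Matrix (Fin 2) (Fin 2) ℂ) : Set H3 := {P | lin N P.1 = 0}

/-- `S` is a totally geodesic plane. -/
def IsPlane (S : Set H3) : Prop := ∃ N, IsNormal N ∧ S = plane N

/-- `S` is a totally geodesic plane whose ideal boundary contains the point `∞` (a vertical
half-plane of the upper half-space model). -/
def AtInf (S : Set H3) : Prop := ∃ N, IsNormal N ∧ S = plane N ∧ N 0 0 = 0

/-- The plane `S` separates the points `x` and `y`. -/
def Sep (S : Set H3) (x y : H3) : Prop :=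
  ∃ N, IsNormal N ∧ S = plane N ∧ 0 < lin N x.1 ∧ lin N y.1 < 0

variable {G : Type*} [Group G]

/-- `P` is the set of lifts of a properly embedded totally geodesic surface in `H3 / G`: a
`G`-invariant locally finite family of pairwise disjoint totally geodesic planes. -/
structure TGSurface (ρ : G →* Matrix.SpecialLinearGroup (Fin 2) ℂ) (P : Set (Set H3)) : Prop where
  planes : ∀ S ∈ P, IsPlane S
  disj : ∀ S ∈ P, ∀ S' ∈ P, S ≠ S' → Disjoint S S'
  lf : LocallyFinite (fun S : P => (S : Set H3))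
  inv : ∀ g : G, ∀ S ∈ P, act (ρ g) '' S ∈ P

/-- `G` has a torus cusp at the ideal point `∞`, with peripheral group generated by the commuting
elements `μ` and `lam` acting as the translations by `m` and `l`. -/
structure TorusCusp (ρ : G →* Matrix.SpecialLinearGroup (Fin 2) ℂ) (μ lam : G) (m l : ℂ) :
    Prop where
  comm : μ * lam = lam * μ
  hμ : (ρ μ).1 = !![1, m; 0, 1] ∨ (ρ μ).1 = -!![1, m; 0, 1]
  hlam : (ρ lam).1 = !![1, l; 0, 1] ∨ (ρ lam).1 = -!![1, l; 0, 1]
  ind : LinearIndependent ℝ ![m, l]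
  stab : ∀ g : G, (ρ g).1 1 0 = 0 → g ∈ Subgroup.closure {μ, lam}

/-- The number of vertical lifts of the surface separating `x` from `μ x`. -/
noncomputable def crossNum (ρ : G →* Matrix.SpecialLinearGroup (Fin 2) ℂ) (P : Set (Set H3))
    (μ : G) (x : H3) : ℕ∞ :=
  {S | S ∈ P ∧ AtInf S ∧ Sep S x (act (ρ μ) x)}.encard

/-- The plane `S` passes through the ideal point `g ∞`. -/
def AtPt (ρ : G →* Matrix.SpecialLinearGroup (Fin 2) ℂ) (g : G) (S : Set H3) : Prop :=
  AtInf (act (ρ g⁻¹) '' S)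

/-- There is an ideal triangle with its sides on the surface: three lifts `S₁, S₂, S₃` which are
pairwise asymptotic at three different ideal points `a ∞, b ∞, c ∞` in the orbit of the cusp. -/
def IdealTriangle (ρ : G →* Matrix.SpecialLinearGroup (Fin 2) ℂ) (P : Set (Set H3)) : Prop :=
  ∃ S₁ ∈ P, ∃ S₂ ∈ P, ∃ S₃ ∈ P, S₁ ≠ S₂ ∧ S₂ ≠ S₃ ∧ S₁ ≠ S₃ ∧ ∃ a b c : G,
    AtPt ρ a S₁ ∧ AtPt ρ a S₂ ∧ AtPt ρ b S₂ ∧ AtPt ρ b S₃ ∧ AtPt ρ c S₃ ∧ AtPt ρ c S₁ ∧
    (ρ (a⁻¹ * b)).1 1 0 ≠ 0 ∧ (ρ (b⁻¹ * c)).1 1 0 ≠ 0 ∧ (ρ (a⁻¹ * c)).1 1 0 ≠ 0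

/-- The surface is connected and separating: `G` permutes its lifts transitively, and the
complement of the lifts is the union of two disjoint nonempty open `G`-invariant sets. -/
structure Separating (ρ : G →* Matrix.SpecialLinearGroup (Fin 2) ℂ) (P : Set (Set H3)) :
    Prop where
  trans : ∀ S ∈ P, ∀ S' ∈ P, ∃ g : G, act (ρ g) '' S = S'
  sep : ∃ U V : Set H3, IsOpen U ∧ IsOpen V ∧ U.Nonempty ∧ V.Nonempty ∧ Disjoint U V ∧
    U ∪ V = (⋃₀ P)ᶜ ∧ (∀ g : G, ∀ x ∈ U, act (ρ g) x ∈ U) ∧ ∀ g : G, ∀ x ∈ V, act (ρ g) x ∈ V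

end SXP
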