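import Pool.Agent.SXP.GSep

/-! Project SXP, module SXP-GPts: every totally geodesic plane has points of `H3` on both sides.

For `z : ℂ`, `T > 0` the matrix `(1/T) [[|z|^2 + T^2, z], [conj z, 1]]` is in `H3`, and `T * lin N` of it is
`F(z, T) = a (|z|^2 + T^2) + 2 Re(z n) + c`, where `a = N 0 0`, `n = N 1 0`, `c = N 1 1`. -/

namespace SXP

open Matrix in
private theorem gpts_herm {N : Matrix (Fin 2) (Fin 2) ℂ} (hN : N.IsHermitian) :
    (N 0 0).im = 0 ∧ (N 1 1).im = 0 ∧ (N 0 1).re = (N 1 0).re ∧ (N 0 1).im = -(N 1 0).im := by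
  have h00 := congrFun (congrFun hN 0) 0
  have h11 := congrFun (congrFun hN 1) 1
  have h01 := congrFun (congrFun hN 0) 1
  rw [Matrix.conjTranspose_apply] at h00 h11 h01
  have a := congrArg Complex.im h00
  have b := congrArg Complex.im h11
  have c := congrArg Complex.re h01
  have d := congrArg Complex.im h01
  simp only [Complex.star_def, Complex.conj_im, Complex.conj_re] at a b c d
  exact ⟨by linarith, by linarith, by linarith, by linarith⟩

open Matrix in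
private theorem gpts_pt (u v : ℝ) (T : ℝ) (hT : 0 < T) :
    ∃ P : H3, ∀ N : Matrix (Fin 2) (Fin 2) ℂ, N.IsHermitian →
      lin N P.1 * T = (N 0 0).re * (u ^ 2 + v ^ 2 + T ^ 2) +
        2 * (u * (N 1 0).re - v * (N 1 0).im) + (N 1 1).re := by
  have hT0 : T ≠ 0 := hT.ne'
  refine ⟨⟨!![⟨(u ^ 2 + v ^ 2 + T ^ 2) / T, 0⟩, ⟨u / T, v / T⟩;
    ⟨u / T, -(v / T)⟩, ⟨1 / T, 0⟩], ?_, ?_, ?_⟩, ?_⟩
  · ext i j
    fin_cases i <;> fin_cases j <;>
      simp [Matrix.conjTranspose_apply, Complex.ext_iff]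
  · simp only [Matrix.of_apply, Matrix.cons_val_zero, Matrix.cons_val']
    positivity
  · rw [Matrix.det_fin_two]
    apply Complex.ext
    · simp
      field_simp
      ring
    · simp
      ring
  · intro N hN
    obtain ⟨h00, h11, h01, h01'⟩ := gpts_herm hN
    simp only [lin, Matrix.trace_fin_two, Matrix.mul_apply, Fin.sum_univ_two]
    simp
    rw [h01, h01']
    field_simp
    ring

private theorem gpts_pos {l T F : ℝ} (hT : 0 < T) (h : l * T = F) (hF : 0 < F) : 0 < l := by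
  by_contra hl
  push Not at hl
  have : l * T ≤ 0 := mul_nonpos_of_nonpos_of_nonneg hl hT.le
  linarith

private theorem gpts_neg {l T F : ℝ} (hT : 0 < T) (h : l * T = F) (hF : F < 0) : l < 0 := by
  by_contra hl
  push Not at hl
  have : 0 ≤ l * T := mul_nonneg hl hT.le
  linarith

theorem both_sides {N : Matrix (Fin 2) (Fin 2) ℂ} (hN : IsNormal N) :
    ∃ x y : H3, 0 < lin N x.1 ∧ lin N y.1 < 0 := by
  obtain ⟨hH, hd⟩ := hN
  obtain ⟨h00, h11, h01, h01'⟩ := gpts_herm hH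
  have hdet : (N 0 0).re * (N 1 1).re - ((N 1 0).re ^ 2 + (N 1 0).im ^ 2) < 0 := by
    rw [Matrix.det_fin_two] at hd
    simp only [Complex.sub_re, Complex.mul_re, h00, h11, h01, h01'] at hd
    nlinarith
  obtain ⟨a, ha⟩ : ∃ a, a = (N 0 0).re := ⟨_, rfl⟩
  obtain ⟨c, hc⟩ : ∃ c, c = (N 1 1).re := ⟨_, rfl⟩
  obtain ⟨p, hp⟩ : ∃ p, p = (N 1 0).re := ⟨_, rfl⟩
  obtain ⟨q, hq⟩ : ∃ q, q = (N 1 0).im := ⟨_, rfl⟩
  rw [← ha, ← hc, ← hp, ← hq] at hdet
  have key : ∀ u v T : ℝ, 0 < T → ∃ P : H3, lin N P.1 * T =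
      a * (u ^ 2 + v ^ 2 + T ^ 2) + 2 * (u * p - v * q) + c := by
    intro u v T hT
    obtain ⟨P, hP⟩ := gpts_pt u v T hT
    exact ⟨P, by rw [hP N hH, ha, hc, hp, hq]⟩
  rcases lt_trichotomy a 0 with h | h | h
  · -- `a < 0`
    have hD : 0 < p ^ 2 + q ^ 2 - a * c := by linarith
    have ha' : 0 < -a := by linarith
    have hane : a ≠ 0 := h.ne
    have hT1 : 0 < (|c| + 1) / (-a) := by positivity
    have hT2 : 0 < (p ^ 2 + q ^ 2 - a * c) / (2 * a ^ 2) := by positivity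
    obtain ⟨x, hx⟩ := key (-p / a) (q / a) (√((p ^ 2 + q ^ 2 - a * c) / (2 * a ^ 2))) (Real.sqrt_pos.2 hT2)
    obtain ⟨y, hy⟩ := key 0 0 (√((|c| + 1) / (-a))) (Real.sqrt_pos.2 hT1)
    rw [Real.sq_sqrt hT2.le] at hx
    rw [Real.sq_sqrt hT1.le] at hy
    refine ⟨x, y, gpts_pos (Real.sqrt_pos.2 hT2) hx ?_, gpts_neg (Real.sqrt_pos.2 hT1) hy ?_⟩
    · have e : a * ((-p / a) ^ 2 + (q / a) ^ 2 + (p ^ 2 + q ^ 2 - a * c) / (2 * a ^ 2)) +
          2 * (-p / a * p - q / a * q) + c = (p ^ 2 + q ^ 2 - a * c) / (2 * (-a)) := by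
        have ha0 : a ≠ 0 := h.ne
        field_simp
        ring
      rw [e]
      positivity
    · have e : a * (0 ^ 2 + 0 ^ 2 + (|c| + 1) / (-a)) + 2 * (0 * p - 0 * q) + c = -(|c| + 1) + c := by
        have ha0 : a ≠ 0 := h.ne
        field_simp
        ring
      rw [e]
      have := le_abs_self c
      linarith
  · -- `a = 0`
    subst h
    have hD : 0 < p ^ 2 + q ^ 2 := by linarith
    obtain ⟨x, hx⟩ := key ((1 - c) / (2 * (p ^ 2 + q ^ 2)) * p) (-((1 - c) / (2 * (p ^ 2 + q ^ 2)) * q)) 1 one_pos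
    obtain ⟨y, hy⟩ := key ((-1 - c) / (2 * (p ^ 2 + q ^ 2)) * p) (-((-1 - c) / (2 * (p ^ 2 + q ^ 2)) * q)) 1 one_pos
    have e : ∀ t : ℝ, (0 : ℝ) * ((t / (2 * (p ^ 2 + q ^ 2)) * p) ^ 2 + (-(t / (2 * (p ^ 2 + q ^ 2)) * q)) ^ 2 + 1 ^ 2) +
        2 * (t / (2 * (p ^ 2 + q ^ 2)) * p * p - -(t / (2 * (p ^ 2 + q ^ 2)) * q) * q) + c = t + c := by
      intro t
      field_simp
      ring
    rw [e] at hx hy
    refine ⟨x, y, gpts_pos one_pos hx (by linarith), gpts_neg one_pos hy (by linarith)⟩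
  · -- `0 < a`
    have hD : 0 < p ^ 2 + q ^ 2 - a * c := by linarith
    have hT1 : 0 < (|c| + 1) / a := by positivity
    have hT2 : 0 < (p ^ 2 + q ^ 2 - a * c) / (2 * a ^ 2) := by positivity
    obtain ⟨x, hx⟩ := key 0 0 (√((|c| + 1) / a)) (Real.sqrt_pos.2 hT1)
    obtain ⟨y, hy⟩ := key (-p / a) (q / a) (√((p ^ 2 + q ^ 2 - a * c) / (2 * a ^ 2))) (Real.sqrt_pos.2 hT2)
    rw [Real.sq_sqrt hT1.le] at hx
    rw [Real.sq_sqrt hT2.le] at hy
    refine ⟨x, y, gpts_pos (Real.sqrt_pos.2 hT1) hx ?_, gpts_neg (Real.sqrt_pos.2 hT2) hy ?_⟩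
    · have e : a * (0 ^ 2 + 0 ^ 2 + (|c| + 1) / a) + 2 * (0 * p - 0 * q) + c = |c| + 1 + c := by
        have ha0 : a ≠ 0 := h.ne'
        field_simp
        ring
      rw [e]
      have := neg_abs_le c
      linarith
    · have e : a * ((-p / a) ^ 2 + (q / a) ^ 2 + (p ^ 2 + q ^ 2 - a * c) / (2 * a ^ 2)) +
          2 * (-p / a * p - q / a * q) + c = -((p ^ 2 + q ^ 2 - a * c) / (2 * a)) := by
        have ha0 : a ≠ 0 := h.ne'
        field_simp
        ring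
      rw [e]
      have : 0 < (p ^ 2 + q ^ 2 - a * c) / (2 * a) := by positivity
      linarith

end SXP
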