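import Pool.Agent.SXP.GStep
import Pool.Agent.SXP.GPts

/-! Project SXP, module SXP-GNear: two points on the two sides of a plane `S` of the family, such
that `S` is the only plane of the family separating them.

`S = plane N`.  Take `a, b` on both sides of `S` (`both_sides`) and a segment `γ` from `a` to `b`
(`exists_seg`).  By `sep_crosses` there is `s₀ ∈ (0,1)` with `p := γ s₀ ∈ S`.  `hP.lf p` gives a
neighbourhood of `p` meeting only finitely many planes of `P`; each `S' ∈ P`, `S' ≠ S` is closed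
(`lin N'` is continuous) and does not contain `p` (disjointness), so there is a neighbourhood `U` of
`p` which meets no plane of `P` except `S` (finite intersection).  By continuity of `γ` at `s₀` there
are `s₁ < s₀ < s₂` in `(0,1)` with `γ '' [s₁, s₂] ⊆ U`.  Put `x := γ s₁`, `y := γ s₂`.
`lin N (γ s)` is a positive multiple of `(1-s) A + s B` (`A = lin N a > 0 > B = lin N b`), zero exactly
at `s₀`, so `lin N x > 0 > lin N y`: `x, y ∉ S` and `Sep S x y`; `x, y ∈ U` are on no other plane, so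
`x, y ∉ ⋃₀ P`.  If `S' = plane N' ∈ P` separates `x` and `y`: `(1-s) A' + s B'` (`A' = lin N' a`,
`B' = lin N' b`) has opposite signs at `s₁`, `s₂`, so vanishes at some `s ∈ (s₁, s₂)`, so
`γ s ∈ S' ∩ U` (`IsSeg.mem_iff`), so `S' = S`. -/

namespace SXP

variable {G : Type*} [Group G] {ρ : G →* Matrix.SpecialLinearGroup (Fin 2) ℂ} {P : Set (Set H3)}

theorem near_points (hP : TGSurface ρ P) {S : Set H3} (hS : S ∈ P) :
    ∃ x y : H3, x ∉ ⋃₀ P ∧ y ∉ ⋃₀ P ∧ Sep S x y ∧ ∀ S' ∈ P, Sep S' x y → S' = S := by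
  classical
  obtain ⟨N, hN, hSN⟩ := hP.planes S hS
  obtain ⟨a, b, ha, hb⟩ := both_sides hN
  obtain ⟨γ, hγ⟩ := exists_seg a b
  obtain ⟨s₀, hs₀, hs₀S⟩ := sep_crosses (⟨N, hN, hSN, ha, hb⟩ : Sep S a b) hγ
  have hs₀I : s₀ ∈ Set.Icc (0 : ℝ) 1 := ⟨hs₀.1.le, hs₀.2.le⟩
  have hK : IsCompact (γ '' Set.Icc 0 1) := isCompact_Icc.image_of_continuousOn hγ.1
  have hfin := hP.lf.finite_nonempty_inter_compact hK
  have hev : ∀ᶠ s in nhds s₀, ∀ S' ∈ {i : P | ((i : Set H3) ∩ γ '' Set.Icc 0 1).Nonempty},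
      (S' : Set H3) ≠ S → s ∈ Set.Icc (0 : ℝ) 1 → γ s ∉ (S' : Set H3) := by
    rw [Filter.eventually_all_finite hfin]
    intro S' _
    by_cases hne : (S' : Set H3) = S
    · exact Filter.Eventually.of_forall fun s h => absurd hne h
    · obtain ⟨N', hN', hSN'⟩ := hP.planes S' S'.2
      have h1 : γ s₀ ∉ (S' : Set H3) := fun h =>
        Set.disjoint_left.1 (hP.disj S' S'.2 S hS hne) h hs₀S
      rw [hSN', hγ.mem_iff hs₀I] at h1
      have hc : Continuous fun s : ℝ => (1 - s) * lin N' a.1 + s * lin N' b.1 := by fun_prop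
      have h2 := hc.continuousAt.eventually_ne h1
      filter_upwards [h2] with s hs _ hsI
      rw [hSN', hγ.mem_iff hsI]
      exact hs
  obtain ⟨ε, hε, hball⟩ := Metric.eventually_nhds_iff.1
    (hev.and (Ioo_mem_nhds hs₀.1 hs₀.2))
  have hIcc : ∀ s ∈ Set.Icc (s₀ - ε / 2) (s₀ + ε / 2), dist s s₀ < ε := by
    intro s hs
    rw [Real.dist_eq, abs_lt]
    constructor <;> linarith [hs.1, hs.2]
  have hI : ∀ s ∈ Set.Icc (s₀ - ε / 2) (s₀ + ε / 2), s ∈ Set.Icc (0 : ℝ) 1 := fun s hs =>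
    ⟨(hball (hIcc s hs)).2.1.le, (hball (hIcc s hs)).2.2.le⟩
  have hno : ∀ s ∈ Set.Icc (s₀ - ε / 2) (s₀ + ε / 2), ∀ S' ∈ P, S' ≠ S → γ s ∉ S' := by
    intro s hs S' hS' hne hmem
    exact (hball (hIcc s hs)).1 ⟨S', hS'⟩ ⟨γ s, hmem, ⟨s, hI s hs, rfl⟩⟩ hne (hI s hs) hmem
  have h1 : s₀ - ε / 2 ∈ Set.Icc (s₀ - ε / 2) (s₀ + ε / 2) := ⟨le_rfl, by linarith⟩
  have h2 : s₀ + ε / 2 ∈ Set.Icc (s₀ - ε / 2) (s₀ + ε / 2) := ⟨by linarith, le_rfl⟩
  obtain ⟨k₁, hk₁, hl₁⟩ := hγ.2.2.2 _ (hI _ h1)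
  obtain ⟨k₂, hk₂, hl₂⟩ := hγ.2.2.2 _ (hI _ h2)
  have hzero : (1 - s₀) * lin N a.1 + s₀ * lin N b.1 = 0 := by
    rw [← hγ.mem_iff hs₀I, ← hSN]
    exact hs₀S
  have hx : 0 < lin N (γ (s₀ - ε / 2)).1 := by
    rw [hl₁ N]
    refine mul_pos hk₁ ?_
    have h3 : (1 - (s₀ - ε / 2)) * lin N a.1 + (s₀ - ε / 2) * lin N b.1 =
        ε / 2 * (lin N a.1 - lin N b.1) := by linear_combination hzero
    rw [h3]
    exact mul_pos (by linarith) (by linarith)
  have hy : lin N (γ (s₀ + ε / 2)).1 < 0 := by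
    rw [hl₂ N]
    refine mul_neg_of_pos_of_neg hk₂ ?_
    have h3 : (1 - (s₀ + ε / 2)) * lin N a.1 + (s₀ + ε / 2) * lin N b.1 =
        -(ε / 2 * (lin N a.1 - lin N b.1)) := by linear_combination hzero
    rw [h3]
    exact neg_neg_of_pos (mul_pos (by linarith) (by linarith))
  refine ⟨γ (s₀ - ε / 2), γ (s₀ + ε / 2), ?_, ?_, ⟨N, hN, hSN, hx, hy⟩, ?_⟩
  · rintro ⟨S', hS', hmem⟩
    by_cases hne : S' = S
    · rw [hne, hSN] at hmem
      exact hx.ne' hmem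
    · exact hno _ h1 S' hS' hne hmem
  · rintro ⟨S', hS', hmem⟩
    by_cases hne : S' = S
    · rw [hne, hSN] at hmem
      exact hy.ne hmem
    · exact hno _ h2 S' hS' hne hmem
  · rintro S' hS' ⟨N', hN', hSN', hx', hy'⟩
    by_contra hne
    rw [hl₁ N'] at hx'
    rw [hl₂ N'] at hy'
    have h3 := (pos_iff_pos_of_mul_pos hx').1 hk₁
    have h4 : (1 - (s₀ + ε / 2)) * lin N' a.1 + (s₀ + ε / 2) * lin N' b.1 < 0 := by
      by_contra hc
      exact absurd hy' (not_lt.2 (mul_nonneg hk₂.le (not_lt.1 hc)))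
    have hc : Continuous fun s : ℝ => (1 - s) * lin N' a.1 + s * lin N' b.1 := by fun_prop
    obtain ⟨s, hs, hs0⟩ := intermediate_value_Icc' (by linarith : s₀ - ε / 2 ≤ s₀ + ε / 2)
      hc.continuousOn ⟨h4.le, h3.le⟩
    apply hno s hs S' hS' hne
    rw [hSN', hγ.mem_iff (hI s hs)]
    exact hs0

end SXP
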