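import Pool.Agent.SXP.Walls

/-! Project SXP: a wall has exactly two adjacent regions. -/

namespace SXP

variable {X W : Type*} {sep : W → X → X → Prop}

private theorem adj_uniq_aux (hS : WS sep) {w : W} {x y x' y' : X} (h : sep w x y)
    (h1 : ∀ u, sep u x y → u = w) (h' : sep w x' y') (h1' : ∀ u, sep u x' y' → u = w)
    (hx : ¬ sep w x x') : (∀ u, ¬ sep u x x') ∧ (∀ u, ¬ sep u y y') := by
  have key : ∀ u, ¬ sep u x x' := by
    intro u hu
    have hne : w ≠ u := by
      rintro rfl
      exact hx hu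
    have a2 : ¬ sep u x y := fun e => hne (h1 u e).symm
    have b2 : ¬ sep u x' y' := fun e => hne (h1' u e).symm
    have c1 := hS.xor w x x' y'
    have c2 := hS.xor u x x' y'
    exact hS.nest w u hne x y x' y' h a2 hx hu (by tauto) (by tauto)
  refine ⟨key, ?_⟩
  intro u hu
  have a1 := key u
  have a4 := hS.xor u y x y'
  have a5 := hS.xor u x x' y'
  have a6 := hS.sym u y x
  by_cases huw : u = w
  · subst huw
    tauto
  · have a2 : ¬ sep u x y := fun e => huw (h1 u e)
    have b2 : ¬ sep u x' y' := fun e => huw (h1' u e)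
    tauto

theorem adj_uniq (hS : WS sep) {w : W} {x y x' y' : X} (h : sep w x y)
    (h1 : ∀ u, sep u x y → u = w) (h' : sep w x' y') (h1' : ∀ u, sep u x' y' → u = w) :
    ((∀ u, ¬ sep u x x') ∧ (∀ u, ¬ sep u y y')) ∨
      ((∀ u, ¬ sep u x y') ∧ (∀ u, ¬ sep u y x')) := by
  by_cases hx : sep w x x'
  · right
    have hx2 : ¬ sep w x y' := by
      have c1 := hS.xor w x x' y'
      tauto
    exact adj_uniq_aux hS h h1 ((hS.sym w x' y').1 h') (fun u hu => h1' u ((hS.sym u y' x').1 hu))
      hx2
  · left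
    exact adj_uniq_aux hS h h1 h' h1' hx

end SXP
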