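import Pool.Agent.SXP.Main
import Pool.Agent.SXP.XAdj
import Pool.Agent.SXP.GNear

/-! Project SXP: elements of the normal closure do not preserve a lift of the surface. -/

set_option linter.style.haveILetI false

namespace SXP

variable {G : Type*} [Group G] {ρ : G →* Matrix.SpecialLinearGroup (Fin 2) ℂ} {μ lam : G}
  {m l : ℂ} {P : Set (Set H3)}

theorem main_stab (hc : TorusCusp ρ μ lam m l) (hP : TGSurface ρ P) {x₀ : H3}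
    (hx₀ : x₀ ∉ ⋃₀ P) (h6 : 6 ≤ crossNum ρ P μ x₀ ∨ (4 ≤ crossNum ρ P μ x₀ ∧ ¬ IdealTriangle ρ P))
    {g : G} (hg : g ∈ Subgroup.normalClosure {μ}) {S : Set H3} (hS : S ∈ P)
    (hgS : act (ρ g) '' S = S) : g * g = 1 := by
  letI := ptsAct hP
  letI := planeAct hP
  obtain ⟨x, y, hx, hy, hxy, hu⟩ := near_points hP hS
  have h1 : psep P ⟨S, hS⟩ ⟨x, hx⟩ ⟨y, hy⟩ := hxy
  have h2 : ∀ u, psep P u ⟨x, hx⟩ ⟨y, hy⟩ → u = ⟨S, hS⟩ := fun u h => Subtype.ext (hu u.1 u.2 h)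
  have hgw : g • (⟨S, hS⟩ : P) = ⟨S, hS⟩ := Subtype.ext hgS
  have h3 : psep P ⟨S, hS⟩ (g • ⟨x, hx⟩) (g • ⟨y, hy⟩) := by
    rw [← psep_smul hP g] at h1
    rwa [hgw] at h1
  have h4 : ∀ u, psep P u (g • ⟨x, hx⟩) (g • ⟨y, hy⟩) → u = ⟨S, hS⟩ := by
    intro u h
    have e : u = g • (g⁻¹ • u) := (smul_inv_smul g u).symm
    rw [e, psep_smul hP g] at h
    have := h2 _ h
    rw [e, this, hgw]
  rcases adj_uniq (ws hP) h1 h2 h3 h4 with ⟨h5, -⟩ | ⟨h5, h6'⟩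
  · have : g = 1 := by
      by_contra hne
      obtain ⟨T, hT, hs⟩ := main_free hc hP hx₀ h6 hg hne hx
      exact h5 ⟨T, hT⟩ hs
    rw [this, one_mul]
  · by_contra hne
    obtain ⟨T, hT, hs⟩ := main_free hc hP hx₀ h6 (Subgroup.mul_mem _ hg hg) hne hx
    have hs' : psep P ⟨T, hT⟩ ⟨x, hx⟩ (g • g • ⟨x, hx⟩) := by
      rw [← mul_smul]; exact hs
    have h7 : ∀ u, ¬ psep P u (g • ⟨y, hy⟩) (g • g • ⟨x, hx⟩) := by
      intro u h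
      have e : u = g • (g⁻¹ • u) := (smul_inv_smul g u).symm
      rw [e, psep_smul hP g] at h
      exact h6' _ h
    have h8 := (ws hP).xor ⟨T, hT⟩ ⟨x, hx⟩ (g • ⟨y, hy⟩) (g • g • ⟨x, hx⟩)
    exact h5 ⟨T, hT⟩ ((h8.mp hs').mpr (h7 ⟨T, hT⟩))

end SXP
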