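import Pool.Agent.SXP.TBasic

/-! Project SXP, module SXP-TGate: gates of convex sets, and unions of chains of convex sets.

* `gate`: let `p ∈ W` minimise `d u ·` on `W` (`Nat.find` or well-foundedness, e.g.
  `Function.argminOn` or `exists_minimal`...).  For `w ∈ W` let `m` be the `median` of
  `u, p, w`.  `Btw p m w` gives `m ∈ W` (convexity), `Btw u m p` and minimality give `m = p`
  (`d m p = 0`), so `Btw u p w`.
* `nbr_eq`: if `v ∉ X` is adjacent to `p, q ∈ X` then `p = q`: `d p q ≤ 2` and even (parity), if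
  it is `2` then `Btw p v q` and `v ∈ X`.
* `chain_conv`: (1) for `ReflTransGen` from `u` to `v` (any `u ∈ ⋃₀ Q`) and `Btw u y v`, `y ∈ ⋃₀ Q`:
  induction on the chain, last step `b, v ∈ P`: `btw_tri` with `p := b`: `Btw u y b` (induction)
  or `Btw b y v` (convexity of `P`).
  (2) for `d u v = 1`: prove by induction on the chain `u ⟶* z` (head fixed): if `z` is on the
  side of `v` (`d z u = d z v + 1`) then some member `P` contains `u` and `v`.  Start: `z = u` is
  not on the side of `v`.  Step `b, z ∈ P`: if `b` is on the side of `v` use induction; otherwise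
  (`edge_or`) `d b v = d b u + 1`, so by `edge_sep` `d b z = d b u + 1 + d v z`, which gives
  `Btw b u z` and `Btw b v z`; convexity of `P`. -/

namespace SXP

variable {V : Type*} {d : V → V → ℕ}

theorem gate (h : TM d) {W : Set V} (hW : Conv d W) (hne : W.Nonempty) (u : V) :
    ∃ p ∈ W, ∀ w ∈ W, d u w = d u p + d p w := by
  obtain ⟨p, hp, hmin⟩ := WellFounded.has_min (measure (d u)).wf W hne
  refine ⟨p, hp, fun w hw => ?_⟩
  obtain ⟨m, h1, h2, h3⟩ := median h u p w
  have hm : m ∈ W := hW p hp w hw m h2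
  have h4 : ¬ d u m < d u p := hmin m hm
  have h5 : d u m + d m p = d u p := h1
  have h6 : d m p = 0 := by omega
  have h7 : m = p := (h.zero m p).1 h6
  subst h7
  exact h3.symm

theorem nbr_eq (h : TM d) {X : Set V} (hX : Conv d X) {v p q : V} (hv : v ∉ X)
    (hp : p ∈ X) (hq : q ∈ X) (hvp : d v p = 1) (hvq : d v q = 1) : p = q := by
  have h1 := h.symm p v
  have h2 := h.tri p v q
  have h3 := h.par p v q
  rcases Nat.eq_zero_or_pos (d p q) with h4 | h4
  · exact (h.zero p q).1 h4
  · exfalso
    have h5 : Btw d p v q := by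
      unfold Btw
      omega
    exact hv (hX p hp q hq v h5)

theorem chain_conv (h : TM d) (Q : Set (Set V)) (hQ : ∀ P ∈ Q, Conv d P)
    (hconn : ∀ u ∈ ⋃₀ Q, ∀ v ∈ ⋃₀ Q,
      Relation.ReflTransGen (fun a b => ∃ P ∈ Q, a ∈ P ∧ b ∈ P) u v) :
    Conv d (⋃₀ Q) ∧
      ∀ u ∈ ⋃₀ Q, ∀ v ∈ ⋃₀ Q, d u v = 1 → ∃ P ∈ Q, u ∈ P ∧ v ∈ P := by
  constructor
  · intro u hu v hv y hy
    have key : ∀ z, Relation.ReflTransGen (fun a b => ∃ P ∈ Q, a ∈ P ∧ b ∈ P) u z →
        ∀ y, Btw d u y z → y ∈ ⋃₀ Q := by
      intro z hz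
      induction hz with
      | refl =>
        intro y hy
        have h1 : d u y + d y u = d u u := hy
        have h2 : d u u = 0 := (h.zero u u).2 rfl
        have h3 : d u y = 0 := by omega
        rw [← (h.zero u y).1 h3]
        exact hu
      | tail _ hbc ih =>
        intro y hy
        obtain ⟨P, hP, hb, hc⟩ := hbc
        rcases btw_tri h hy _ with h1 | h1
        · exact ih y h1
        · exact ⟨P, hP, hQ P hP _ hb _ hc y h1⟩
    exact key v (hconn u hu v hv) y hy
  · intro u hu v hv huv
    have key : ∀ z, Relation.ReflTransGen (fun a b => ∃ P ∈ Q, a ∈ P ∧ b ∈ P) u z →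
        d z u = d z v + 1 → ∃ P ∈ Q, u ∈ P ∧ v ∈ P := by
      intro z hz
      induction hz with
      | refl =>
        intro h1
        have h2 : d u u = 0 := (h.zero u u).2 rfl
        omega
      | @tail b c _ hbc ih =>
        intro h1
        obtain ⟨P, hP, hb, hc⟩ := hbc
        rcases edge_or h huv b with h2 | h2
        · have h3 := edge_sep h huv h2 h1
          have h4 := h.symm u c
          have h5 := h.symm v c
          refine ⟨P, hP, hQ P hP b hb c hc u ?_, hQ P hP b hb c hc v ?_⟩
          · unfold Btw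
            omega
          · unfold Btw
            omega
        · exact ih h2
    refine key v (hconn u hu v hv) ?_
    have h1 := h.symm v u
    have h2 : d v v = 0 := (h.zero v v).2 rfl
    omega

end SXP
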