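import Pool.Agent.SXP.GSep

/-! Project SXP, module SXP-GNest: two disjoint planes do not cut space into four quadrants. -/

namespace SXP

private theorem pos_of_not_neg {a b : ℝ} (ha : a ≠ 0) (hb : b ≠ 0) (h : ¬ a * b < 0) : 0 < a * b :=
  lt_of_le_of_ne (not_lt.1 h) (mul_ne_zero ha hb).symm

private theorem trans_pos {a b c : ℝ} (h1 : 0 < a * b) (h2 : a * c < 0) : b * c < 0 := by
  have h3 : 0 < a ^ 2 := by
    have : a ≠ 0 := by
      rintro rfl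
      simp at h1
    positivity
  have h4 : (a * b) * (a * c) < 0 := mul_neg_of_pos_of_neg h1 h2
  have h5 : a ^ 2 * (b * c) < 0 := by nlinarith
  by_contra h
  have := mul_nonneg h3.le (not_lt.1 h)
  linarith

private theorem trans_neg {a b c : ℝ} (h1 : a * b < 0) (h2 : a * c < 0) : 0 < b * c := by
  have h3 : 0 < a ^ 2 := by
    have : a ≠ 0 := by
      rintro rfl
      simp at h1
    positivity
  have h4 : 0 < (a * b) * (a * c) := mul_pos_of_neg_of_neg h1 h2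
  have h5 : 0 < a ^ 2 * (b * c) := by nlinarith
  by_contra h
  have := mul_nonneg h3.le (neg_nonneg.2 (not_lt.1 h))
  linarith

/-- the sign of a linear form on a segment -/
private theorem seg_sign {γ : ℝ → H3} {x y : H3} (hγ : IsSeg γ x y) {s : ℝ}
    (hs : s ∈ Set.Ioo (0 : ℝ) 1) (N : Matrix (Fin 2) (Fin 2) ℂ) {c : ℝ}
    (h1 : 0 < c * lin N x.1) (h2 : 0 < c * lin N y.1) : 0 < c * lin N (γ s).1 := by
  obtain ⟨k, hk, hk2⟩ := hγ.2.2.2 s ⟨hs.1.le, hs.2.le⟩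
  rw [hk2 N]
  have h3 : 0 < (1 - s) * (c * lin N x.1) := mul_pos (by linarith [hs.2]) h1
  have h4 : 0 < s * (c * lin N y.1) := mul_pos hs.1 h2
  have h5 : c * (k * ((1 - s) * lin N x.1 + s * lin N y.1)) =
      k * ((1 - s) * (c * lin N x.1) + s * (c * lin N y.1)) := by ring
  rw [h5]
  positivity

theorem nest_planes {S S' : Set H3} (hS : IsPlane S) (hS' : IsPlane S') (hd : Disjoint S S')
    {x y z u : H3} (hx : x ∉ S ∧ x ∉ S') (hy : y ∉ S ∧ y ∉ S') (hz : z ∉ S ∧ z ∉ S')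
    (hu : u ∉ S ∧ u ∉ S') (h1 : Sep S x y) (h2 : ¬ Sep S' x y) (h3 : ¬ Sep S x z)
    (h4 : Sep S' x z) (h5 : Sep S x u) (h6 : Sep S' x u) : False := by
  obtain ⟨N, hN, rfl⟩ := hS
  obtain ⟨N', hN', rfl⟩ := hS'
  have nz : ∀ {M : Matrix (Fin 2) (Fin 2) ℂ} {w : H3}, w ∉ plane M → lin M w.1 ≠ 0 := fun h => h
  rw [sep_iff hN] at h1 h3 h5
  rw [sep_iff hN'] at h2 h4 h6
  have k1 : 0 < lin N' x.1 * lin N' x.1 := mul_self_pos.2 (nz hx.2)
  have k2 : 0 < lin N' x.1 * lin N' y.1 := pos_of_not_neg (nz hx.2) (nz hy.2) h2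
  have k3 : 0 < lin N x.1 * lin N z.1 := pos_of_not_neg (nz hx.1) (nz hz.1) h3
  have k4 : Sep (plane N) z u := (sep_iff hN).2 (trans_pos k3 h5)
  have k5 : 0 < lin N' z.1 * lin N' u.1 := trans_neg h4 h6
  have k6 : 0 < lin N' z.1 * lin N' z.1 := mul_self_pos.2 (nz hz.2)
  obtain ⟨γ₁, hγ₁⟩ := exists_seg x y
  obtain ⟨γ₂, hγ₂⟩ := exists_seg z u
  obtain ⟨s₁, hs₁, hp⟩ := sep_crosses ((sep_iff hN).2 h1) hγ₁
  obtain ⟨s₂, hs₂, hq⟩ := sep_crosses k4 hγ₂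
  have m1 := seg_sign hγ₁ hs₁ N' k1 k2
  have m2 := seg_sign hγ₂ hs₂ N' k6 k5
  -- the signs at `p` and at `q` are opposite
  have m3 : lin N' (γ₁ s₁).1 * lin N' z.1 < 0 := trans_pos m1 h4
  have m4 : lin N' (γ₂ s₂).1 * lin N' (γ₁ s₁).1 < 0 := by
    refine trans_pos (a := lin N' z.1) m2 ?_
    rw [mul_comm]
    exact m3
  have m5 : Sep (plane N') (γ₁ s₁) (γ₂ s₂) := (sep_iff hN').2 (by rw [mul_comm]; exact m4)
  obtain ⟨γ₃, hγ₃⟩ := exists_seg (γ₁ s₁) (γ₂ s₂)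
  obtain ⟨s₃, hs₃, hr⟩ := sep_crosses m5 hγ₃
  have hr' : γ₃ s₃ ∈ plane N := by
    rw [hγ₃.mem_iff ⟨hs₃.1.le, hs₃.2.le⟩]
    have e1 : lin N (γ₁ s₁).1 = 0 := hp
    have e2 : lin N (γ₂ s₂).1 = 0 := hq
    rw [e1, e2]
    ring
  exact Set.disjoint_left.1 hd hr' hr

end SXP
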