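import Pool.Agent.SXP.Geo

/-! Project SXP, module SXP-GSeg: geodesic segments in the hyperboloid model.

Write `x.1 = [[a, w], [conj w, b]]`, `y.1 = [[c, u], [conj u, e]]` (`a, b, c, e` real: Hermitian),
`a b = 1 + |w|^2`, `c e = 1 + |u|^2`, `a, c > 0`.  For real `s ∈ [0,1]`,
`M s := ((1 - s : ℝ) : ℂ) • x.1 + ((s : ℝ) : ℂ) • y.1` is Hermitian, its `(0,0)` entry has positive
real part, and `det M s` is real with
`(det (M s)).re = (1-s)^2 + s^2 + s (1-s) (a e + b c - 2 Re(w conj u)) ≥ 1`, because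
`a c (a e + b c - 2 - 2 Re(w conj u)) = (a - c)^2 + |a u - c w|^2 ≥ 0`.
With `σ s := max 0 (min 1 s)` put `γ s := (1 / √(det (M (σ s))).re) • M (σ s)` (complex scalar):
Hermitian, positive, `det = 1`.  Continuous: `Continuous.subtype_mk` and entrywise (or `continuity`,
`Matrix` topology is the product topology; `continuous_matrix` or `Continuous.matrix_of`; det of
`Fin 2` by `Matrix.det_fin_two`), `Real.sqrt` and division by something nonzero.  `γ 0 = x`, `γ 1 = y`
since `det = 1` there.  `lin N (γ s)` by linearity of the trace (`k := 1 / √det`).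

`lin_smul_add`-type lemma is useful: `lin N ((r : ℂ) • P) = r * lin N P`, `lin N (P + Q) = ...`.

`IsSeg.mem_iff`: `γ s ∈ plane N ↔ (1 - s) * lin N x.1 + s * lin N y.1 = 0` since `k ≠ 0`. -/

namespace SXP

/-- `γ` is a (parametrised) geodesic segment from `x` to `y`. -/
def IsSeg (γ : ℝ → H3) (x y : H3) : Prop :=
  ContinuousOn γ (Set.Icc 0 1) ∧ γ 0 = x ∧ γ 1 = y ∧
    ∀ s ∈ Set.Icc (0 : ℝ) 1, ∃ k : ℝ, 0 < k ∧
      ∀ N, lin N (γ s).1 = k * ((1 - s) * lin N x.1 + s * lin N y.1)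

private lemma herm10 {P : Matrix (Fin 2) (Fin 2) ℂ} (hP : P.IsHermitian) : P 1 0 = star (P 0 1) := by
  have := congrFun (congrFun hP 1) 0
  rw [← this]
  rfl

private lemma herm00 {P : Matrix (Fin 2) (Fin 2) ℂ} (hP : P.IsHermitian) : (P 0 0).im = 0 := by
  have := congrArg Complex.im (congrFun (congrFun hP 0) 0)
  simp [Matrix.conjTranspose_apply] at this
  linarith

private lemma herm11 {P : Matrix (Fin 2) (Fin 2) ℂ} (hP : P.IsHermitian) : (P 1 1).im = 0 := by
  have := congrArg Complex.im (congrFun (congrFun hP 1) 1)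
  simp [Matrix.conjTranspose_apply] at this
  linarith

private lemma det_herm {P : Matrix (Fin 2) (Fin 2) ℂ} (hP : P.IsHermitian) :
    P.det = (((P 0 0).re * (P 1 1).re - ((P 0 1).re ^ 2 + (P 0 1).im ^ 2) : ℝ) : ℂ) := by
  rw [Matrix.det_fin_two, herm10 hP]
  apply Complex.ext
  · rw [Complex.ofReal_re]
    simp only [Complex.sub_re, Complex.mul_re, herm00 hP, herm11 hP, Complex.star_def,
      Complex.conj_re, Complex.conj_im]
    ring
  · rw [Complex.ofReal_im]
    simp only [Complex.sub_im, Complex.mul_im, herm00 hP, herm11 hP, Complex.star_def,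
      Complex.conj_re, Complex.conj_im]
    ring

private lemma h3_eq (x : H3) :
    (x.1 0 0).re * (x.1 1 1).re = 1 + ((x.1 0 1).re ^ 2 + (x.1 0 1).im ^ 2) := by
  have h1 := det_herm x.2.1
  rw [x.2.2.2] at h1
  have h2 := congrArg Complex.re h1
  simp only [Complex.one_re, Complex.ofReal_re] at h2
  linarith

private lemma key_ineq {a b p q c e u v : ℝ} (ha : 0 < a) (hc : 0 < c) (h1 : a * b = 1 + (p ^ 2 + q ^ 2))
    (h2 : c * e = 1 + (u ^ 2 + v ^ 2)) : 2 ≤ a * e + b * c - 2 * (p * u + q * v) := by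
  have h3 : a * c * (a * e + b * c - 2 * (p * u + q * v) - 2) =
      (a - c) ^ 2 + (a * u - c * p) ^ 2 + (a * v - c * q) ^ 2 := by
    have h4 : a * c * (a * e + b * c - 2 * (p * u + q * v) - 2) =
      a ^ 2 * (c * e) + c ^ 2 * (a * b) - 2 * a * c * (p * u + q * v) - 2 * a * c := by ring
    rw [h4, h1, h2]
    ring
  have h5 : 0 ≤ a * c * (a * e + b * c - 2 * (p * u + q * v) - 2) := by
    rw [h3]
    positivity
  have h6 := nonneg_of_mul_nonneg_right h5 (mul_pos ha hc)
  linarith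

private noncomputable def M (x y : H3) (s : ℝ) : Matrix (Fin 2) (Fin 2) ℂ :=
  ((1 - s : ℝ) : ℂ) • x.1 + ((s : ℝ) : ℂ) • y.1

private lemma M_herm (x y : H3) (s : ℝ) : (M x y s).IsHermitian := by
  unfold M Matrix.IsHermitian
  rw [Matrix.conjTranspose_add, Matrix.conjTranspose_smul, Matrix.conjTranspose_smul, x.2.1, y.2.1]
  simp

private noncomputable def Dd (x y : H3) (s : ℝ) : ℝ :=
  ((1 - s) * (x.1 0 0).re + s * (y.1 0 0).re) * ((1 - s) * (x.1 1 1).re + s * (y.1 1 1).re) -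
    (((1 - s) * (x.1 0 1).re + s * (y.1 0 1).re) ^ 2 +
      ((1 - s) * (x.1 0 1).im + s * (y.1 0 1).im) ^ 2)

private lemma M_det (x y : H3) (s : ℝ) : (M x y s).det = ((Dd x y s : ℝ) : ℂ) := by
  rw [det_herm (M_herm x y s)]
  unfold M Dd
  simp

private lemma Dd_pos (x y : H3) {s : ℝ} (h0 : 0 ≤ s) (h1 : s ≤ 1) : 1 ≤ Dd x y s := by
  have hx := h3_eq x
  have hy := h3_eq y
  have hk := key_ineq x.2.2.1 y.2.2.1 hx hy
  have h2 : Dd x y s = (1 - s) ^ 2 + s ^ 2 + s * (1 - s) *
      ((x.1 0 0).re * (y.1 1 1).re + (x.1 1 1).re * (y.1 0 0).re -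
        2 * ((x.1 0 1).re * (y.1 0 1).re + (x.1 0 1).im * (y.1 0 1).im)) := by
    unfold Dd
    linear_combination (1 - s) ^ 2 * hx + s ^ 2 * hy
  rw [h2]
  have h3 : 0 ≤ s * (1 - s) := mul_nonneg h0 (by linarith)
  nlinarith

private noncomputable def cl (s : ℝ) : ℝ := max 0 (min 1 s)

private lemma cl0 (s : ℝ) : 0 ≤ cl s := le_max_left _ _

private lemma cl1 (s : ℝ) : cl s ≤ 1 := max_le zero_le_one (min_le_left _ _)

private lemma cl_eq {s : ℝ} (h : s ∈ Set.Icc (0 : ℝ) 1) : cl s = s := by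
  unfold cl
  rw [min_eq_right h.2, max_eq_right h.1]

private noncomputable def kk (x y : H3) (s : ℝ) : ℝ := 1 / Real.sqrt (Dd x y s)

private lemma kk_pos (x y : H3) {s : ℝ} (h0 : 0 ≤ s) (h1 : s ≤ 1) : 0 < kk x y s := by
  have := Dd_pos x y h0 h1
  unfold kk
  positivity

private lemma seg_mem (x y : H3) {s : ℝ} (h0 : 0 ≤ s) (h1 : s ≤ 1) :
    ((kk x y s : ℂ) • M x y s).IsHermitian ∧ 0 < (((kk x y s : ℂ) • M x y s) 0 0).re ∧
      ((kk x y s : ℂ) • M x y s).det = 1 := by
  have hk := kk_pos x y h0 h1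
  have hD := Dd_pos x y h0 h1
  refine ⟨?_, ?_, ?_⟩
  · unfold Matrix.IsHermitian
    rw [Matrix.conjTranspose_smul, (M_herm x y s)]
    simp
  · have h2 : (((kk x y s : ℂ) • M x y s) 0 0).re =
        kk x y s * ((1 - s) * (x.1 0 0).re + s * (y.1 0 0).re) := by
      unfold M
      simp
    rw [h2]
    apply mul_pos hk
    have hx := x.2.2.1
    have hy := y.2.2.1
    rcases eq_or_lt_of_le h0 with h | h
    · rw [← h]
      simpa using hx
    · have : 0 < s * (y.1 0 0).re := mul_pos h hy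
      have h4 : 0 ≤ (1 - s) * (x.1 0 0).re := mul_nonneg (by linarith) hx.le
      linarith
  · rw [Matrix.det_smul, M_det, Fintype.card_fin]
    have h2 : kk x y s ^ 2 * Dd x y s = 1 := by
      unfold kk
      rw [div_pow, one_pow, Real.sq_sqrt (by linarith)]
      field_simp
    exact_mod_cast h2

private lemma M_cont (x y : H3) : Continuous (M x y) := by
  unfold M
  fun_prop

private lemma Dd_cont (x y : H3) : Continuous (Dd x y) := by
  unfold Dd
  fun_prop

private lemma lin_smul (N P : Matrix (Fin 2) (Fin 2) ℂ) (r : ℝ) :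
    lin N ((r : ℂ) • P) = r * lin N P := by
  unfold lin
  rw [Matrix.smul_mul, Matrix.trace_smul, smul_eq_mul, Complex.re_ofReal_mul]

private lemma lin_add (N P Q : Matrix (Fin 2) (Fin 2) ℂ) : lin N (P + Q) = lin N P + lin N Q := by
  unfold lin
  rw [Matrix.add_mul, Matrix.trace_add, Complex.add_re]

private lemma kk_ends (x y : H3) : kk x y 0 = 1 ∧ kk x y 1 = 1 := by
  have hx := h3_eq x
  have hy := h3_eq y
  constructor
  · have : Dd x y 0 = 1 := by
      unfold Dd
      linear_combination hx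
    unfold kk
    rw [this]
    simp
  · have : Dd x y 1 = 1 := by
      unfold Dd
      linear_combination hy
    unfold kk
    rw [this]
    simp

theorem exists_seg (x y : H3) : ∃ γ, IsSeg γ x y := by
  refine ⟨fun s => ⟨(kk x y (cl s) : ℂ) • M x y (cl s), seg_mem x y (cl0 s) (cl1 s)⟩, ?_, ?_, ?_, ?_⟩
  · apply Continuous.continuousOn
    apply Continuous.subtype_mk
    have hcl : Continuous cl := by
      unfold cl
      fun_prop
    have hk : Continuous (fun s => kk x y (cl s)) := by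
      unfold kk
      apply Continuous.div continuous_const
      · exact Real.continuous_sqrt.comp ((Dd_cont x y).comp hcl)
      · intro s
        have := Dd_pos x y (cl0 s) (cl1 s)
        have h2 : 0 < Real.sqrt (Dd x y (cl s)) := Real.sqrt_pos.2 (by linarith)
        exact h2.ne'
    exact (Complex.continuous_ofReal.comp hk).smul ((M_cont x y).comp hcl)
  · apply Subtype.ext
    show (kk x y (cl 0) : ℂ) • M x y (cl 0) = x.1
    rw [cl_eq ⟨le_rfl, zero_le_one⟩, (kk_ends x y).1]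
    unfold M
    simp
  · apply Subtype.ext
    show (kk x y (cl 1) : ℂ) • M x y (cl 1) = y.1
    rw [cl_eq ⟨zero_le_one, le_rfl⟩, (kk_ends x y).2]
    unfold M
    simp
  · intro s hs
    refine ⟨kk x y s, kk_pos x y hs.1 hs.2, ?_⟩
    intro N
    show lin N ((kk x y (cl s) : ℂ) • M x y (cl s)) = _
    rw [cl_eq hs, lin_smul]
    unfold M
    rw [lin_add, lin_smul, lin_smul]

theorem IsSeg.mem_iff {γ : ℝ → H3} {x y : H3} (h : IsSeg γ x y) {s : ℝ}
    (hs : s ∈ Set.Icc (0 : ℝ) 1) (N : Matrix (Fin 2) (Fin 2) ℂ) :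
    γ s ∈ plane N ↔ (1 - s) * lin N x.1 + s * lin N y.1 = 0 := by
  obtain ⟨k, hk, hN⟩ := h.2.2.2 s hs
  show lin N (γ s).1 = 0 ↔ _
  rw [hN N, mul_eq_zero]
  constructor
  · rintro (h1 | h1)
    · exact (hk.ne' h1).elim
    · exact h1
  · exact Or.inr

end SXP
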