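import Pool.Agent.SXP.GSeg

/-! Project SXP, module SXP-GSep: algebra of the relation of being separated by a plane; a segment
from one side to the other meets the plane. -/

namespace SXP

private theorem par {p q : ℝ} (h : p * q < 0) :
    ∃ s ∈ Set.Ioo (0 : ℝ) 1, (1 - s) * p + s * q = 0 := by
  have hpq : p - q ≠ 0 := by
    intro h0
    have h1 : p = q := by linarith
    rw [h1] at h
    nlinarith [mul_self_nonneg q]
  refine ⟨p / (p - q), ⟨?_, ?_⟩, ?_⟩
  · rcases mul_neg_iff.1 h with ⟨h1, h2⟩ | ⟨h1, h2⟩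
    · exact div_pos h1 (by linarith)
    · exact div_pos_of_neg_of_neg h1 (by linarith)
  · rcases mul_neg_iff.1 h with ⟨h1, h2⟩ | ⟨h1, h2⟩
    · rw [div_lt_one (by linarith)]
      linarith
    · rw [div_lt_one_of_neg (by linarith)]
      linarith
  · field_simp
    ring

private theorem lin_neg' (N P : Matrix (Fin 2) (Fin 2) ℂ) : lin (-N) P = - lin N P := by
  unfold lin
  rw [mul_neg, Matrix.trace_neg, Complex.neg_re]

private theorem sign_one {N N' : Matrix (Fin 2) (Fin 2) ℂ} (h : plane N = plane N') {x y : H3}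
    (hx : x ∉ plane N') (hy : y ∉ plane N') (hlt : lin N x.1 * lin N y.1 < 0) :
    lin N' x.1 * lin N' y.1 < 0 := by
  have hx' : lin N' x.1 ≠ 0 := hx
  have hy' : lin N' y.1 ≠ 0 := hy
  by_contra hcon
  have hpos : 0 < lin N' x.1 * lin N' y.1 :=
    lt_of_le_of_ne (not_lt.1 hcon) (mul_ne_zero hx' hy').symm
  obtain ⟨γ, hγ⟩ := exists_seg x y
  obtain ⟨s, hs, h3⟩ := par hlt
  have hs' : s ∈ Set.Icc (0 : ℝ) 1 := ⟨hs.1.le, hs.2.le⟩
  have h4 : γ s ∈ plane N' := by
    rw [← h, hγ.mem_iff hs']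
    exact h3
  rw [hγ.mem_iff hs'] at h4
  have h5 : (1 - s) * (lin N' x.1 * lin N' x.1) + s * (lin N' x.1 * lin N' y.1) = 0 := by
    have h6 : ((1 - s) * lin N' x.1 + s * lin N' y.1) * lin N' x.1 = 0 := by rw [h4, zero_mul]
    linarith
  have h7 : 0 < s * (lin N' x.1 * lin N' y.1) := mul_pos hs.1 hpos
  have h8 : 0 ≤ (1 - s) * (lin N' x.1 * lin N' x.1) :=
    mul_nonneg (by linarith [hs.2]) (mul_self_nonneg _)
  linarith

theorem plane_sign {N N' : Matrix (Fin 2) (Fin 2) ℂ} (h : plane N = plane N') {x y : H3}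
    (hx : x ∉ plane N) (hy : y ∉ plane N) :
    lin N x.1 * lin N y.1 < 0 ↔ lin N' x.1 * lin N' y.1 < 0 := by
  have hx' : x ∉ plane N' := by rw [← h]; exact hx
  have hy' : y ∉ plane N' := by rw [← h]; exact hy
  exact ⟨sign_one h hx' hy', sign_one h.symm hx hy⟩

theorem sep_iff {N : Matrix (Fin 2) (Fin 2) ℂ} (hN : IsNormal N) {x y : H3} :
    Sep (plane N) x y ↔ lin N x.1 * lin N y.1 < 0 := by
  constructor
  · rintro ⟨N', hN', hS, h1, h2⟩
    have hx : x ∉ plane N' := fun h3 => h1.ne' h3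
    have hy : y ∉ plane N' := fun h3 => h2.ne h3
    exact sign_one hS.symm (by rw [hS]; exact hx) (by rw [hS]; exact hy) (mul_neg_of_pos_of_neg h1 h2)
  · intro h
    rcases mul_neg_iff.1 h with ⟨h1, h2⟩ | ⟨h1, h2⟩
    · exact ⟨N, hN, rfl, h1, h2⟩
    · refine ⟨-N, ⟨hN.1.neg, ?_⟩, ?_, ?_, ?_⟩
      · have h3 : (-N).det = N.det := by
          rw [Matrix.det_fin_two, Matrix.det_fin_two]
          simp
        rw [h3]
        exact hN.2
      · ext P
        show lin N P.1 = 0 ↔ lin (-N) P.1 = 0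
        rw [lin_neg', neg_eq_zero]
      · rw [lin_neg']
        linarith
      · rw [lin_neg']
        linarith

theorem sep_symm {S : Set H3} {x y : H3} (h : Sep S x y) : Sep S y x := by
  obtain ⟨N, hN, hS, h1, h2⟩ := h
  rw [hS, sep_iff hN]
  exact mul_neg_of_neg_of_pos h2 h1

theorem sep_xor {S : Set H3} (hS : IsPlane S) {x y z : H3} (hx : x ∉ S) (hy : y ∉ S)
    (hz : z ∉ S) : Sep S x z ↔ (Sep S x y ↔ ¬ Sep S y z) := by
  obtain ⟨N, hN, rfl⟩ := hS
  have hx' : lin N x.1 ≠ 0 := hx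
  have hy' : lin N y.1 ≠ 0 := hy
  have hz' : lin N z.1 ≠ 0 := hz
  rw [sep_iff hN, sep_iff hN, sep_iff hN]
  rcases lt_or_gt_of_ne hx' with h1 | h1 <;> rcases lt_or_gt_of_ne hy' with h2 | h2 <;>
    rcases lt_or_gt_of_ne hz' with h3 | h3
  · have a1 := mul_pos_of_neg_of_neg h1 h2
    have a2 := mul_pos_of_neg_of_neg h2 h3
    have a3 := mul_pos_of_neg_of_neg h1 h3
    constructor
    · intro h; linarith
    · intro h; exact absurd (h.2 (by linarith)) (by linarith)
  · have a1 := mul_pos_of_neg_of_neg h1 h2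
    have a2 := mul_neg_of_neg_of_pos h2 h3
    have a3 := mul_neg_of_neg_of_pos h1 h3
    constructor
    · intro _
      exact ⟨fun h => by linarith, fun h => absurd a2 h⟩
    · intro _; exact a3
  · have a1 := mul_neg_of_neg_of_pos h1 h2
    have a2 := mul_neg_of_pos_of_neg h2 h3
    have a3 := mul_pos_of_neg_of_neg h1 h3
    constructor
    · intro h; linarith
    · intro h; exact absurd a2 (h.1 a1)
  · have a1 := mul_neg_of_neg_of_pos h1 h2
    have a2 := mul_pos h2 h3
    have a3 := mul_neg_of_neg_of_pos h1 h3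
    constructor
    · intro _
      exact ⟨fun _ h => by linarith, fun _ => a1⟩
    · intro _; exact a3
  · have a1 := mul_neg_of_pos_of_neg h1 h2
    have a2 := mul_pos_of_neg_of_neg h2 h3
    have a3 := mul_neg_of_pos_of_neg h1 h3
    constructor
    · intro _
      exact ⟨fun _ h => by linarith, fun _ => a1⟩
    · intro _; exact a3
  · have a1 := mul_neg_of_pos_of_neg h1 h2
    have a2 := mul_neg_of_neg_of_pos h2 h3
    have a3 := mul_pos h1 h3
    constructor
    · intro h; linarith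
    · intro h; exact absurd a2 (h.1 a1)
  · have a1 := mul_pos h1 h2
    have a2 := mul_neg_of_pos_of_neg h2 h3
    have a3 := mul_neg_of_pos_of_neg h1 h3
    constructor
    · intro _
      exact ⟨fun h => by linarith, fun h => absurd a2 h⟩
    · intro _; exact a3
  · have a1 := mul_pos h1 h2
    have a2 := mul_pos h2 h3
    have a3 := mul_pos h1 h3
    constructor
    · intro h; linarith
    · intro h; exact absurd (h.2 (by linarith)) (by linarith)

theorem sep_crosses {S : Set H3} {x y : H3} (h : Sep S x y) {γ : ℝ → H3} (hγ : IsSeg γ x y) :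
    ∃ s ∈ Set.Ioo (0 : ℝ) 1, γ s ∈ S := by
  obtain ⟨N, hN, hS, h1, h2⟩ := h
  obtain ⟨s, hs, h3⟩ := par (mul_neg_of_pos_of_neg h1 h2)
  refine ⟨s, hs, ?_⟩
  rw [hS, hγ.mem_iff ⟨hs.1.le, hs.2.le⟩]
  exact h3

end SXP
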