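import Pool.Agent.SXP.GSep

/-! Project SXP, module SXP-GStep: finiteness, and crossing the first plane of a segment.

* `fin_sep`: the planes separating `x, y` meet the compact image of a segment; local finiteness.
* `cross_param`: a plane which meets a segment outside its endpoints separates the endpoints and meets the
  segment in one point.
* `step_sep`: the plane with the least parameter on the segment from `x` to `y`, and a point `z` of the
  segment between this parameter and the next one. -/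

namespace SXP

variable {G : Type*} [Group G] {ρ : G →* Matrix.SpecialLinearGroup (Fin 2) ℂ} {P : Set (Set H3)}

theorem fin_sep (hP : TGSurface ρ P) (x y : H3) : {S | S ∈ P ∧ Sep S x y}.Finite := by
  obtain ⟨γ, hγ⟩ := exists_seg x y
  have hK : IsCompact (γ '' Set.Icc 0 1) := isCompact_Icc.image_of_continuousOn hγ.1
  have hfin := hP.lf.finite_nonempty_inter_compact hK
  refine (hfin.image (Subtype.val)).subset ?_
  rintro S ⟨hS, hSep⟩
  obtain ⟨s, hs, hsS⟩ := sep_crosses hSep hγ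
  exact ⟨⟨S, hS⟩, ⟨γ s, hsS, ⟨s, ⟨hs.1.le, hs.2.le⟩, rfl⟩⟩, rfl⟩

theorem cross_param {S : Set H3} (hS : IsPlane S) {x y : H3} (hx : x ∉ S) (hy : y ∉ S)
    {γ : ℝ → H3} (hγ : IsSeg γ x y) {s : ℝ} (hs : s ∈ Set.Icc (0 : ℝ) 1) (h : γ s ∈ S) :
    Sep S x y ∧ ∀ s' ∈ Set.Icc (0 : ℝ) 1, γ s' ∈ S → s' = s := by
  obtain ⟨N, hN, rfl⟩ := hS
  have hA : lin N x.1 ≠ 0 := hx
  have hB : lin N y.1 ≠ 0 := hy
  have h1 := (hγ.mem_iff hs N).1 h
  set A := lin N x.1 with hAdef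
  set B := lin N y.1 with hBdef
  have hs0 : s ≠ 0 := by
    rintro rfl
    apply hA
    linarith
  have hs0' : 0 < s := lt_of_le_of_ne hs.1 (Ne.symm hs0)
  have hs1 : s ≠ 1 := by
    rintro rfl
    apply hB
    linarith
  have hs1' : 0 < 1 - s := by
    have := lt_of_le_of_ne hs.2 hs1
    linarith
  have hAB : A * B < 0 := by
    have h2 : (1 - s) * (A * B) = - (s * (B * B)) := by linear_combination B * h1
    have h3 : 0 < s * (B * B) := mul_pos hs0' (mul_self_pos.2 hB)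
    by_contra hc
    have h4 : 0 ≤ (1 - s) * (A * B) := mul_nonneg hs1'.le (not_lt.1 hc)
    linarith
  refine ⟨(sep_iff hN).2 hAB, ?_⟩
  intro s' hs' h'
  have h2 := (hγ.mem_iff hs' N).1 h'
  have h3 : (s' - s) * (A - B) = 0 := by linear_combination h1 - h2
  rcases mul_eq_zero.1 h3 with h4 | h4
  · linarith
  · exfalso
    have h5 : A = B := by linarith
    rw [h5] at hAB
    exact absurd hAB (not_lt.2 (mul_self_nonneg B))

theorem step_sep (hP : TGSurface ρ P) {x y : H3} (hx : x ∉ ⋃₀ P) (hy : y ∉ ⋃₀ P)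
    (h : ∃ S ∈ P, Sep S x y) :
    ∃ S ∈ P, ∃ z, z ∉ ⋃₀ P ∧ Sep S x y ∧ ∀ S' ∈ P, Sep S' x z ↔ S' = S := by
  obtain ⟨γ, hγ⟩ := exists_seg x y
  have hx' : ∀ S ∈ P, x ∉ S := fun S hS hxS => hx ⟨S, hS, hxS⟩
  have hy' : ∀ S ∈ P, y ∉ S := fun S hS hyS => hy ⟨S, hS, hyS⟩
  have hfin := fin_sep hP x y
  have hex : ∀ S : Set H3, ∃ s : ℝ, S ∈ {S | S ∈ P ∧ Sep S x y} → s ∈ Set.Ioo (0 : ℝ) 1 ∧ γ s ∈ S := by
    intro S
    by_cases hS : S ∈ {S | S ∈ P ∧ Sep S x y}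
    · obtain ⟨s, hs, hs'⟩ := sep_crosses hS.2 hγ
      exact ⟨s, fun _ => ⟨hs, hs'⟩⟩
    · exact ⟨0, fun h => absurd h hS⟩
  choose p hp using hex
  obtain ⟨S₀, hS₀, hS₀'⟩ := h
  obtain ⟨S₁, hS₁, hmin⟩ := Set.exists_min_image {S | S ∈ P ∧ Sep S x y} p hfin ⟨S₀, hS₀, hS₀'⟩
  have hp1 := hp S₁ hS₁
  -- the second parameter
  obtain ⟨s₂, hs12, hs21, hs2⟩ : ∃ s₂ : ℝ, p S₁ < s₂ ∧ s₂ ≤ 1 ∧
      ∀ S ∈ {S | S ∈ P ∧ Sep S x y}, S ≠ S₁ → s₂ ≤ p S := by
    by_cases hne : ({S | S ∈ P ∧ Sep S x y} \ {S₁}).Nonempty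
    · obtain ⟨S₂, hS₂, hmin2⟩ := Set.exists_min_image ({S | S ∈ P ∧ Sep S x y} \ {S₁}) p
        (hfin.subset Set.sdiff_subset) hne
      refine ⟨p S₂, ?_, (hp S₂ hS₂.1).1.2.le, fun S hS hSne => hmin2 S ⟨hS, hSne⟩⟩
      refine lt_of_le_of_ne (hmin S₂ hS₂.1) ?_
      intro heq
      have h1 := (hp S₂ hS₂.1).2
      rw [← heq] at h1
      have hne2 : S₁ ≠ S₂ := fun h2 => hS₂.2 h2.symm
      exact Set.disjoint_left.1 (hP.disj S₁ hS₁.1 S₂ hS₂.1.1 hne2) hp1.2 h1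
    · refine ⟨1, hp1.1.2, le_rfl, ?_⟩
      intro S hS hSne
      exact absurd ⟨S, hS, hSne⟩ hne
  set m : ℝ := (p S₁ + s₂) / 2 with hm
  have hm1 : p S₁ < m := by rw [hm]; linarith
  have hm2 : m < s₂ := by rw [hm]; linarith
  have hm0 : 0 < m := lt_trans hp1.1.1 hm1
  have hm3 : m < 1 := lt_of_lt_of_le hm2 hs21
  have hmI : m ∈ Set.Icc (0 : ℝ) 1 := ⟨hm0.le, hm3.le⟩
  have hzP : ∀ S ∈ P, γ m ∉ S := by
    intro S hS hmem
    obtain ⟨h1, h2⟩ := cross_param (hP.planes S hS) (hx' S hS) (hy' S hS) hγ hmI hmem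
    have hSF : S ∈ {S | S ∈ P ∧ Sep S x y} := ⟨hS, h1⟩
    obtain ⟨h3, h4⟩ := hp S hSF
    have h5 := h2 (p S) ⟨h3.1.le, h3.2.le⟩ h4
    by_cases hSS : S = S₁
    · rw [hSS] at h5
      exact absurd h5 (ne_of_lt hm1)
    · have h6 := hs2 S hSF hSS
      linarith
  refine ⟨S₁, hS₁.1, γ m, ?_, hS₁.2, ?_⟩
  · rintro ⟨S, hS, hmem⟩
    exact hzP S hS hmem
  intro S hS
  obtain ⟨N, hN, hSN⟩ := hP.planes S hS
  have hA : lin N x.1 ≠ 0 := by
    have := hx' S hS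
    rw [hSN] at this
    exact this
  obtain ⟨k, hk, hkl⟩ := hγ.2.2.2 m hmI
  have hz : lin N (γ m).1 = k * ((1 - m) * lin N x.1 + m * lin N y.1) := hkl N
  have hiff : Sep S x (γ m) ↔
      lin N x.1 * ((1 - m) * lin N x.1 + m * lin N y.1) < 0 := by
    rw [hSN, sep_iff hN, hz]
    have e1 : lin N x.1 * (k * ((1 - m) * lin N x.1 + m * lin N y.1)) =
        k * (lin N x.1 * ((1 - m) * lin N x.1 + m * lin N y.1)) := by ring
    rw [e1, mul_neg_iff]
    constructor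
    · rintro (h | h)
      · exact h.2
      · exact absurd h.1 (not_lt.2 hk.le)
    · intro h
      exact Or.inl ⟨hk, h⟩
  rw [hiff]
  have hA2 : 0 < lin N x.1 * lin N x.1 := mul_self_pos.2 hA
  -- the value at a plane with a parameter
  have hpar : S ∈ {S | S ∈ P ∧ Sep S x y} → p S * (lin N x.1 *
      ((1 - m) * lin N x.1 + m * lin N y.1)) = (p S - m) * (lin N x.1 * lin N x.1) := by
    intro hSF
    obtain ⟨h1, h2⟩ := hp S hSF
    have h2' : γ (p S) ∈ plane N := hSN ▸ h2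
    have h3 := (hγ.mem_iff ⟨h1.1.le, h1.2.le⟩ N).1 h2'
    linear_combination (m * lin N x.1) * h3
  constructor
  · intro hlt
    by_contra hne
    by_cases hSF : S ∈ {S | S ∈ P ∧ Sep S x y}
    · have h1 := hpar hSF
      have h2 := hs2 S hSF hne
      have h3 := (hp S hSF).1.1
      have h4 : 0 ≤ (p S - m) * (lin N x.1 * lin N x.1) := mul_nonneg (by linarith) hA2.le
      have h5 := mul_neg_of_pos_of_neg h3 hlt
      linarith
    · have h1 : ¬ Sep S x y := fun h => hSF ⟨hS, h⟩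
      rw [hSN, sep_iff hN] at h1
      have h2 : 0 ≤ m * (lin N x.1 * lin N y.1) := mul_nonneg hm0.le (not_lt.1 h1)
      have h3 : 0 ≤ (1 - m) * (lin N x.1 * lin N x.1) := mul_nonneg (by linarith) hA2.le
      have h4 : lin N x.1 * ((1 - m) * lin N x.1 + m * lin N y.1) =
          (1 - m) * (lin N x.1 * lin N x.1) + m * (lin N x.1 * lin N y.1) := by ring
      linarith
  · intro hSS
    have hSF : S ∈ {S | S ∈ P ∧ Sep S x y} := by rw [hSS]; exact hS₁
    have h1 := hpar hSF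
    have h2 : p S < m := by rw [hSS]; exact hm1
    have h3 := (hp S hSF).1.1
    have h4 : (p S - m) * (lin N x.1 * lin N x.1) < 0 := mul_neg_of_neg_of_pos (by linarith) hA2
    by_contra hc
    have h5 := mul_nonneg h3.le (not_lt.1 hc)
    linarith

end SXP
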