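import Mathlib

/-! Project SXP, module SXP-HCnt (Mathlib only): a periodic discrete subset of the line has the same
number of points in every period.

wlog `a ≤ b`, `a < b`.  `E ∩ Ioo a (b + δ)` is the disjoint union of `E ∩ Ioo a b` and
`E ∩ Ioo b (b + δ)` (as `b ∉ E`), and of `E ∩ Ioo a (a + δ)` and `E ∩ Ioo (a + δ) (b + δ)` (`a + δ ∉ E` by
`hE`).  `E ∩ Ioo (a + δ) (b + δ)` is the image of `E ∩ Ioo a b` under `r ↦ r + δ`
(`Function.Injective.encard_image`).  `Set.encard_union_eq`; everything is finite, so one can cancel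
(e.g. pass to `ncard` with `Set.Finite.cast_ncard_eq`). -/

namespace SXP

private theorem count_aux (E : Set ℝ) (δ : ℝ) (hδ : 0 < δ) (hE : ∀ r, r ∈ E ↔ r + δ ∈ E)
    (hfin : ∀ a b : ℝ, (E ∩ Set.Ioo a b).Finite) {a b : ℝ} (hab : a < b) (ha : a ∉ E)
    (hb : b ∉ E) :
    (E ∩ Set.Ioo a (a + δ)).ncard = (E ∩ Set.Ioo b (b + δ)).ncard := by
  have e1 : E ∩ Set.Ioo a (b + δ) = (E ∩ Set.Ioo a b) ∪ (E ∩ Set.Ioo b (b + δ)) := by
    ext r
    constructor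
    · rintro ⟨h1, h2, h3⟩
      rcases lt_trichotomy r b with h4 | h4 | h4
      · exact Or.inl ⟨h1, h2, h4⟩
      · exact absurd (h4 ▸ h1) hb
      · exact Or.inr ⟨h1, h4, h3⟩
    · rintro (⟨h1, h2, h3⟩ | ⟨h1, h2, h3⟩)
      · exact ⟨h1, h2, by linarith⟩
      · exact ⟨h1, by linarith, h3⟩
  have had : a + δ ∉ E := fun h => ha ((hE a).2 h)
  have e2 : E ∩ Set.Ioo a (b + δ) = (E ∩ Set.Ioo a (a + δ)) ∪ (E ∩ Set.Ioo (a + δ) (b + δ)) := by
    ext r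
    constructor
    · rintro ⟨h1, h2, h3⟩
      rcases lt_trichotomy r (a + δ) with h4 | h4 | h4
      · exact Or.inl ⟨h1, h2, h4⟩
      · exact absurd (h4 ▸ h1) had
      · exact Or.inr ⟨h1, h4, h3⟩
    · rintro (⟨h1, h2, h3⟩ | ⟨h1, h2, h3⟩)
      · exact ⟨h1, h2, by linarith⟩
      · exact ⟨h1, by linarith, h3⟩
  have d1 : Disjoint (E ∩ Set.Ioo a b) (E ∩ Set.Ioo b (b + δ)) := by
    rw [Set.disjoint_left]
    rintro r ⟨_, _, h1⟩ ⟨_, h2, _⟩
    linarith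
  have d2 : Disjoint (E ∩ Set.Ioo a (a + δ)) (E ∩ Set.Ioo (a + δ) (b + δ)) := by
    rw [Set.disjoint_left]
    rintro r ⟨_, _, h1⟩ ⟨_, h2, _⟩
    linarith
  have e3 : E ∩ Set.Ioo (a + δ) (b + δ) = (fun r => r + δ) '' (E ∩ Set.Ioo a b) := by
    ext r
    constructor
    · rintro ⟨h1, h2, h3⟩
      refine ⟨r - δ, ⟨?_, by linarith, by linarith⟩, by ring⟩
      rw [hE]
      rw [sub_add_cancel]
      exact h1
    · rintro ⟨r, ⟨h1, h2, h3⟩, rfl⟩
      exact ⟨(hE r).1 h1, by simpa using h2, by simpa using h3⟩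
  have n1 := Set.ncard_union_eq d1 (hfin _ _) (hfin _ _)
  have n2 := Set.ncard_union_eq d2 (hfin _ _) (hfin _ _)
  have n3 : (E ∩ Set.Ioo (a + δ) (b + δ)).ncard = (E ∩ Set.Ioo a b).ncard := by
    rw [e3]
    exact Set.ncard_image_of_injective _ (add_left_injective δ)
  rw [← e1] at n1
  rw [← e2] at n2
  omega

theorem count_shift (E : Set ℝ) (δ : ℝ) (hδ : 0 < δ) (hE : ∀ r, r ∈ E ↔ r + δ ∈ E)
    (hfin : ∀ a b : ℝ, (E ∩ Set.Ioo a b).Finite) {a b : ℝ} (ha : a ∉ E) (hb : b ∉ E) :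
    (E ∩ Set.Ioo a (a + δ)).encard = (E ∩ Set.Ioo b (b + δ)).encard := by
  rw [← (hfin a (a + δ)).cast_ncard_eq, ← (hfin b (b + δ)).cast_ncard_eq]
  rcases lt_trichotomy a b with h | h | h
  · rw [count_aux E δ hδ hE hfin h ha hb]
  · rw [h]
  · rw [count_aux E δ hδ hE hfin h hb ha]

end SXP
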