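import Pool.Agent.SXP.GStep

/-! Project SXP, module SXP-HCol: two points which are not separated by a plane of `P` are in the same
component of the complement.  The segment between them is connected and misses all planes. -/

namespace SXP

variable {G : Type*} [Group G] {ρ : G →* Matrix.SpecialLinearGroup (Fin 2) ℂ} {P : Set (Set H3)}

theorem col_reg (hP : TGSurface ρ P) {U V : Set H3} (hU : IsOpen U) (hV : IsOpen V)
    (hd : Disjoint U V) (hUV : U ∪ V = (⋃₀ P)ᶜ) {x y : H3} (hx : x ∉ ⋃₀ P) (hy : y ∉ ⋃₀ P)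
    (h : ∀ S ∈ P, ¬ Sep S x y) : x ∈ U ↔ y ∈ U := by
  obtain ⟨γ, hγ⟩ := exists_seg x y
  have hK : IsPreconnected (γ '' Set.Icc (0 : ℝ) 1) := isPreconnected_Icc.image γ hγ.1
  have hsub : γ '' Set.Icc (0 : ℝ) 1 ⊆ U ∪ V := by
    rw [hUV]
    rintro z ⟨s, hs, rfl⟩ ⟨S, hS, hz⟩
    exact h S hS (cross_param (hP.planes S hS) (fun hx' => hx ⟨S, hS, hx'⟩)
      (fun hy' => hy ⟨S, hS, hy'⟩) hγ hs hz).1
  have hxK : x ∈ γ '' Set.Icc (0 : ℝ) 1 := ⟨0, ⟨le_refl _, zero_le_one⟩, hγ.2.1⟩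
  have hyK : y ∈ γ '' Set.Icc (0 : ℝ) 1 := ⟨1, ⟨zero_le_one, le_refl _⟩, hγ.2.2.1⟩
  have hdis := Set.disjoint_left.1 hd
  have hemp : (γ '' Set.Icc (0 : ℝ) 1) ∩ (U ∩ V) = ∅ := by
    rw [hd.inter_eq, Set.inter_empty]
  rcases isPreconnected_iff_subset_of_disjoint.1 hK U V hU hV hsub hemp with h1 | h1
  · exact ⟨fun _ => h1 hyK, fun _ => h1 hxK⟩
  · exact ⟨fun h2 => absurd (h1 hxK) (hdis h2), fun h2 => absurd (h1 hyK) (hdis h2)⟩

end SXP
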