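import Pool.Agent.SXP.HOv
import Pool.Agent.SXP.HCnt
import Pool.Agent.SXP.GStep

/-! Project SXP, module SXP-HCount: the number of vertical planes separating `x` from `μ x` does not
depend on `x`. -/

namespace SXP

variable {G : Type*} [Group G] {ρ : G →* Matrix.SpecialLinearGroup (Fin 2) ℂ} {μ lam : G}
  {m l : ℂ} {P : Set (Set H3)}

/-- the transversal coordinate -/
private noncomputable def hcu (n : ℂ) (x : H3) : ℝ := (x.1 0 1 * n).re / (x.1 1 1).re

/-- the normal of a vertical plane -/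
private noncomputable def hcN (n : ℂ) (r : ℝ) : Matrix (Fin 2) (Fin 2) ℂ :=
  !![0, star n; n, ((-2 * r : ℝ) : ℂ)]

/-- a level set of the transversal coordinate -/
private def hcL (n : ℂ) (r : ℝ) : Set H3 := {x | hcu n x = r}

private theorem hc_facts (x : H3) : x.1 1 0 = star (x.1 0 1) ∧ (x.1 1 1).im = 0 ∧
    0 < (x.1 1 1).re := by
  obtain ⟨P, hP, h0, hd⟩ := x
  have e10 : P 1 0 = star (P 0 1) := by
    have := congrFun (congrFun hP 1) 0
    rw [← this]
    rfl
  have e00 : (P 0 0).im = 0 := by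
    have := congrArg Complex.im (congrFun (congrFun hP 0) 0)
    simp [Matrix.conjTranspose_apply] at this
    linarith
  have e11 : (P 1 1).im = 0 := by
    have := congrArg Complex.im (congrFun (congrFun hP 1) 1)
    simp [Matrix.conjTranspose_apply] at this
    linarith
  refine ⟨e10, e11, ?_⟩
  rw [Matrix.det_fin_two] at hd
  have hdr := congrArg Complex.re hd
  rw [e10] at hdr
  simp [e00, e11] at hdr
  have hpos : 0 < (P 0 0).re * (P 1 1).re := by nlinarith
  exact (pos_iff_pos_of_mul_pos hpos).mp h0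

private theorem hc_lin {N : Matrix (Fin 2) (Fin 2) ℂ} (hN : N.IsHermitian) (h0 : N 0 0 = 0)
    (x : H3) : lin N x.1 = 2 * (x.1 0 1 * N 1 0).re + (x.1 1 1).re * (N 1 1).re := by
  obtain ⟨h1, h2, h3⟩ := hc_facts x
  have e01 : N 0 1 = star (N 1 0) := by
    have := congrFun (congrFun hN 0) 1
    rw [← this]
    rfl
  unfold lin
  rw [Matrix.trace_fin_two, Matrix.mul_apply, Matrix.mul_apply, Fin.sum_univ_two,
    Fin.sum_univ_two, h0, e01, h1]
  simp only [Complex.add_re, Complex.mul_re, Complex.star_def, Complex.conj_re, Complex.conj_im,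
    h2, mul_zero, zero_mul, sub_zero, Complex.zero_re]
  ring

private theorem hcN_normal {n : ℂ} (hn : n ≠ 0) (r : ℝ) : IsNormal (hcN n r) := by
  constructor
  · ext i j
    fin_cases i <;> fin_cases j <;> simp [hcN, Matrix.conjTranspose_apply]
  · rw [Matrix.det_fin_two]
    have h1 : 0 < n.re * n.re + n.im * n.im := by
      have := Complex.normSq_pos.2 hn
      rwa [Complex.normSq_apply] at this
    simp [hcN]
    linarith

private theorem hc_linN (n : ℂ) (hn : n ≠ 0) (r : ℝ) (x : H3) :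
    lin (hcN n r) x.1 = 2 * (x.1 1 1).re * (hcu n x - r) := by
  obtain ⟨h1, h2, h3⟩ := hc_facts x
  rw [hc_lin (hcN_normal hn r).1 rfl x]
  have e1 : (hcN n r) 1 0 = n := rfl
  have e2 : (hcN n r) 1 1 = ((-2 * r : ℝ) : ℂ) := rfl
  have e3 : (x.1 0 1 * n).re = (x.1 1 1).re * hcu n x := by
    unfold hcu
    rw [mul_div_cancel₀ _ h3.ne']
  rw [e1, e2, e3, Complex.ofReal_re]
  ring

private theorem hc_plane {n : ℂ} (hn : n ≠ 0) (r : ℝ) : hcL n r = plane (hcN n r) := by
  ext x
  obtain ⟨h1, h2, h3⟩ := hc_facts x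
  show hcu n x = r ↔ lin (hcN n r) x.1 = 0
  rw [hc_linN n hn]
  constructor
  · intro h
    rw [h, sub_self, mul_zero]
  · intro h
    have h4 : (2 * (x.1 1 1).re) ≠ 0 := by positivity
    exact sub_eq_zero.1 ((mul_eq_zero.1 h).resolve_left h4)

private theorem hc_atInf {n : ℂ} (hn : n ≠ 0) (r : ℝ) : AtInf (hcL n r) :=
  ⟨hcN n r, hcN_normal hn r, hc_plane hn r, rfl⟩

private theorem hc_sep {n : ℂ} (hn : n ≠ 0) (r : ℝ) (x y : H3) :
    Sep (hcL n r) x y ↔ (hcu n x - r) * (hcu n y - r) < 0 := by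
  obtain ⟨_, _, hx⟩ := hc_facts x
  obtain ⟨_, _, hy⟩ := hc_facts y
  rw [hc_plane hn r, sep_iff (hcN_normal hn r), hc_linN n hn, hc_linN n hn]
  have e : 2 * (x.1 1 1).re * (hcu n x - r) * (2 * (y.1 1 1).re * (hcu n y - r)) =
      (4 * ((x.1 1 1).re * (y.1 1 1).re)) * ((hcu n x - r) * (hcu n y - r)) := by ring
  rw [e]
  have h4 : 0 < 4 * ((x.1 1 1).re * (y.1 1 1).re) := by positivity
  constructor
  · intro h
    by_contra hcon
    push Not at hcon
    have := mul_nonneg h4.le hcon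
    linarith
  · intro h
    exact mul_neg_of_pos_of_neg h4 h

/-- the point above `z` at height one -/
private noncomputable def hcR (z : ℂ) : H3 :=
  ⟨!![((Complex.normSq z + 1 : ℝ) : ℂ), z; star z, 1], by
    refine ⟨?_, ?_, ?_⟩
    · ext i j
      fin_cases i <;> fin_cases j <;> simp [Matrix.conjTranspose_apply]
    · have := Complex.normSq_nonneg z
      show 0 < (((Complex.normSq z + 1 : ℝ) : ℂ)).re
      rw [Complex.ofReal_re]
      linarith
    · rw [Matrix.det_fin_two]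
      show ((Complex.normSq z + 1 : ℝ) : ℂ) * 1 - z * star z = 1
      rw [Complex.star_def, Complex.mul_conj]
      push_cast
      ring⟩

private theorem hcR_u (n z : ℂ) : hcu n (hcR z) = (z * n).re := by
  unfold hcu
  have e1 : (hcR z).1 0 1 = z := rfl
  have e2 : (hcR z).1 1 1 = 1 := rfl
  rw [e1, e2, Complex.one_re, div_one]

private theorem hc_pt {n : ℂ} (hn : n ≠ 0) (r : ℝ) : ∃ x : H3, hcu n x = r := by
  have h1 : 0 < n.re * n.re + n.im * n.im := by
    have := Complex.normSq_pos.2 hn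
    rwa [Complex.normSq_apply] at this
  refine ⟨hcR (((r / (n.re * n.re + n.im * n.im) : ℝ) : ℂ) * star n), ?_⟩
  rw [hcR_u]
  simp only [Complex.mul_re, Complex.mul_im, Complex.star_def, Complex.conj_re, Complex.conj_im,
    Complex.ofReal_re, Complex.ofReal_im]
  have h2 := div_mul_cancel₀ r h1.ne'
  linear_combination h2

private theorem hcL_inj {n : ℂ} (hn : n ≠ 0) : Function.Injective (hcL n) := by
  intro r r' h
  obtain ⟨x, hx⟩ := hc_pt hn r
  have h1 : x ∈ hcL n r := hx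
  rw [h] at h1
  have h2 : hcu n x = r' := h1
  rw [← hx, h2]

private theorem hc_base {N : Matrix (Fin 2) (Fin 2) ℂ} (hN : N.IsHermitian) (h0 : N 0 0 = 0) :
    plane N = hcL (N 1 0) (-(N 1 1).re / 2) := by
  ext x
  obtain ⟨_, _, hx⟩ := hc_facts x
  show lin N x.1 = 0 ↔ hcu (N 1 0) x = -(N 1 1).re / 2
  rw [hc_lin hN h0]
  unfold hcu
  rw [div_eq_iff hx.ne']
  constructor
  · intro h
    linarith
  · intro h
    rw [h]
    ring

private theorem hc_ne {N : Matrix (Fin 2) (Fin 2) ℂ} (hN : IsNormal N) (h0 : N 0 0 = 0) :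
    N 1 0 ≠ 0 := by
  intro h
  have h1 := hN.2
  rw [Matrix.det_fin_two, h0, h, zero_mul, mul_zero, sub_zero, Complex.zero_re] at h1
  exact lt_irrefl _ h1

private theorem hc_vert {n : ℂ} (hn : n ≠ 0) {r0 : ℝ} {S : Set H3}
    (hd : Disjoint (hcL n r0) S) (hS : AtInf S) : ∃ r, S = hcL n r := by
  obtain ⟨N, hN, hSN, h0⟩ := hS
  have hN1 := hc_ne hN h0
  rw [hSN, hc_base hN.1 h0] at hd ⊢
  obtain ⟨n1, hn1⟩ : ∃ n1, n1 = N 1 0 := ⟨_, rfl⟩
  obtain ⟨r1, hr1⟩ : ∃ r1, r1 = -(N 1 1).re / 2 := ⟨_, rfl⟩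
  rw [← hn1, ← hr1] at hd ⊢
  rw [← hn1] at hN1
  have hsq : 0 < n.re * n.re + n.im * n.im := by
    have := Complex.normSq_pos.2 hn
    rwa [Complex.normSq_apply] at this
  by_cases hΔ : n.im * n1.re - n.re * n1.im = 0
  · obtain ⟨t, ht⟩ : ∃ t : ℝ, t = (n.re * n1.re + n.im * n1.im) / (n.re * n.re + n.im * n.im) :=
      ⟨_, rfl⟩
    have ht' : t * (n.re * n.re + n.im * n.im) = n.re * n1.re + n.im * n1.im := by
      rw [ht]
      exact div_mul_cancel₀ _ hsq.ne'
    have e : n1 = (t : ℂ) * n := by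
      apply Complex.ext
      · simp only [Complex.mul_re, Complex.ofReal_re, Complex.ofReal_im]
        apply mul_right_cancel₀ hsq.ne'
        linear_combination n.im * hΔ - n.re * ht'
      · simp only [Complex.mul_im, Complex.ofReal_re, Complex.ofReal_im]
        apply mul_right_cancel₀ hsq.ne'
        linear_combination -n.re * hΔ - n.im * ht'
    have ht0 : t ≠ 0 := by
      intro h
      rw [h] at e
      apply hN1
      rw [e]
      simp
    refine ⟨r1 / t, ?_⟩
    ext x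
    show hcu n1 x = r1 ↔ hcu n x = r1 / t
    have e2 : hcu n1 x = t * hcu n x := by
      unfold hcu
      rw [e]
      have e3 : x.1 0 1 * ((t : ℂ) * n) = (t : ℂ) * (x.1 0 1 * n) := by ring
      rw [e3, Complex.re_ofReal_mul, mul_div_assoc]
    rw [e2, eq_div_iff ht0, mul_comm]
  · exfalso
    obtain ⟨z, hz⟩ : ∃ z : ℂ, z = ⟨(-r0 * n1.im + n.im * r1) / (n.im * n1.re - n.re * n1.im),
      (n.re * r1 - n1.re * r0) / (n.im * n1.re - n.re * n1.im)⟩ := ⟨_, rfl⟩
    have h1 : hcR z ∈ hcL n r0 := by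
      show hcu n (hcR z) = r0
      rw [hcR_u, hz, Complex.mul_re]
      simp only
      rw [div_mul_eq_mul_div, div_mul_eq_mul_div, ← sub_div, div_eq_iff hΔ]
      ring
    have h2 : hcR z ∈ hcL n1 r1 := by
      show hcu n1 (hcR z) = r1
      rw [hcR_u, hz, Complex.mul_re]
      simp only
      rw [div_mul_eq_mul_div, div_mul_eq_mul_div, ← sub_div, div_eq_iff hΔ]
      ring
    exact (Set.disjoint_left.1 hd) h1 h2

private theorem hc_entry (A X : Matrix (Fin 2) (Fin 2) ℂ) (i j : Fin 2) :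
    (A * X * A.conjTranspose) i j = (A i 0 * X 0 0 + A i 1 * X 1 0) * star (A j 0) +
      (A i 0 * X 0 1 + A i 1 * X 1 1) * star (A j 1) := by
  rw [Matrix.mul_apply, Fin.sum_univ_two, Matrix.mul_apply, Matrix.mul_apply, Fin.sum_univ_two,
    Fin.sum_univ_two]
  rfl

private theorem hc_act (hc : TorusCusp ρ μ lam m l) (n : ℂ) (x : H3) :
    hcu n (act (ρ μ) x) = hcu n x + (m * n).re := by
  obtain ⟨h1, h2, h3⟩ := hc_facts x
  have key : (act (ρ μ) x).1 0 1 = x.1 0 1 + m * x.1 1 1 ∧ (act (ρ μ) x).1 1 1 = x.1 1 1 := by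
    have e : (act (ρ μ) x).1 = (ρ μ).1 * x.1 * (ρ μ).1.conjTranspose := rfl
    rw [e]
    rw [hc_entry, hc_entry]
    rcases hc.hμ with hμ | hμ
    · have a00 : (ρ μ).1 0 0 = 1 := by rw [hμ]; rfl
      have a01 : (ρ μ).1 0 1 = m := by rw [hμ]; rfl
      have a10 : (ρ μ).1 1 0 = 0 := by rw [hμ]; rfl
      have a11 : (ρ μ).1 1 1 = 1 := by rw [hμ]; rfl
      rw [a00, a01, a10, a11, star_zero, star_one]
      constructor <;> ring
    · have a00 : (ρ μ).1 0 0 = -1 := by rw [hμ]; rfl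
      have a01 : (ρ μ).1 0 1 = -m := by rw [hμ]; rfl
      have a10 : (ρ μ).1 1 0 = -0 := by rw [hμ]; rfl
      have a11 : (ρ μ).1 1 1 = -1 := by rw [hμ]; rfl
      rw [a00, a01, a10, a11, neg_zero, star_zero, star_neg, star_one]
      constructor <;> ring
  unfold hcu
  rw [key.1, key.2]
  have e2 : ((x.1 0 1 + m * x.1 1 1) * n).re = (x.1 0 1 * n).re + (m * n).re * (x.1 1 1).re := by
    simp only [Complex.mul_re, Complex.add_re, Complex.add_im, Complex.mul_im, h2]
    ring
  rw [e2, add_div, mul_div_cancel_right₀ _ h3.ne']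

private theorem hc_between {a δ r : ℝ} : (a - r) * (a + δ - r) < 0 ↔
    (a < r ∧ r < a + δ) ∨ (a + δ < r ∧ r < a) := by
  rw [mul_neg_iff]
  constructor
  · rintro (⟨h1, h2⟩ | ⟨h1, h2⟩)
    · right
      constructor <;> linarith
    · left
      constructor <;> linarith
  · rintro (⟨h1, h2⟩ | ⟨h1, h2⟩)
    · right
      constructor <;> linarith
    · left
      constructor <;> linarith

theorem crossNum_const (hc : TorusCusp ρ μ lam m l) (hP : TGSurface ρ P) {x y : H3}
    (hx : x ∉ ⋃₀ P) (hy : y ∉ ⋃₀ P) : crossNum ρ P μ x = crossNum ρ P μ y := by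
  by_cases hex : ∃ S ∈ P, AtInf S
  swap
  · push Not at hex
    have h1 : ∀ z : H3, {S | S ∈ P ∧ AtInf S ∧ Sep S z (act (ρ μ) z)} = ∅ := by
      intro z
      ext S
      simp only [Set.mem_ofPred_eq, Set.mem_empty_iff_false, iff_false]
      rintro ⟨h2, h3, -⟩
      exact hex S h2 h3
    unfold crossNum
    rw [h1, h1]
  obtain ⟨S0, hS0, N0, hN0, hSN0, h00⟩ := hex
  obtain ⟨n, hnd⟩ : ∃ n, n = N0 1 0 := ⟨_, rfl⟩
  have hn : n ≠ 0 := by
    rw [hnd]
    exact hc_ne hN0 h00
  obtain ⟨r0, hr0⟩ : ∃ r0, r0 = -(N0 1 1).re / 2 := ⟨_, rfl⟩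
  have hL0 : S0 = hcL n r0 := by
    rw [hSN0, hc_base hN0.1 h00, ← hnd, ← hr0]
  have hvert : ∀ S ∈ P, AtInf S → ∃ r, S = hcL n r := by
    intro S hS hS2
    by_cases h : S0 = S
    · exact ⟨r0, by rw [← h, hL0]⟩
    · have hd := hP.disj S0 hS0 S hS h
      rw [hL0] at hd
      exact hc_vert hn hd hS2
  obtain ⟨δ, hδ⟩ : ∃ δ : ℝ, δ = (m * n).re := ⟨_, rfl⟩
  have hact : ∀ z : H3, hcu n (act (ρ μ) z) = hcu n z + δ := by
    intro z
    rw [hδ]
    exact hc_act hc n z
  have hback : ∀ z : H3, act (ρ μ) (act (ρ μ⁻¹) z) = z := by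
    intro z
    rw [← act_mul, ← map_mul, mul_inv_cancel, map_one, act_one]
  have hback2 : ∀ z : H3, act (ρ μ⁻¹) (act (ρ μ) z) = z := by
    intro z
    rw [← act_mul, ← map_mul, inv_mul_cancel, map_one, act_one]
  have himg : ∀ r, act (ρ μ) '' hcL n r = hcL n (r + δ) := by
    intro r
    ext z
    constructor
    · rintro ⟨w, hw, rfl⟩
      show hcu n (act (ρ μ) w) = r + δ
      rw [hact]
      have : hcu n w = r := hw
      rw [this]
    · intro hz
      refine ⟨act (ρ μ⁻¹) z, ?_, hback z⟩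
      show hcu n (act (ρ μ⁻¹) z) = r
      have h1 := hact (act (ρ μ⁻¹) z)
      rw [hback] at h1
      have h2 : hcu n z = r + δ := hz
      linarith
  obtain ⟨E, hEd⟩ : ∃ E : Set ℝ, E = {r | hcL n r ∈ P} := ⟨_, rfl⟩
  have hE : ∀ r, r ∈ E ↔ r + δ ∈ E := by
    intro r
    rw [hEd]
    show hcL n r ∈ P ↔ hcL n (r + δ) ∈ P
    constructor
    · intro h
      rw [← himg]
      exact hP.inv μ _ h
    · intro h
      have h1 := hP.inv μ⁻¹ _ h
      rw [← himg, Set.image_image] at h1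
      simp only [hback2, Set.image_id'] at h1
      exact h1
  have hfin : ∀ a b : ℝ, (E ∩ Set.Ioo a b).Finite := by
    intro a b
    obtain ⟨xa, hxa⟩ := hc_pt hn a
    obtain ⟨xb, hxb⟩ := hc_pt hn b
    refine Set.Finite.of_finite_image (f := hcL n) ((fin_sep hP xa xb).subset ?_)
      (hcL_inj hn).injOn
    rintro S ⟨r, ⟨hr, hra, hrb⟩, rfl⟩
    rw [hEd] at hr
    refine ⟨hr, ?_⟩
    rw [hc_sep hn, hxa, hxb]
    exact mul_neg_of_neg_of_pos (by linarith) (by linarith)
  have hcr : ∀ z : H3, crossNum ρ P μ z =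
      (E ∩ {r | (hcu n z - r) * (hcu n z + δ - r) < 0}).encard := by
    intro z
    rw [← (hcL_inj hn).encard_image]
    unfold crossNum
    congr 1
    ext S
    constructor
    · rintro ⟨h1, h2, h3⟩
      obtain ⟨r, hr⟩ := hvert S h1 h2
      subst hr
      rw [hc_sep hn, hact] at h3
      refine ⟨r, ⟨?_, h3⟩, rfl⟩
      rw [hEd]
      exact h1
    · rintro ⟨r, ⟨h1, h2⟩, rfl⟩
      rw [hEd] at h1
      refine ⟨h1, hc_atInf hn r, ?_⟩
      rw [hc_sep hn, hact]
      exact h2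
  have hnot : ∀ z : H3, z ∉ ⋃₀ P → hcu n z ∉ E := by
    intro z hz h
    rw [hEd] at h
    exact hz ⟨_, h, rfl⟩
  rw [hcr, hcr]
  rcases lt_trichotomy δ 0 with h | h | h
  · have h1 : ∀ a : ℝ, {r | (a - r) * (a + δ - r) < 0} = Set.Ioo (a + δ) (a + δ + -δ) := by
      intro a
      ext r
      show (a - r) * (a + δ - r) < 0 ↔ _
      rw [hc_between, Set.mem_Ioo]
      constructor
      · rintro (h2 | h2)
        · exact absurd (h2.1.trans h2.2) (by linarith)
        · exact ⟨h2.1, by linarith [h2.2]⟩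
      · intro h2
        right
        exact ⟨h2.1, by linarith [h2.2]⟩
    rw [h1, h1]
    refine count_shift E (-δ) (by linarith) (fun r => ?_) hfin ?_ ?_
    · have := hE (r + -δ)
      rw [neg_add_cancel_right] at this
      exact this.symm
    · rw [← hE]
      exact hnot x hx
    · rw [← hE]
      exact hnot y hy
  · have h1 : ∀ a : ℝ, {r | (a - r) * (a + δ - r) < 0} = (∅ : Set ℝ) := by
      intro a
      ext r
      simp only [Set.mem_ofPred_eq, Set.mem_empty_iff_false, iff_false]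
      rw [h, add_zero]
      exact not_lt.2 (mul_self_nonneg _)
    rw [h1, h1]
  · have h1 : ∀ a : ℝ, {r | (a - r) * (a + δ - r) < 0} = Set.Ioo a (a + δ) := by
      intro a
      ext r
      show (a - r) * (a + δ - r) < 0 ↔ _
      rw [hc_between, Set.mem_Ioo]
      constructor
      · rintro (h2 | h2)
        · exact h2
        · exact absurd (h2.1.trans h2.2) (by linarith)
      · intro h2
        exact Or.inl h2
    rw [h1, h1]
    exact count_shift E δ h hE hfin (hnot x hx) (hnot y hy)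

end SXP
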