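import Pool.Agent.SXP.XTree

/-! Project SXP, module SXP-XPar: parity for a two coloured wall space with a transitive group.

Call `(x, y)` adjacent across `w` if `∀ w', sep w' x y ↔ w' = w`.
(1) If `(x, y)` and `(x', y')` are adjacent across the same wall `w`, and `x, x'` are on the same side
of `w` (`¬ sep w x x'`), then no wall separates `x, x'`, and no wall separates `y, y'`.  Suppose
`sep w' x x'`, `w' ≠ w`.  Then (`xor`, `¬ sep w' x y`, `¬ sep w' x' y'`) `hS.nest w w'` with `x`, `y`
(`sep w x y`, `¬ sep w' x y`), `x'` (`¬ sep w x x'`, `sep w' x x'`), `y'` (`sep w x y'`, `sep w' x y'`)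
gives `False`.  If `x, x'` are on different sides then `x, y'` are on the same side: replace
`(x', y')` by `(y', x')`.  So in any case `(col x ↔ col y) ↔ (col x' ↔ col y')`.
(2) By the group (`htrans`, `hcg`, `heq`) the truth value of `col x ↔ col y` is the same for all
adjacent pairs (of all walls): for pairs across `w₁`, `w₂ = g • w₁`, move the first pair by `g`.
(3) Every `x, y` with `ds x y = n` are joined by a chain of `n` adjacent pairs: induction with
`hS.step` (see `reg_tm.step`).  If adjacent pairs had the same colour, all points had the same colour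
(induction on `ds x y`), contradicting `hcol`, `hncol`.  So adjacent pairs have different colours.
(4) `col x ↔ col y` iff `ds x y` even: induction on `ds x y` (`= 0`: `hreg`). -/

namespace SXP

variable {X W G : Type*} [Group G] [MulAction G X] [MulAction G W] {sep : W → X → X → Prop}

/-- Adjacent across `w`. -/
private def Adj (sep : W → X → X → Prop) (w : W) (x y : X) : Prop := ∀ w', sep w' x y ↔ w' = w

private theorem Adj.symm' (hS : WS sep) {w : W} {x y : X} (h : Adj sep w x y) : Adj sep w y x :=
  fun w' => (hS.sym w' y x).trans (h w')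

/-- (1) Two pairs adjacent across the same wall, with `x, x'` on the same side. -/
private theorem adj_side (hS : WS sep) {w : W} {x y x' y' : X} (h : Adj sep w x y)
    (h' : Adj sep w x' y') (hx : ¬ sep w x x') :
    (∀ w', ¬ sep w' x x') ∧ (∀ w', ¬ sep w' y y') := by
  have h1 : ∀ w', ¬ sep w' x x' := by
    intro w' hw'
    have hne : w ≠ w' := by
      rintro rfl
      exact hx hw'
    have hne' : ¬ w' = w := fun e => hne e.symm
    have a1 : sep w x y := (h w).mpr rfl
    have a2 : ¬ sep w' x y := fun e => hne' ((h w').mp e)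
    have b1 : sep w x' y' := (h' w).mpr rfl
    have b2 : ¬ sep w' x' y' := fun e => hne' ((h' w').mp e)
    have c1 := hS.xor w x x' y'
    have c2 := hS.xor w' x x' y'
    exact hS.nest w w' hne x y x' y' a1 a2 hx hw' (by tauto) (by tauto)
  refine ⟨h1, ?_⟩
  intro w' hw'
  have a1 := h1 w'
  have a2 := h w'
  have a3 := h' w'
  have a4 := hS.xor w' y x y'
  have a5 := hS.xor w' x x' y'
  have a6 := hS.sym w' y x
  tauto

/-- (2) for one wall -/
private theorem adj_col (hS : WS sep) {col : X → Prop}
    (hreg : ∀ x y, (∀ w, ¬ sep w x y) → (col x ↔ col y)) {w : W} {x y x' y' : X} (h : Adj sep w x y)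
    (h' : Adj sep w x' y') : (col x ↔ col y) ↔ (col x' ↔ col y') := by
  by_cases hx : sep w x x'
  · have b1 : sep w x' y' := (h' w).mpr rfl
    have c1 := hS.xor w x x' y'
    have hx2 : ¬ sep w x y' := by tauto
    obtain ⟨e1, e2⟩ := adj_side hS h (h'.symm' hS) hx2
    have f1 := hreg _ _ e1
    have f2 := hreg _ _ e2
    tauto
  · obtain ⟨e1, e2⟩ := adj_side hS h h' hx
    have f1 := hreg _ _ e1
    have f2 := hreg _ _ e2
    tauto

/-- (3) a step -/
private theorem adj_step (hS : WS sep) {n : ℕ} {x y : X} (h : ds sep x y = n + 1) :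
    ∃ w z, Adj sep w x z ∧ ds sep z y = n := by
  have hne : ∃ w, sep w x y := by
    by_contra hcon
    push Not at hcon
    have : {w | sep w x y} = ∅ := Set.eq_empty_of_forall_notMem hcon
    unfold ds at h
    rw [this, Set.ncard_empty] at h
    omega
  obtain ⟨w, z, hw, hz⟩ := hS.step x y hne
  refine ⟨w, z, hz, ?_⟩
  have hset : {w' | sep w' z y} = {w' | sep w' x y} \ {w} := by
    ext w'
    have a1 := hz w'
    have a2 := hS.xor w' x z y
    by_cases hww : w' = w
    · subst hww
      simp only [Set.mem_ofPred_eq, Set.mem_sdiff, Set.mem_singleton_iff]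
      tauto
    · simp only [Set.mem_ofPred_eq, Set.mem_sdiff, Set.mem_singleton_iff]
      tauto
  unfold ds at h ⊢
  have hmem : w ∈ {w' | sep w' x y} := hw
  rw [hset, Set.ncard_sdiff_singleton_of_mem hmem, h]
  omega

private theorem ds_zero (hS : WS sep) {x y : X} (h : ds sep x y = 0) (w : W) : ¬ sep w x y := by
  unfold ds at h
  rw [Set.ncard_eq_zero (hS.fin x y)] at h
  intro hw
  have : w ∈ {w | sep w x y} := hw
  rw [h] at this
  exact this

theorem ws_parity (hS : WS sep)
    (heq : ∀ (g : G) w x y, sep (g • w) (g • x) (g • y) ↔ sep w x y)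
    (htrans : ∀ w w' : W, ∃ g : G, g • w = w') (col : X → Prop)
    (hreg : ∀ x y, (∀ w, ¬ sep w x y) → (col x ↔ col y))
    (hcg : ∀ (g : G) x, col (g • x) ↔ col x) (hcol : ∃ x, col x) (hncol : ∃ x, ¬ col x)
    (x y : X) : (col x ↔ col y) ↔ Even (ds sep x y) := by
  -- two adjacent pairs
  have key : ∀ (w w' : W) (a b a' b' : X), Adj sep w a b → Adj sep w' a' b' →
      ((col a ↔ col b) ↔ (col a' ↔ col b')) := by
    intro w w' a b a' b' h h'
    obtain ⟨g, hg⟩ := htrans w w'
    have h2 : Adj sep w' (g • a) (g • b) := by
      intro v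
      have e1 : v = g • (g⁻¹ • v) := by simp
      rw [e1, heq, h (g⁻¹ • v), ← hg]
      constructor
      · intro e
        rw [e]
      · intro e
        exact (smul_left_cancel_iff g).mp e
    have h3 := adj_col hS hreg h2 h'
    rw [hcg, hcg] at h3
    exact h3
  -- adjacent pairs have different colours
  have hdiff : ∀ (w : W) (a b : X), Adj sep w a b → ¬ (col a ↔ col b) := by
    intro w a b h hab
    have hall : ∀ (n : ℕ) (p q : X), ds sep p q = n → (col p ↔ col q) := by
      intro n
      induction n with
      | zero => exact fun p q hpq => hreg p q (fun v => ds_zero hS hpq v)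
      | succ n ih =>
        intro p q hpq
        obtain ⟨v, z, hv, hz⟩ := adj_step hS hpq
        have e1 := key w v a b p z h hv
        have e2 := ih z q hz
        tauto
    obtain ⟨p, hp⟩ := hcol
    obtain ⟨q, hq⟩ := hncol
    have := hall _ p q rfl
    tauto
  have hmain : ∀ (n : ℕ) (p q : X), ds sep p q = n → ((col p ↔ col q) ↔ Even n) := by
    intro n
    induction n with
    | zero =>
      intro p q hpq
      have := hreg p q (fun v => ds_zero hS hpq v)
      simp [this]
    | succ n ih =>
      intro p q hpq
      obtain ⟨v, z, hv, hz⟩ := adj_step hS hpq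
      have e1 := hdiff v p z hv
      have e2 := ih z q hz
      rw [Nat.even_add_one]
      tauto
  exact hmain _ x y rfl

end SXP
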