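import Pool.Agent.SXQ.XFree
import Pool.Agent.SXP.XPar
import Pool.Agent.SXP.GNest
import Pool.Agent.SXP.HCount
import Pool.Agent.SXP.HCol

/-! Project SXP: the wall space of a totally geodesic surface, assembly. -/

set_option linter.style.haveILetI false

namespace SXP

variable {G : Type*} [Group G] {ρ : G →* Matrix.SpecialLinearGroup (Fin 2) ℂ} {μ lam : G}
  {m l : ℂ} {P : Set (Set H3)}

/-- Points off the planes. -/
abbrev Pts (P : Set (Set H3)) : Type := {x : H3 // x ∉ ⋃₀ P}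

/-- Separation by a plane of the family. -/
def psep (P : Set (Set H3)) (S : P) (x y : Pts P) : Prop := Sep S.1 x.1 y.1

theorem off {x : Pts P} {S : Set H3} (hS : S ∈ P) : x.1 ∉ S := fun h => x.2 ⟨S, hS, h⟩

theorem ws (hP : TGSurface ρ P) : WS (psep P) where
  fin x y := by
    have := (fin_sep hP x.1 y.1).preimage (Subtype.val_injective (p := fun S => S ∈ P)).injOn
    refine this.subset ?_
    intro S hS
    exact ⟨S.2, hS⟩
  xor S x y z := sep_xor (hP.planes S S.2) (off S.2) (off S.2) (off S.2)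
  nest S S' hne x y z u h1 h2 h3 h4 h5 h6 :=
    nest_planes (hP.planes S S.2) (hP.planes S' S'.2)
      (hP.disj S S.2 S' S'.2 (fun h => hne (Subtype.ext h)))
      ⟨off S.2, off S'.2⟩ ⟨off S.2, off S'.2⟩ ⟨off S.2, off S'.2⟩ ⟨off S.2, off S'.2⟩
      h1 h2 h3 h4 h5 h6
  step x y h := by
    obtain ⟨S, hS⟩ := h
    obtain ⟨S1, hS1, z, hz, h1, h2⟩ := step_sep hP x.2 y.2 ⟨S.1, S.2, hS⟩
    refine ⟨⟨S1, hS1⟩, ⟨z, hz⟩, h1, fun S' => ?_⟩
    have := h2 S'.1 S'.2
    constructor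
    · intro h; exact Subtype.ext (this.mp h)
    · intro h; exact this.mpr (congrArg Subtype.val h)

theorem act_off (hP : TGSurface ρ P) (g : G) {x : H3} (hx : x ∉ ⋃₀ P) :
    act (ρ g) x ∉ ⋃₀ P := by
  rintro ⟨S, hS, hxS⟩
  apply hx
  refine ⟨act (ρ g⁻¹) '' S, hP.inv _ _ hS, act (ρ g) x, hxS, ?_⟩
  rw [← act_mul, ← map_mul, inv_mul_cancel, map_one, act_one]

@[reducible] noncomputable def ptsAct (hP : TGSurface ρ P) : MulAction G (Pts P) where
  smul g x := ⟨act (ρ g) x.1, act_off hP g x.2⟩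
  one_smul x := Subtype.ext (by show act (ρ 1) x.1 = x.1; rw [map_one, act_one])
  mul_smul g h x := Subtype.ext (by
    show act (ρ (g * h)) x.1 = act (ρ g) (act (ρ h) x.1); rw [map_mul, act_mul])

@[reducible] noncomputable def planeAct (hP : TGSurface ρ P) : MulAction G P where
  smul g S := ⟨act (ρ g) '' S.1, hP.inv g S S.2⟩
  one_smul S := Subtype.ext (by
    show act (ρ 1) '' S.1 = S.1
    ext y; simp [map_one, act_one])
  mul_smul g h S := Subtype.ext (by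
    show act (ρ (g * h)) '' S.1 = act (ρ g) '' (act (ρ h) '' S.1)
    rw [Set.image_image]; simp only [map_mul, act_mul])

theorem psep_smul (hP : TGSurface ρ P) :
    letI := ptsAct hP; letI := planeAct hP
    ∀ (g : G) (S : P) (x y : Pts P), psep P (g • S) (g • x) (g • y) ↔ psep P S x y := by
  intro g S x y
  exact sep_act (ρ g)

theorem ds_eq (x y : Pts P) : ds (psep P) x y = {S | S ∈ P ∧ Sep S x.1 y.1}.ncard := by
  unfold ds
  rw [← Set.ncard_image_of_injective _ (Subtype.val_injective (p := fun S => S ∈ P))]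
  congr 1
  ext S
  constructor
  · rintro ⟨T, hT, rfl⟩; exact ⟨T.2, hT⟩
  · rintro ⟨h1, h2⟩; exact ⟨⟨S, h1⟩, h2, rfl⟩

theorem cross_le (hP : TGSurface ρ P) (x : Pts P) (y : Pts P) (hy : y.1 = act (ρ μ) x.1) :
    crossNum ρ P μ x.1 ≤ ds (psep P) x y := by
  rw [ds_eq, (fin_sep hP x.1 y.1).cast_ncard_eq]
  apply Set.encard_le_encard
  rintro S ⟨h1, -, h3⟩
  exact ⟨h1, by rw [hy]; exact h3⟩

theorem conj_zpow' (g μ : G) (k : ℤ) : (g * μ * g⁻¹) ^ k = g * μ ^ k * g⁻¹ := conj_zpow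

/-- Cross for a conjugate of `μ` means that a translate passes through infinity. -/
theorem cross_atInf (hc : TorusCusp ρ μ lam m l) (hP : TGSurface ρ P) (g : G) (S : P)
    (x : Pts P) (h : letI := ptsAct hP; letI := planeAct hP
      Cross (psep P) (g * μ * g⁻¹) S) : AtInf (act (ρ g⁻¹) '' S.1) := by
  letI := ptsAct hP
  letI := planeAct hP
  have hgS : IsPlane (act (ρ g⁻¹) '' S.1) := hP.planes _ (hP.inv g⁻¹ S S.2)
  apply cross_inf hc hgS (act (ρ g⁻¹) x.1)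
  obtain ⟨K, hK⟩ := h x
  refine ⟨K, fun k hk => ?_⟩
  have h1 := hK k hk
  have h2 := (psep_smul hP g⁻¹ S _ _).mpr h1
  have e : ∀ j : ℤ, g⁻¹ • (g * μ * g⁻¹) ^ j • x = μ ^ j • g⁻¹ • x := by
    intro j
    rw [conj_zpow', smul_smul, smul_smul]
    congr 1; group
  rw [e, e] at h2
  exact h2

theorem main_disp (hc : TorusCusp ρ μ lam m l) (hP : TGSurface ρ P) {k : ℕ} {x₀ : H3}
    (hx₀ : x₀ ∉ ⋃₀ P) (hk : (k : ℕ∞) ≤ crossNum ρ P μ x₀) (g : G) (p : Pts P) :
    letI := ptsAct hP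
    k ≤ ds (psep P) p ((g * μ * g⁻¹) • p) := by
  letI := ptsAct hP
  letI := planeAct hP
  have h1 : ds (psep P) p ((g * μ * g⁻¹) • p) = ds (psep P) (g⁻¹ • p) (μ • (g⁻¹ • p)) := by
    have := ds_smul (ws hP) (psep_smul hP) g (g⁻¹ • p) (μ • (g⁻¹ • p))
    rw [← this]
    congr 1
    · simp
    · simp [mul_smul]
  rw [h1]
  have h2 := cross_le (μ := μ) hP (g⁻¹ • p) (μ • (g⁻¹ • p)) rfl
  rw [crossNum_const hc hP (g⁻¹ • p).2 hx₀] at h2
  exact_mod_cast hk.trans h2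

/-- Different conjugates of `μ` have different fixed points. -/
theorem fix_ne (hc : TorusCusp ρ μ lam m l) {k j : G} (h : k * μ * k⁻¹ ≠ j * μ * j⁻¹) :
    (ρ (j⁻¹ * k)).1 1 0 ≠ 0 := by
  intro i5
  have i6 := comm_of_stab hc i5
  apply h
  have : j * (j⁻¹ * k * μ * (j⁻¹ * k)⁻¹) * j⁻¹ = j * μ * j⁻¹ := by rw [i6]
  rw [← this]; group

theorem main_free (hc : TorusCusp ρ μ lam m l) (hP : TGSurface ρ P) {x₀ : H3}
    (hx₀ : x₀ ∉ ⋃₀ P) (h6 : 6 ≤ crossNum ρ P μ x₀ ∨ (4 ≤ crossNum ρ P μ x₀ ∧ ¬ IdealTriangle ρ P))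
    {g : G} (hg : g ∈ Subgroup.normalClosure {μ}) (hg1 : g ≠ 1) {x : H3} (hx : x ∉ ⋃₀ P) :
    ∃ S ∈ P, Sep S x (act (ρ g) x) := by
  letI := ptsAct hP
  letI := planeAct hP
  have hrep : ∀ y ∈ Group.conjugatesOfSet ({μ} : Set G), ∃ k : G, k * μ * k⁻¹ = y := by
    intro y hy
    rw [Group.mem_conjugatesOfSet_iff] at hy
    obtain ⟨a, ha, hay⟩ := hy
    rw [Set.mem_singleton_iff] at ha
    subst ha
    rw [isConj_iff] at hay
    exact hay
  have hdisp : ∀ k : ℕ, (k : ℕ∞) ≤ crossNum ρ P μ x₀ →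
      ∀ y ∈ Group.conjugatesOfSet ({μ} : Set G), ∀ p : Pts P, k ≤ ds (psep P) p (y • p) := by
    intro k hk y hy p
    obtain ⟨a, rfl⟩ := hrep y hy
    exact main_disp hc hP hx₀ hk a p
  have key := SXQ.ws_free' (ws hP) (psep_smul hP) (Group.conjugatesOfSet {μ}) (g := g)
    (hconj := ?_) (halt := ?_) (hov := ?_) hg hg1 ⟨x, hx⟩
  · obtain ⟨S, hS⟩ := key
    exact ⟨S.1, S.2, hS⟩
  · intro k y hy
    rw [Group.mem_conjugatesOfSet_iff] at hy ⊢
    obtain ⟨a, ha, hay⟩ := hy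
    refine ⟨a, ha, hay.trans ?_⟩
    rw [isConj_iff]; exact ⟨k, rfl⟩
  · rcases h6 with h6 | ⟨h4, hnt⟩
    · left
      exact hdisp 6 (by exact_mod_cast h6)
    · right
      refine ⟨hdisp 4 (by exact_mod_cast h4), ?_⟩
      intro x1 hx1 x2 hx2 x3 hx3 h12 h23 h13 w1 w2 w3 hw12 hw23 hw13 c1 c2 c3 c4 c5 c6
      obtain ⟨a, rfl⟩ := hrep x1 hx1
      obtain ⟨b, rfl⟩ := hrep x2 hx2
      obtain ⟨c, rfl⟩ := hrep x3 hx3
      apply hnt
      refine ⟨w1.1, w1.2, w2.1, w2.2, w3.1, w3.2, fun h => hw12 (Subtype.ext h),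
        fun h => hw23 (Subtype.ext h), fun h => hw13 (Subtype.ext h), a, b, c,
        cross_atInf hc hP a w1 ⟨x, hx⟩ c1, cross_atInf hc hP a w2 ⟨x, hx⟩ c2,
        cross_atInf hc hP b w2 ⟨x, hx⟩ c3, cross_atInf hc hP b w3 ⟨x, hx⟩ c4,
        cross_atInf hc hP c w3 ⟨x, hx⟩ c5, cross_atInf hc hP c w1 ⟨x, hx⟩ c6,
        fix_ne hc h12.symm, fix_ne hc h23.symm, fix_ne hc h13.symm⟩
  · intro y hy z hz hyz w w' hww' h1 h2 h3 h4
    obtain ⟨k, rfl⟩ := hrep y hy
    obtain ⟨j, rfl⟩ := hrep z hz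
    have i1 := cross_atInf hc hP k w ⟨x, hx⟩ h1
    have i2 := cross_atInf hc hP k w' ⟨x, hx⟩ h2
    have i3 := cross_atInf hc hP j w ⟨x, hx⟩ h3
    have i4 := cross_atInf hc hP j w' ⟨x, hx⟩ h4
    have e : ∀ v : P, act (ρ (j⁻¹ * k)) '' (act (ρ k⁻¹) '' v.1) = act (ρ j⁻¹) '' v.1 := by
      intro v
      rw [Set.image_image]
      congr 1
      ext y
      rw [← act_mul, ← map_mul]; simp
    have hd : Disjoint (act (ρ k⁻¹) '' w.1) (act (ρ k⁻¹) '' w'.1) := by
      apply hP.disj _ (hP.inv _ _ w.2) _ (hP.inv _ _ w'.2)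
      intro h
      apply hww'
      have : k⁻¹ • w = k⁻¹ • w' := Subtype.ext h
      exact MulAction.injective _ this
    have i5 := inf_same hd i1 i2 (ρ (j⁻¹ * k)) (by rw [e]; exact i3) (by rw [e]; exact i4)
    exact fix_ne hc hyz i5

theorem not_six (hc : TorusCusp ρ μ lam m l) (hP : TGSurface ρ P) {n : ℕ} (hn : 0 < n)
    (hln : lam ^ n ∈ Subgroup.normalClosure {μ}) {x₀ : H3} (hx₀ : x₀ ∉ ⋃₀ P)
    (h6 : 6 ≤ crossNum ρ P μ x₀ ∨ (4 ≤ crossNum ρ P μ x₀ ∧ ¬ IdealTriangle ρ P)) :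
    False := by
  letI := ptsAct hP
  letI := planeAct hP
  haveI : Nonempty (Pts P) := ⟨⟨x₀, hx₀⟩⟩
  obtain ⟨a, b, p, ha, hp⟩ := ws_comm (ws hP) (psep_smul hP) (g := μ) (l := lam)
    hc.comm.symm (fun p => by
      have h4 : ((4 : ℕ) : ℕ∞) ≤ crossNum ρ P μ x₀ := by
        rcases h6 with h6 | h6
        · exact le_trans (by norm_num) h6
        · exact_mod_cast h6.1
      have := main_disp hc hP hx₀ h4 1 p
      simp only [one_mul, inv_one, mul_one] at this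
      omega)
  set e := lam ^ a * μ ^ b with he
  have hcm : Commute lam μ := hc.comm.symm
  have hpow : ∀ k : ℕ, ∀ w, ¬ psep P w p (e ^ k • p) := by
    intro k
    induction k with
    | zero => intro w; simp only [pow_zero, one_smul]; exact (ws hP).irr w p
    | succ k ih =>
      intro w
      have h1 := (ws hP).xor w p (e • p) (e ^ (k + 1) • p)
      have h2 : ¬ psep P w (e • p) (e ^ (k + 1) • p) := by
        have e1 : e ^ (k + 1) • p = e • e ^ k • p := by rw [pow_succ', mul_smul]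
        have e2 : w = e • (e⁻¹ • w) := (smul_inv_smul e w).symm
        rw [e1, e2]
        exact fun hh => ih _ ((psep_smul hP e _ _ _).mp hh)
      exact fun h => hp w ((h1.mp h).mpr h2)
  have hmem : e ^ n ∈ Subgroup.normalClosure {μ} := by
    have hμ : μ ∈ Subgroup.normalClosure ({μ} : Set G) :=
      Subgroup.subset_normalClosure (Set.mem_singleton μ)
    have : e ^ n = (lam ^ n) ^ a * (μ ^ b) ^ n := by
      rw [he, ((hcm.pow_left a).zpow_right b).mul_pow, ← pow_mul, ← pow_mul, mul_comm a n]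
    rw [this]
    exact Subgroup.mul_mem _ (Subgroup.pow_mem _ hln _)
      (Subgroup.pow_mem _ (Subgroup.zpow_mem _ hμ _) _)
  have hone : e ^ n = 1 := by
    by_contra hne
    obtain ⟨S, hS, hs⟩ := main_free hc hP hx₀ h6 hmem hne p.2
    exact hpow n ⟨S, hS⟩ hs
  have h1 : e ^ n = lam ^ ((a * n : ℕ) : ℤ) * μ ^ (b * n) := by
    rw [he, ((hcm.pow_left a).zpow_right b).mul_pow, ← pow_mul, zpow_natCast, zpow_mul,
      zpow_natCast]
  rw [h1] at hone
  have h2 : (ρ (lam ^ ((a * n : ℕ) : ℤ))).1 * (ρ (μ ^ (b * n))).1 = 1 := by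
    have := congrArg (fun g => (ρ g).1) hone
    simpa [map_mul] using this
  have key : ((a * n : ℕ) : ℂ) * l + ((b * n : ℤ) : ℂ) * m = 0 := by
    rcases rho_zpow hc.hlam ((a * n : ℕ) : ℤ) with h3 | h3 <;>
    rcases rho_zpow hc.hμ (b * n) with h4 | h4 <;>
    · rw [h3, h4] at h2
      have h5 := congrFun (congrFun h2 0) 1
      simp [Matrix.mul_apply, Fin.sum_univ_two] at h5
      push_cast
      first | linear_combination h5 | linear_combination -h5
  have hli := hc.ind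
  rw [LinearIndependent.pair_iff] at hli
  have := hli ((b * n : ℤ) : ℝ) ((a * n : ℕ) : ℝ) (by
    simp only [Complex.real_smul]
    push_cast at key ⊢
    linear_combination key)
  have h7 : ((a * n : ℕ) : ℝ) = 0 := this.2
  have h8 : a * n = 0 := by exact_mod_cast h7
  have : 0 < a * n := Nat.mul_pos ha hn
  omega

end SXP
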