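import Pool.Agent.SXP.TLine

/-! Project SXP, module SXP-TAxis: an isometry of a tree which moves every vertex by at least two
is a translation along a line.  The line is made of the translates of a geodesic from a vertex `v`
of minimal displacement to `g • v`. -/

namespace SXP

variable {V G : Type*} [Group G] [MulAction G V] {d : V → V → ℕ}

omit [Group G] [MulAction G V] in
private lemma geod (h : TM d) : ∀ (n : ℕ) (x z : V), d x z = n →
    ∃ m : ℕ → V, m 0 = x ∧ m n = z ∧ ∀ i j, i ≤ j → j ≤ n → i + d (m i) (m j) = j := by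
  intro n
  induction n with
  | zero =>
    intro x z hxz
    have hxz' := (h.zero x z).mp hxz
    refine ⟨fun _ => x, rfl, hxz', fun i j hij hj => ?_⟩
    have := (h.zero x x).mpr rfl
    show i + d x x = j
    omega
  | succ n ih =>
    intro x z hxz
    obtain ⟨z', h1, h2⟩ := h.step x z n hxz
    obtain ⟨m, m0, mn, hm⟩ := ih z' z h2
    refine ⟨fun i => if i = 0 then x else m (i - 1), by simp, by simpa using mn,
      fun i j hij hj => ?_⟩
    rcases Nat.eq_zero_or_pos i with rfl | hi
    · rcases Nat.eq_zero_or_pos j with rfl | hj0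
      · simp only [if_true]
        have := (h.zero x x).mpr rfl
        omega
      · have hj' : j ≠ 0 := by omega
        simp only [if_true, if_neg hj']
        have e1 := hm 0 (j - 1) (by omega) (by omega)
        have e2 := hm (j - 1) n (by omega) (by omega)
        have e3 := h.tri x z' (m (j - 1))
        have e4 := h.tri x (m (j - 1)) z
        rw [m0] at e1
        rw [mn] at e2
        omega
    · have hi' : i ≠ 0 := by omega
      have hj' : j ≠ 0 := by omega
      simp only [if_neg hi', if_neg hj']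
      have := hm (i - 1) (j - 1) (by omega) (by omega)
      omega

theorem axis (h : TM d) (hiso : ∀ (g : G) (x y : V), d (g • x) (g • y) = d x y) (g : G)
    [Nonempty V] (h2 : ∀ v : V, 2 ≤ d v (g • v)) :
    ∃ (c : ℤ → V) (τ : ℕ), IsLine d c ∧ (∀ n : ℤ, g • c n = c (n + τ)) ∧
      (∀ v, v ∈ Ax d g ↔ ∃ n, v = c n) ∧ ∀ v : V, τ ≤ d v (g • v) := by
  classical
  have hex : ∃ n : ℕ, ∃ v : V, d v (g • v) = n := ⟨_, Classical.arbitrary V, rfl⟩
  set τ := Nat.find hex with hτdef
  obtain ⟨v, hv⟩ : ∃ v : V, d v (g • v) = τ := Nat.find_spec hex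
  have hmin : ∀ u : V, τ ≤ d u (g • u) := fun u => Nat.find_min' hex ⟨u, rfl⟩
  have hτ2 : 2 ≤ τ := hv ▸ h2 v
  have hτpos : (0 : ℤ) < τ := by exact_mod_cast (by omega : 0 < τ)
  obtain ⟨m, m0, mτ, hm⟩ := geod h τ v (g • v) hv
  set c : ℤ → V := fun n => g ^ (n / (τ : ℤ)) • m (n % (τ : ℤ)).toNat with hc
  have hc1 : ∀ (q : ℤ) (r : ℕ), r < τ → c (q * τ + r) = g ^ q • m r := by
    intro q r hr
    have e1 : (q * τ + r) / (τ : ℤ) = q := by
      rw [add_comm, Int.add_mul_ediv_right _ _ hτpos.ne']
      rw [Int.ediv_eq_zero_of_lt (by positivity) (by exact_mod_cast hr), zero_add]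
    have e2 : (q * τ + r) % (τ : ℤ) = r := by
      rw [add_comm, Int.add_mul_emod_self_right]
      exact Int.emod_eq_of_lt (by positivity) (by exact_mod_cast hr)
    simp only [hc, e1, e2, Int.toNat_natCast]
  have hc2 : ∀ (q : ℤ) (r : ℕ), r ≤ τ → c (q * τ + r) = g ^ q • m r := by
    intro q r hr
    rcases Nat.lt_or_ge r τ with h' | h'
    · exact hc1 q r h'
    · have hr' : r = τ := le_antisymm hr h'
      subst hr'
      have e := hc1 (q + 1) 0 (by omega)
      have e' : (q * (τ : ℤ) + (τ : ℤ)) = (q + 1) * τ + (0 : ℕ) := by push_cast; ring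
      rw [e', e, mτ, m0, zpow_add_one, mul_smul]
  have hdec : ∀ n : ℤ, ∃ (q : ℤ) (r : ℕ), r < τ ∧ n = q * τ + r := by
    intro n
    refine ⟨n / τ, (n % τ).toNat, ?_, ?_⟩
    · have h3 := Int.emod_lt_of_pos n hτpos
      have h4 := Int.emod_nonneg n hτpos.ne'
      omega
    · have h4 := Int.emod_nonneg n hτpos.ne'
      rw [Int.toNat_of_nonneg h4]
      exact (Int.ediv_mul_add_emod n τ).symm
  have hgc : ∀ n : ℤ, g • c n = c (n + τ) := by
    intro n
    obtain ⟨q, r, hr, rfl⟩ := hdec n
    have e : q * (τ : ℤ) + r + τ = (q + 1) * τ + r := by ring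
    rw [e, hc1 _ _ hr, hc1 _ _ hr, zpow_add, zpow_one, ← mul_smul]
    congr 1
    rw [← zpow_one_add, ← zpow_add_one, add_comm]
  have hstep : ∀ n, d (c n) (c (n + 1)) = 1 := by
    intro n
    obtain ⟨q, r, hr, rfl⟩ := hdec n
    have e : q * (τ : ℤ) + r + 1 = q * τ + (r + 1 : ℕ) := by push_cast; ring
    rw [e, hc2 _ _ hr.le, hc2 _ (r + 1) hr, hiso]
    have h5 := hm r (r + 1) (by omega) hr
    omega
  have hback : ∀ n, c n ≠ c (n + 2) := by
    intro n heq
    obtain ⟨q, r, hr, rfl⟩ := hdec n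
    rcases Nat.lt_or_ge (r + 1) τ with h' | h'
    · have e : q * (τ : ℤ) + r + 2 = q * τ + (r + 2 : ℕ) := by push_cast; ring
      rw [e, hc2 _ _ hr.le, hc2 _ _ (by omega)] at heq
      have e1 := smul_left_cancel _ heq
      have e2 := hm r (r + 2) (by omega) (by omega)
      rw [← e1, (h.zero _ _).mpr rfl] at e2
      omega
    · have hr1 : r = τ - 1 := by omega
      have e : q * (τ : ℤ) + r + 2 = (q + 1) * τ + (1 : ℕ) := by
        have : (r : ℤ) = τ - 1 := by omega
        rw [this]; push_cast; ring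
      rw [e, hc2 _ _ hr.le, hc2 _ _ (by omega), zpow_add_one, mul_smul] at heq
      have e1 := smul_left_cancel _ heq
      have e2 := hm 1 r (by omega) (by omega)
      have e3 := hmin (m 1)
      rw [← e1] at e3
      omega
  have hline : IsLine d c := local_line h hstep hback
  have hdisp : ∀ (u : V) (i : ℤ), IsIdx d c u i →
      (d u (g • u) : ℤ) = 2 * d u (c i) + τ := by
    intro u i hi
    have hgu : d (g • u) (c (i + τ)) = d u (c i) := by rw [← hgc, hiso]
    have hi' : IsIdx d c (g • u) (i + τ) := by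
      intro n
      have e1 : c n = g • c (n - τ) := by rw [hgc, sub_add_cancel]
      rw [hgu, e1, hiso, hi (n - τ)]
      congr 2
      ring
    have e := idx2 h hline hi hi' (by omega)
    rw [hgu] at e
    have e' : |i - (i + τ)| = (τ : ℤ) := by
      rw [show i - (i + (τ : ℤ)) = -(τ : ℤ) by ring, abs_neg, abs_of_nonneg hτpos.le]
    rw [e, e']
    ring
  refine ⟨c, τ, hline, hgc, fun w => ⟨fun hw => ?_, ?_⟩, hmin⟩
  · obtain ⟨i, hi⟩ := idx_exists h hline w
    have e1 := hdisp w i hi
    have e2 := hw (c 0)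
    have e3 := hdisp (c 0) 0 (idx_self h hline 0)
    have e4 := (h.zero (c 0) (c 0)).mpr rfl
    have e5 : d w (c i) = 0 := by omega
    exact ⟨i, (h.zero _ _).mp e5⟩
  · rintro ⟨n, rfl⟩ u
    have e1 := hdisp (c n) n (idx_self h hline n)
    have e4 := (h.zero (c n) (c n)).mpr rfl
    have e5 := hmin u
    omega

end SXP
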