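import Pool.Agent.SXP.Tree

/-! Project SXP, module SXP-TBasic: first facts on tree metrics.  Mathlib only (+ definitions).

All proofs: unfold `Btw`, instantiate `h.four`, `h.tri`, `h.par`, `h.symm`, then `omega` (write
`max` facts with `le_max_iff`).

* `btw_uniq`: `h.four y y' x z` (pairs `y y' | x z`): `d y y' + d x z ≤ max (d y x + d y' z)
  (d y z + d y' x)`; both entries equal `d x z`; so `d y y' = 0`, `h.zero`.
* `btw_tri`: `h.four x z y p`: `d x z + d y p ≤ max (d x y + d z p) (d x p + d z y)`.  In the
  first case `d y z + d y p ≤ d z p`, so `Btw p y z`; in the second case `Btw x y p`.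
* `edge_or`: triangle inequality and parity.
* `edge_sep`: `h.four x b y a` : `d x b + d y a ≤ max (d x y + d b a) (d x a + d b y)`; the left
  side is `d x a + d b y + 2`.  So `d x y ≥ d x a + d b y + 1`, and `≤` is the triangle
  inequality.
* `pt`: induction on `k`, using `h.step` (start at `x`; or induct on `d x z`).
* `median`: `k := (d x y + d x z - d y z) / 2` (exact, parity), `m := pt x y k`.  By
  `h.four x y z m` and the others one gets `d z m = d x z - k` etc.
* `nbr`: parity gives `d a q ∈ {0, 2}` and `d b p ∈ {0, 2}`; they are not `0` (`a, b ∉ X`).  So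
  `d a q = 2 = d b p`.  `d p q` has parity `d a p + d a q`, so odd, and `d p q ≤ 3`.  If
  `d p q = 3` then `Btw p a q` (1 + 2), so `a ∈ X`, contradiction.  If `d p q = 1`, `h.four a q b p`:
  `d a q + d b p = 4 ≤ max (d a b + d q p) (d a p + d q b) = 2`, contradiction. -/

namespace SXP

variable {V : Type*} {d : V → V → ℕ}

theorem btw_uniq (h : TM d) {x y y' z : V} (h1 : Btw d x y z) (h2 : Btw d x y' z)
    (h3 : d x y = d x y') : y = y' := by
  unfold Btw at h1 h2
  have h4 := h.four y y' x z
  have h5 := h.symm y x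
  have h6 := h.symm y' x
  apply (h.zero y y').1
  rcases le_max_iff.1 h4 with h7 | h7 <;> omega

theorem btw_tri (h : TM d) {x y z : V} (h1 : Btw d x y z) (p : V) :
    Btw d x y p ∨ Btw d p y z := by
  unfold Btw at *
  have h4 := h.four x z y p
  have h5 := h.symm z y
  have h6 := h.symm z p
  have h7 := h.symm y p
  have h8 := h.tri x y p
  have h9 := h.tri p y z
  rcases le_max_iff.1 h4 with h7 | h7
  · right; omega
  · left; omega

theorem edge_or (h : TM d) {a b : V} (hab : d a b = 1) (x : V) :
    d x b = d x a + 1 ∨ d x a = d x b + 1 := by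
  have h1 := h.tri x a b
  have h2 := h.tri x b a
  have h3 := h.symm a b
  have h4 := h.par x a b
  omega

theorem edge_sep (h : TM d) {a b x y : V} (hab : d a b = 1) (hx : d x b = d x a + 1)
    (hy : d y a = d y b + 1) : d x y = d x a + 1 + d b y := by
  have h1 := h.four x b y a
  have h2 := h.symm b a
  have h3 := h.symm b y
  have h4 := h.tri x a b
  have h5 := h.tri x b y
  rcases le_max_iff.1 h1 with h7 | h7 <;> omega

theorem pt (h : TM d) (x z : V) (k : ℕ) (hk : k ≤ d x z) : ∃ y, d x y = k ∧ Btw d x y z := by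
  have key : ∀ k : ℕ, ∀ x : V, k ≤ d x z → ∃ y, d x y = k ∧ Btw d x y z := by
    intro k
    induction k with
    | zero =>
      intro x _
      refine ⟨x, (h.zero x x).2 rfl, ?_⟩
      unfold Btw
      have := (h.zero x x).2 rfl
      omega
    | succ k ih =>
      intro x hx
      obtain ⟨x', h1, h2⟩ := h.step x z (d x z - 1) (by omega)
      obtain ⟨y, h3, h4⟩ := ih x' (by omega)
      unfold Btw at h4
      have h5 := h.tri x x' y
      have h6 := h.tri x y z
      refine ⟨y, by omega, ?_⟩
      unfold Btw
      omega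
  exact key k x hk

theorem median (h : TM d) (x y z : V) : ∃ m, Btw d x m y ∧ Btw d y m z ∧ Btw d x m z := by
  have h1 := h.par x y z
  have h2 := h.tri x y z
  have h3 := h.tri x z y
  have h4 := h.tri y x z
  have h5 := h.symm y x
  have h6 := h.symm z y
  have h7 := h.symm z x
  obtain ⟨m, h8, h9⟩ := pt h x y ((d x y + d x z - d y z) / 2) (by omega)
  unfold Btw at *
  have g1 := h.four x y z m
  have g2 := h.symm y m
  have g3 := h.symm x m
  have g4 := h.symm z m
  have g5 := h.tri x m z
  have g6 := h.tri y m z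
  refine ⟨m, h9, ?_, ?_⟩ <;> rcases le_max_iff.1 g1 with h7 | h7 <;> omega

theorem nbr (h : TM d) {X : Set V} (hX : Conv d X) {a b p q : V} (hab : d a b = 1)
    (ha : a ∉ X) (hb : b ∉ X) (hp : p ∈ X) (hap : d a p = 1) (hq : q ∈ X) (hbq : d b q = 1) :
    False := by
  have h1 : d a q ≠ 0 := fun hh => ha ((h.zero a q).1 hh ▸ hq)
  have h2 : d b p ≠ 0 := fun hh => hb ((h.zero b p).1 hh ▸ hp)
  have h3 := h.par a b q
  have h4 := h.par b a p
  have h5 := h.tri a b q
  have h6 := h.tri b a p
  have h7 := h.symm b a
  have h8 := h.par p a q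
  have h9 := h.symm p a
  have g1 := h.tri p a q
  have g2 := h.symm p q
  have g3 := h.symm q b
  have g4 : ¬ Btw d p a q := fun hh => ha (hX p hp q hq a hh)
  unfold Btw at g4
  have g5 := h.four a q b p
  rcases le_max_iff.1 g5 with h7 | h7 <;> omega

end SXP
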