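import Pool.Agent.SXP.TAxis

/-! Project SXP, module SXP-TConj: axes of conjugates, and commuting isometries.

`comm_fix`: let `c, τ` be the axis of `g` (`axis`), `l` commutes with `g`.  Then `l • c i = c (f i)` with
`|f i - f j| = |i - j|` and `f (n τ) = f 0 + n τ`, so `f i = f 0 + i`; hence `l ^ τ * g ^ (- f 0)` fixes
`c 0`. -/

namespace SXP

variable {V G : Type*} [Group G] [MulAction G V] {d : V → V → ℕ}

private theorem conj_disp (hiso : ∀ (g : G) (x y : V), d (g • x) (g • y) = d x y) (g k : G) (v : V) :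
    d (k • v) ((k * g * k⁻¹) • (k • v)) = d v (g • v) := by
  have h : (k * g * k⁻¹) • (k • v) = k • (g • v) := by
    rw [smul_smul, smul_smul]
    congr 1
    group
  rw [h, hiso]

theorem ax_conj (hiso : ∀ (g : G) (x y : V), d (g • x) (g • y) = d x y) (g k : G) (v : V) :
    k • v ∈ Ax d (k * g * k⁻¹) ↔ v ∈ Ax d g := by
  constructor
  · intro h u
    have h1 := h (k • u)
    rwa [conj_disp hiso, conj_disp hiso] at h1
  · intro h u
    have h1 := h (k⁻¹ • u)
    have h2 := conj_disp hiso g k (k⁻¹ • u)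
    rw [smul_inv_smul] at h2
    rw [conj_disp hiso, h2]
    exact h1

theorem ax_smul (hiso : ∀ (g : G) (x y : V), d (g • x) (g • y) = d x y) {g k : G}
    (hk : k * g = g * k) {v : V} (hv : v ∈ Ax d g) : k • v ∈ Ax d g := by
  have h := (ax_conj hiso g k v).2 hv
  have e : k * g * k⁻¹ = g := by rw [hk, mul_assoc, mul_inv_cancel, mul_one]
  rwa [e] at h

theorem line_pow {c : ℤ → V} {τ : ℕ} {x : G} (htr : ∀ n : ℤ, x • c n = c (n + τ)) (n k : ℤ) :
    x ^ n • c k = c (k + n * τ) := by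
  have hinv : ∀ k : ℤ, x⁻¹ • c k = c (k - τ) := fun k => by
    rw [inv_smul_eq_iff, htr]
    congr 1
    ring
  induction n using Int.induction_on generalizing k with
  | zero => simp
  | succ n ih =>
    rw [zpow_add_one, mul_smul, htr, ih]
    congr 1
    ring
  | pred n ih =>
    rw [zpow_sub_one, mul_smul, hinv, ih]
    congr 1
    ring

theorem idx_pow (hiso : ∀ (g : G) (x y : V), d (g • x) (g • y) = d x y) {c : ℤ → V} {τ : ℕ}
    {x : G} (htr : ∀ n : ℤ, x • c n = c (n + τ)) {y : V} {i : ℤ} (hi : IsIdx d c y i) (n : ℤ) :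
    IsIdx d c (x ^ n • y) (i + n * τ) ∧ d (x ^ n • y) (c (i + n * τ)) = d y (c i) := by
  have h1 : ∀ m : ℤ, d (x ^ n • y) (c (m + n * τ)) = d y (c m) := fun m => by
    rw [← line_pow htr n m, hiso]
  refine ⟨fun m => ?_, h1 i⟩
  have h2 := h1 (m - n * τ)
  rw [sub_add_cancel] at h2
  rw [h2, h1 i, hi (m - n * τ)]
  congr 2
  ring

theorem comm_fix (h : TM d) (hiso : ∀ (g : G) (x y : V), d (g • x) (g • y) = d x y) {g l : G}
    (hgl : l * g = g * l) [Nonempty V] (h2 : ∀ v : V, 2 ≤ d v (g • v)) :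
    ∃ (a : ℕ) (b : ℤ) (v : V), 0 < a ∧ (l ^ a * g ^ b) • v = v := by
  obtain ⟨c, τ, hc, htr, hax, -⟩ := axis h hiso g h2
  have hτ : 2 ≤ τ := by
    have h3 := h2 (c 0)
    rw [htr] at h3
    have h4 := hc 0 (0 + τ)
    rw [zero_add, zero_sub, abs_neg, Nat.abs_cast] at h4
    rw [zero_add] at h3
    omega
  have hinj : ∀ i j : ℤ, c i = c j → i = j := by
    intro i j hij
    have h3 := hc i j
    rw [hij, (h.zero _ _).2 rfl] at h3
    have h4 : |i - j| = 0 := by exact_mod_cast h3.symm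
    have := abs_eq_zero.1 h4
    omega
  have hf : ∀ i : ℤ, ∃ j : ℤ, l • c i = c j := fun i =>
    (hax _).1 (ax_smul hiso hgl ((hax _).2 ⟨i, rfl⟩))
  choose f hf using hf
  have hfd : ∀ i j : ℤ, |f i - f j| = |i - j| := fun i j => by
    rw [← hc, ← hc, ← hf, ← hf, hiso]
  have hcomm : ∀ n : ℤ, l * g ^ n = g ^ n * l := fun n => ((show Commute l g from hgl).zpow_right n)
  have hfn : ∀ n : ℤ, f (n * τ) = f 0 + n * τ := fun n => by
    apply hinj
    rw [← hf]
    have h3 := line_pow htr n 0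
    rw [zero_add] at h3
    rw [← h3, smul_smul, hcomm, mul_smul, hf, line_pow htr]
  have hfi : ∀ i : ℤ, f i = f 0 + i := fun i => by
    have h3 := hfd i 0
    have h4 := hfd i ((|i| + 1) * τ)
    rw [hfn] at h4
    have hN : |i| + 1 ≤ (|i| + 1) * (τ : ℤ) := by
      have h5 : (1 : ℤ) ≤ τ := by exact_mod_cast (by omega : 1 ≤ τ)
      have h6 := abs_nonneg i
      nlinarith
    generalize (|i| + 1) * (τ : ℤ) = N at h4 hN
    rw [sub_zero] at h3
    have h7 := le_abs_self i
    have h8 := neg_abs_le i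
    have h9 : |i - N| = N - i := by rw [abs_of_nonpos (by linarith)]; ring
    rw [h9] at h4
    have g1 := le_abs_self (f i - f 0)
    have g2 := neg_abs_le (f i - f 0)
    rw [h3] at g1 g2
    have g3 : |f i - (f 0 + N)| = N - (f i - f 0) := by rw [abs_of_nonpos (by linarith)]; ring
    rw [g3] at h4
    linarith
  have hlj : ∀ (j : ℕ) (m : ℤ), l ^ j • c m = c (m + j * f 0) := by
    intro j
    induction j with
    | zero => intro m; simp
    | succ j ih =>
      intro m
      rw [pow_succ, mul_smul, hf, hfi, ih]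
      congr 1
      push_cast
      ring
  refine ⟨τ, -f 0, c 0, by omega, ?_⟩
  rw [mul_smul, line_pow htr, hlj]
  congr 1
  ring

end SXP
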