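import Pool.Agent.SXP.TBasic

/-! Project SXP, module SXP-TLine: lines (bi-infinite geodesics) in tree metrics.

* `line_btw`: let `i ≤ j` (else swap, `h.symm`), `k := i + d (c i) y`; then `i ≤ k ≤ j`,
  `d (c i) (c k) = d (c i) y` and `Btw (c i) (c k) (c j)`, so `y = c k` by `btw_uniq`.
* `line_conv`: from `line_btw`.
* `idx_exists`: `Set.range c` is convex and nonempty.  Let `i` minimise `d y (c i)`.  For `n`, let
  `m` be the `median` of `y, c i, c n`; `m = c k` by `line_btw`, minimality and `Btw y m (c i)`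
  give `m = c i`, so `Btw y (c i) (c n)`.
* `idx_uniq`: `|i - j| = ...` from the two formulas at `n = j` and `n = i`.
* `idx2`: four points `y, c j | z, c i`: `h.four y (c j) z (c i)`:
  `d y (c j) + d z (c i) ≤ max (d y z + d (c j) (c i)) (d y (c i) + d (c j) z)`; the left side is
  `d y (c i) + d z (c j) + 2 |i - j|` and `|i - j| ≥ 1`.  `≤` is the triangle inequality.
* `local_line`: prove `∀ n : ℕ, ∀ i, d (c i) (c (i + n)) = n` by (strong) induction on `n`.  Step from
  `n, n - 1` to `n + 1`: let `a = c i`, `p = c (i+n-1)`, `q = c (i+n)`, `r = c (i+n+1)`;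
  `d a r ∈ {n - 1, n + 1}` by triangle and parity; if `d a r = n - 1` then
  `Btw a p q` and `Btw a r q` with the same distance `n - 1` to `a`, so `p = r` (`btw_uniq`),
  contradiction to `h2`.  (`n = 0, 1` start.) -/

namespace SXP

variable {V : Type*} {d : V → V → ℕ}

private theorem tl_self (h : TM d) (x : V) : d x x = 0 := (h.zero x x).2 rfl

private theorem tl_btw (h : TM d) {c : ℤ → V} (hc : IsLine d c) {i j : ℤ} (hij : i ≤ j) {y : V}
    (hy : Btw d (c i) y (c j)) : ∃ k, y = c k ∧ i ≤ k ∧ k ≤ j := by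
  have h0 : d (c i) y + d y (c j) = d (c i) (c j) := hy
  have h1 : (d (c i) (c j) : ℤ) = j - i := by
    rw [hc i j, abs_sub_comm, abs_of_nonneg (by omega)]
  have h2 : (d (c i) (c (i + d (c i) y)) : ℤ) = d (c i) y := by
    rw [hc i (i + d (c i) y)]
    have : i - (i + (d (c i) y : ℤ)) = -(d (c i) y : ℤ) := by ring
    rw [this, abs_neg, abs_of_nonneg (by positivity)]
  have h3 : (d (c (i + d (c i) y)) (c j) : ℤ) = j - (i + d (c i) y) := by
    rw [hc (i + d (c i) y) j, abs_sub_comm, abs_of_nonneg (by omega)]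
  have h4 : Btw d (c i) (c (i + d (c i) y)) (c j) := by
    unfold Btw
    omega
  exact ⟨_, btw_uniq h hy h4 (by omega), by omega, by omega⟩

theorem line_btw (h : TM d) {c : ℤ → V} (hc : IsLine d c) {i j : ℤ} {y : V}
    (hy : Btw d (c i) y (c j)) : ∃ k, y = c k ∧ min i j ≤ k ∧ k ≤ max i j := by
  rcases le_total i j with hij | hij
  · obtain ⟨k, h1, h2, h3⟩ := tl_btw h hc hij hy
    exact ⟨k, h1, by rw [min_eq_left hij]; exact h2, by rw [max_eq_right hij]; exact h3⟩
  · have hy' : Btw d (c j) y (c i) := by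
      have h0 : d (c i) y + d y (c j) = d (c i) (c j) := hy
      have e1 := h.symm (c i) y
      have e2 := h.symm y (c j)
      have e3 := h.symm (c i) (c j)
      unfold Btw
      omega
    obtain ⟨k, h1, h2, h3⟩ := tl_btw h hc hij hy'
    exact ⟨k, h1, by rw [min_eq_right hij]; exact h2, by rw [max_eq_left hij]; exact h3⟩

theorem line_conv (h : TM d) {c : ℤ → V} (hc : IsLine d c) : Conv d (Set.range c) := by
  rintro x ⟨i, rfl⟩ z ⟨j, rfl⟩ y hy
  obtain ⟨k, hk, -⟩ := line_btw h hc hy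
  exact ⟨k, hk.symm⟩

theorem idx_exists (h : TM d) {c : ℤ → V} (hc : IsLine d c) (y : V) : ∃ i, IsIdx d c y i := by
  classical
  have hex : ∃ n : ℕ, ∃ i, d y (c i) = n := ⟨_, 0, rfl⟩
  obtain ⟨i, hi⟩ := Nat.find_spec hex
  refine ⟨i, fun n => ?_⟩
  obtain ⟨m, h1, h2, h3⟩ := median h y (c i) (c n)
  obtain ⟨k, hk, -⟩ := line_btw h hc h2
  subst hk
  have h4 : Nat.find hex ≤ d y (c k) := Nat.find_min' hex ⟨k, rfl⟩
  have h5 : d y (c k) + d (c k) (c i) = d y (c i) := h1
  have h6 : d (c k) (c i) = 0 := by omega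
  have h7 : c k = c i := (h.zero _ _).1 h6
  rw [h7] at h3
  have h8 : d y (c i) + d (c i) (c n) = d y (c n) := h3
  have h9 := hc i n
  rw [abs_sub_comm] at h9
  rw [← h9]
  exact_mod_cast h8.symm

theorem idx_uniq {c : ℤ → V} {y : V} {i j : ℤ} (hi : IsIdx d c y i) (hj : IsIdx d c y j) :
    i = j := by
  have h1 := hi j
  have h2 := hj i
  rw [abs_sub_comm] at h2
  have h3 : |j - i| = 0 := by linarith
  have h4 := abs_eq_zero.1 h3
  omega

theorem idx_self (h : TM d) {c : ℤ → V} (hc : IsLine d c) (i : ℤ) : IsIdx d c (c i) i := by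
  intro n
  rw [tl_self h, hc i n, abs_sub_comm]
  simp

theorem idx2 (h : TM d) {c : ℤ → V} (hc : IsLine d c) {y z : V} {i j : ℤ}
    (hi : IsIdx d c y i) (hj : IsIdx d c z j) (hij : i ≠ j) :
    (d y z : ℤ) = d y (c i) + |i - j| + d z (c j) := by
  have h1 := hi j
  have h2 := hj i
  have h3 := hc i j
  rw [abs_sub_comm] at h1
  have h4 : 1 ≤ |i - j| := Int.one_le_abs (sub_ne_zero.2 hij)
  rw [← h3] at h1 h2 h4 ⊢
  have h5 := h.four y (c j) z (c i)
  have h6 := h.tri y (c i) z
  have h7 := h.symm (c i) z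
  have h8 := h.symm (c j) (c i)
  have h9 := h.symm (c j) z
  rw [le_max_iff] at h5
  omega

private theorem tl_loc (h : TM d) {c : ℤ → V} (h1 : ∀ n, d (c n) (c (n + 1)) = 1)
    (h2 : ∀ n, c n ≠ c (n + 2)) (n : ℕ) :
    (∀ i, d (c i) (c (i + n)) = n) ∧ (∀ i, d (c i) (c (i + ((n + 1 : ℕ) : ℤ))) = n + 1) := by
  induction n with
  | zero =>
    refine ⟨fun i => ?_, fun i => ?_⟩
    · have : i + ((0 : ℕ) : ℤ) = i := by simp
      rw [this]
      exact tl_self h _
    · exact h1 i
  | succ n ih =>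
    refine ⟨ih.2, fun i => ?_⟩
    have ha := ih.1 i
    have hb := ih.2 i
    have e1 : i + ((n + 1 : ℕ) : ℤ) = i + n + 1 := by push_cast; ring
    have e2 : i + ((n + 1 + 1 : ℕ) : ℤ) = i + n + 2 := by push_cast; ring
    have e3 : i + (n : ℤ) + 1 + 1 = i + n + 2 := by ring
    have hpq := h1 (i + n)
    have hqr := h1 (i + n + 1)
    rw [e3] at hqr
    rw [e2]
    rw [e1] at hb
    have t1 := h.tri (c i) (c (i + n + 1)) (c (i + n + 2))
    have t2 := h.tri (c i) (c (i + n + 2)) (c (i + n + 1))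
    have t3 := h.symm (c (i + n + 2)) (c (i + n + 1))
    have t4 := h.par (c i) (c (i + n + 1)) (c (i + n + 2))
    by_contra hne
    have h3 : d (c i) (c (i + n + 2)) = n := by omega
    have hB1 : Btw d (c i) (c (i + n)) (c (i + n + 1)) := by
      unfold Btw
      omega
    have hB2 : Btw d (c i) (c (i + n + 2)) (c (i + n + 1)) := by
      unfold Btw
      omega
    exact h2 (i + n) (btw_uniq h hB1 hB2 (by omega))

theorem local_line (h : TM d) {c : ℤ → V} (h1 : ∀ n, d (c n) (c (n + 1)) = 1)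
    (h2 : ∀ n, c n ≠ c (n + 2)) : IsLine d c := by
  intro i j
  rcases le_total i j with hij | hij
  · obtain ⟨n, hn⟩ := Int.eq_ofNat_of_zero_le (sub_nonneg.2 hij)
    have e1 : j = i + n := by omega
    have e2 := (tl_loc h h1 h2 n).1 i
    rw [e1, e2]
    have e3 : i - (i + (n : ℤ)) = -(n : ℤ) := by ring
    rw [e3, abs_neg, abs_of_nonneg (by positivity)]
  · obtain ⟨n, hn⟩ := Int.eq_ofNat_of_zero_le (sub_nonneg.2 hij)
    have e1 : i = j + n := by omega
    have e2 := (tl_loc h h1 h2 n).1 j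
    rw [e1, h.symm, e2]
    have e3 : j + (n : ℤ) - j = (n : ℤ) := by ring
    rw [e3, abs_of_nonneg (by positivity)]

end SXP
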