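import Mathlib

/-! Project SXP, definitions for the tree part.  `TM d`: the pair `(V, d)` is the vertex set of a
simplicial tree with its path metric (axioms: metric, integer geodesics, four point condition,
parity). -/

namespace SXP

/-- `d` is the path metric of a simplicial tree on the vertex set `V`. -/
structure TM {V : Type*} (d : V → V → ℕ) : Prop where
  zero : ∀ x y, d x y = 0 ↔ x = y
  symm : ∀ x y, d x y = d y x
  tri : ∀ x y z, d x z ≤ d x y + d y z
  step : ∀ x y n, d x y = n + 1 → ∃ z, d x z = 1 ∧ d z y = n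
  four : ∀ x y z w, d x y + d z w ≤ max (d x z + d y w) (d x w + d y z)
  par : ∀ x y z, (d x y + d y z + d x z) % 2 = 0

/-- `y` lies between `x` and `z`. -/
def Btw {V : Type*} (d : V → V → ℕ) (x y z : V) : Prop := d x y + d y z = d x z

/-- Convex sets (subtrees, possibly empty). -/
def Conv {V : Type*} (d : V → V → ℕ) (W : Set V) : Prop :=
  ∀ x ∈ W, ∀ z ∈ W, ∀ y, Btw d x y z → y ∈ W

/-- Bi-infinite geodesics. -/
def IsLine {V : Type*} (d : V → V → ℕ) (c : ℤ → V) : Prop :=
  ∀ i j : ℤ, (d (c i) (c j) : ℤ) = |i - j|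

/-- `i` is the index of the projection (gate) of `y` to the line `c`. -/
def IsIdx {V : Type*} (d : V → V → ℕ) (c : ℤ → V) (y : V) (i : ℤ) : Prop :=
  ∀ n : ℤ, (d y (c n) : ℤ) = d y (c i) + |n - i|

/-- The set of vertices of minimal displacement of `g` (the axis, if `g` is hyperbolic). -/
def Ax {V G : Type*} [Group G] [MulAction G V] (d : V → V → ℕ) (g : G) : Set V :=
  {v | ∀ u, d v (g • v) ≤ d u (g • u)}

end SXP
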