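import Pool.Agent.SXP.WNF

/-! Project SXP, module SXP-WAdj: key lemma towards a vertex far from all translates lies on at most
one line.

Let `c, τ, s, t` be the chart of `a` (`tt_chart`), `u = c i`.
(1) For all `n : ℤ` and `s ≤ k ≤ t`: `a ^ n • c k = c (k + n τ)` (`line_pow`), `a ^ n ∈ G1`, so `hfar`
gives `2 ≤ |i - (k + n τ)|`; hence for every `n`, `i ∉ [s - 1 + n τ, t + 1 + n τ]`.
(2) `nf` for `h`: get `n` with `∀ w ∈ W, a ^ n • h • w ∉ DD d W a`.  Let `j` be the index of `h • q`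
(`idx_exists`).  The index of `a ^ n • h • q` is `j + n τ` (`idx_pow`), so `s - 1 ≤ j + n τ ≤ t + 1`
(`idx_DD`).  By (1) (with `-n`) `i + n τ ∉ [s - 1, t + 1]`, so `i ≠ j`.
(3) `idx2` for `h • q` (index `j`) and `u = c i` (index `i`, `idx_self`):
`d (h • q) u = d (h • q) (c j) + |j - i|`, so `Btw (h • q) (c j) u`.  Both ends are in `Ax d z`, which
is convex (`ax_line` for `z` and `line_conv`), so `c j ∈ Ax d z`.  `c j, c i ∈ Ax d a ∩ Ax d z`, so
`|j - i| ≤ 1` by `hC.ov`, so `= 1`.  Put `v := c j`.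
(4) By (2) `j + n τ = t + 1, i + n τ = t + 2` or `j + n τ = s - 1, i + n τ = s - 2`.  In the first
case put `w := c t`, `h' := a ^ (-n)`, `h' • w = c (t - n τ) = c (j - 1)`; in the second `w := c s`.
`a ^ n • v = c (j + n τ) ∉ W` by `mem`, so `v ∉ h' W`. -/

namespace SXP

variable {V G : Type*} [Group G] [MulAction G V] {d : V → V → ℕ} {R : Set G} {W : Set V}

theorem ax_conv (hC : Ctx d R) [Nonempty V] {x : G} (hx : x ∈ R) : Conv d (Ax d x) := by
  obtain ⟨c, τ, hc, _, hr, _⟩ := ax_line hC hx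
  have he : Ax d x = Set.range c := by
    ext v
    rw [hr v]
    constructor
    · rintro ⟨n, hn⟩
      exact ⟨n, hn.symm⟩
    · rintro ⟨n, hn⟩
      exact ⟨n, hn.symm⟩
  rw [he]
  exact line_conv hC.tm hc

theorem adj_lemma (hC : Ctx d R) (hW : WM d R W) {a z h : G} (ha : a ∈ TT d R W)
    (hz : z ∈ R) (haz : a ≠ z) (hh : h ∈ G1 d R W) {u q : V} (hua : u ∈ Ax d a)
    (huz : u ∈ Ax d z) (hq : q ∈ W) (hqz : h • q ∈ Ax d z)
    (hfar : ∀ k ∈ G1 d R W, ∀ w ∈ W, 2 ≤ d u (k • w)) :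
    ∃ h' ∈ G1 d R W, ∃ w ∈ W, ∃ v, v ∈ Ax d a ∧ v ∈ Ax d z ∧ d v u = 1 ∧
      h' • w ∈ Ax d a ∧ d (h' • w) v = 1 ∧ d (h' • w) u = 2 ∧ h'⁻¹ • v ∉ W := by
  have : Nonempty V := ⟨u⟩
  have haR : a ∈ R := ha.1
  have haG : a ∈ G1 d R W := Subgroup.subset_closure (Or.inr ha)
  obtain ⟨c, τ, s, t, hT⟩ := tt_chart hC hW ha
  obtain ⟨i, hi⟩ := (hT.rng u).1 hua
  subst hi
  have hst := hT.st
  have hts := hT.ts
  -- (1)
  have h1 : ∀ n : ℤ, ¬ (s - 1 + n * τ ≤ i ∧ i ≤ t + 1 + n * τ) := by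
    rintro n ⟨ha1, ha2⟩
    have key : ∀ k : ℤ, s ≤ k → k ≤ t → (2 : ℤ) ≤ |i - (k + n * τ)| := by
      intro k hk1 hk2
      have hkW : c k ∈ W := (hT.mem k).2 ⟨hk1, hk2⟩
      have h2 := hfar (a ^ n) (Subgroup.zpow_mem _ haG n) (c k) hkW
      rw [line_pow hT.tr n k] at h2
      rw [← hT.line i (k + n * τ)]
      exact_mod_cast h2
    rcases le_total (i - n * τ) s with h3 | h3
    · have h4 := key s le_rfl hst
      have h5 : |i - (s + n * τ)| ≤ 1 := abs_le.2 ⟨by linarith, by linarith⟩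
      linarith
    · rcases le_total t (i - n * τ) with h4 | h4
      · have h6 := key t hst le_rfl
        have h5 : |i - (t + n * τ)| ≤ 1 := abs_le.2 ⟨by linarith, by linarith⟩
        linarith
      · have h6 := key (i - n * τ) h3 h4
        have h5 : i - (i - n * τ + n * τ) = 0 := by ring
        rw [h5, abs_zero] at h6
        linarith
  -- (2)
  obtain ⟨n, hn⟩ := (nf hC hW hh).2 a ha
  obtain ⟨j, hj⟩ := idx_exists hC.tm hT.line (h • q)
  have hjn := (idx_pow hC.iso hT.tr hj n).1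
  have hnD := hn q hq
  rw [idx_DD hC hW hT hjn] at hnD
  have hjt : j + n * τ ≤ t + 1 := by
    by_contra hcon
    exact hnD (Or.inl (by omega))
  have hjs : s - 1 ≤ j + n * τ := by
    by_contra hcon
    exact hnD (Or.inr (by omega))
  have hin := h1 (-n)
  have hin' : ¬ (s - 1 ≤ i + n * τ ∧ i + n * τ ≤ t + 1) := by
    rintro ⟨e1, e2⟩
    apply hin
    constructor
    · linarith
    · linarith
  have hij : j ≠ i := by
    intro e
    apply hin'
    rw [← e]
    exact ⟨hjs, hjt⟩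
  -- (3)
  have h3 := idx2 hC.tm hT.line hj (idx_self hC.tm hT.line i) hij
  have h0 : d (c i) (c i) = 0 := (hC.tm.zero _ _).2 rfl
  have hji : (d (c j) (c i) : ℤ) = |j - i| := hT.line j i
  have hB : Btw d (h • q) (c j) (c i) := by
    unfold Btw
    rw [h0] at h3
    have h4 : ((d (h • q) (c j) + d (c j) (c i) : ℕ) : ℤ) = (d (h • q) (c i) : ℕ) := by
      push_cast
      rw [h3, hji]
      push_cast
      ring
    exact_mod_cast h4
  have hcz : c j ∈ Ax d z := ax_conv hC hz _ hqz _ huz _ hB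
  have hca : c j ∈ Ax d a := (hT.rng _).2 ⟨j, rfl⟩
  have hov := hC.ov a haR z hz haz (c j) (c i) hca hcz hua huz
  have hle : |j - i| ≤ 1 := by
    rw [← hji]
    exact_mod_cast hov
  have hle' := abs_le.1 hle
  have hd1 : d (c j) (c i) = 1 := by
    have h5 : (0 : ℤ) < |j - i| := abs_pos.2 (sub_ne_zero.2 hij)
    rw [← hji] at h5
    have h6 : 0 < d (c j) (c i) := by exact_mod_cast h5
    omega
  have hrep : ∀ k : ℤ, (a ^ (-n)) • c k = c (k - n * τ) := by
    intro k
    rw [line_pow hT.tr (-n) k]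
    congr 1
    ring
  have hinv : (a ^ (-n))⁻¹ • c j = c (j + n * τ) := by
    rw [zpow_neg, inv_inv, line_pow hT.tr n j]
  have hGn : a ^ (-n) ∈ G1 d R W := Subgroup.zpow_mem _ haG _
  have hcase : (j + n * τ = t + 1 ∧ i = j + 1) ∨ (j + n * τ = s - 1 ∧ i = j - 1) := by
    have hi3 : i = j + 1 ∨ i = j - 1 := by omega
    rcases hi3 with e | e
    · left
      refine ⟨?_, e⟩
      by_contra hne
      apply hin'
      rw [e]
      constructor
      · linarith
      · have h7 : j + n * τ < t + 1 := lt_of_le_of_ne hjt hne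
        have h8 : j + n * τ + 1 ≤ t + 1 := h7
        linarith
    · right
      refine ⟨?_, e⟩
      by_contra hne
      apply hin'
      rw [e]
      constructor
      · have h7 : s - 1 < j + n * τ := lt_of_le_of_ne hjs (Ne.symm hne)
        have h8 : s - 1 + 1 ≤ j + n * τ := h7
        linarith
      · linarith
  rcases hcase with ⟨e1, e2⟩ | ⟨e1, e2⟩
  · have hwt : (a ^ (-n)) • c t = c (j - 1) := by
      rw [hrep t]
      congr 1
      linarith
    refine ⟨a ^ (-n), hGn, c t, (hT.mem t).2 ⟨hst, le_rfl⟩, c j, hca, hcz, hd1, ?_, ?_, ?_, ?_⟩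
    · rw [hwt]
      exact (hT.rng _).2 ⟨j - 1, rfl⟩
    · rw [hwt]
      have h9 : (d (c (j - 1)) (c j) : ℤ) = 1 := by
        rw [hT.line, show j - 1 - j = -1 by ring]
        rfl
      exact_mod_cast h9
    · rw [hwt]
      have h9 : (d (c (j - 1)) (c i) : ℤ) = 2 := by
        rw [hT.line, show j - 1 - i = -2 by rw [e2]; ring]
        rfl
      exact_mod_cast h9
    · rw [hinv, hT.mem]
      rintro ⟨_, h10⟩
      rw [e1] at h10
      linarith
  · have hwt : (a ^ (-n)) • c s = c (j + 1) := by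
      rw [hrep s]
      congr 1
      linarith
    refine ⟨a ^ (-n), hGn, c s, (hT.mem s).2 ⟨le_rfl, hst⟩, c j, hca, hcz, hd1, ?_, ?_, ?_, ?_⟩
    · rw [hwt]
      exact (hT.rng _).2 ⟨j + 1, rfl⟩
    · rw [hwt]
      have h9 : (d (c (j + 1)) (c j) : ℤ) = 1 := by
        rw [hT.line, show j + 1 - j = 1 by ring]
        rfl
      exact_mod_cast h9
    · rw [hwt]
      have h9 : (d (c (j + 1)) (c i) : ℤ) = 2 := by
        rw [hT.line, show j + 1 - i = 2 by rw [e2]; ring]
        rfl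
      exact_mod_cast h9
    · rw [hinv, hT.mem]
      rintro ⟨h10, _⟩
      rw [e1] at h10
      linarith

end SXP
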