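import Pool.Agent.SXP.Wind
import Pool.Agent.SXP.TConj
import Pool.Agent.SXP.TGate

/-! Project SXP, module SXP-WChart: charts of the axes of the elements of `TT`, and the indices of
the vertices of `W` and of the ping-pong domain `DD`. -/

namespace SXP

variable {V G : Type*} [Group G] [MulAction G V] {d : V → V → ℕ} {R : Set G} {W : Set V}

theorem ax_line (hC : Ctx d R) [Nonempty V] {x : G} (hx : x ∈ R) :
    ∃ (c : ℤ → V) (τ : ℕ), IsLine d c ∧ (∀ n : ℤ, x • c n = c (n + τ)) ∧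
      (∀ v, v ∈ Ax d x ↔ ∃ n, v = c n) ∧ 6 ≤ τ := by
  obtain ⟨c, τ, hline, htr, hrng, -⟩ := axis hC.tm hC.iso x
    (fun v => le_trans (by norm_num) (hC.six x hx v))
  refine ⟨c, τ, hline, htr, hrng, ?_⟩
  have h1 := hC.six x hx (c 0)
  rw [htr 0] at h1
  have h2 := hline 0 (0 + τ)
  rw [abs_eq_max_neg] at h2
  omega

theorem tt_chart (hC : Ctx d R) (hW : WM d R W) {x : G} (hx : x ∈ TT d R W) :
    ∃ (c : ℤ → V) (τ : ℕ) (s t : ℤ), TCh d W x c τ s t := by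
  haveI : Nonempty V := ⟨hW.ne.some⟩
  obtain ⟨hxR, ⟨a, ha1, ha2⟩, hxW⟩ := hx
  obtain ⟨c, τ, hline, htr, hrng, h6⟩ := ax_line hC hxR
  obtain ⟨i0, hi0⟩ := (hrng a).1 ha1
  rw [hi0] at ha2
  have hd : ∀ i j : ℤ, c i ∈ W → c j ∈ W → |i - j| ≤ 2 := by
    intro i j hi hj
    rcases hW.p3 x hxR with h1 | h1
    · exact absurd h1 hxW
    · have h2 := h1 (c i) (c j) ((hrng _).2 ⟨i, rfl⟩) hi ((hrng _).2 ⟨j, rfl⟩) hj
      rw [← hline i j]
      exact_mod_cast h2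
  obtain ⟨s, hs1, hs2⟩ := Int.exists_least_of_bdd (P := fun i => c i ∈ W)
    ⟨i0 - 2, fun z hz => by
      have h1 := hd z i0 hz ha2
      rw [abs_eq_max_neg] at h1
      omega⟩ ⟨i0, ha2⟩
  obtain ⟨t, ht1, ht2⟩ := Int.exists_greatest_of_bdd (P := fun i => c i ∈ W)
    ⟨i0 + 2, fun z hz => by
      have h1 := hd z i0 hz ha2
      rw [abs_eq_max_neg] at h1
      omega⟩ ⟨i0, ha2⟩
  refine ⟨c, τ, s, t, hline, htr, hrng, h6, hs2 t ht1, ?_, ?_⟩
  · have h1 := hd s t hs1 ht1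
    rw [abs_eq_max_neg] at h1
    omega
  · intro i
    constructor
    · intro hi
      exact ⟨hs2 i hi, ht2 i hi⟩
    · rintro ⟨h1, h2⟩
      refine hW.conv (c s) hs1 (c t) ht1 (c i) ?_
      unfold Btw
      have g1 := hline s i
      have g2 := hline i t
      have g3 := hline s t
      rw [abs_eq_max_neg] at g1 g2 g3
      omega

theorem idx_W (hC : Ctx d R) (hW : WM d R W) {x : G} {c : ℤ → V} {τ : ℕ} {s t : ℤ}
    (hT : TCh d W x c τ s t) {w : V} {i : ℤ} (hw : w ∈ W) (hi : IsIdx d c w i) :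
    s ≤ i ∧ i ≤ t := by
  have hs : c s ∈ W := (hT.mem s).2 ⟨le_rfl, hT.st⟩
  refine (hT.mem i).1 (hW.conv w hw (c s) hs (c i) ?_)
  unfold Btw
  have g1 := hi s
  have g2 := hT.line i s
  rw [abs_eq_max_neg] at g1 g2
  omega

theorem idx_DD (hC : Ctx d R) (hW : WM d R W) {x : G} {c : ℤ → V} {τ : ℕ} {s t : ℤ}
    (hT : TCh d W x c τ s t) {y : V} {i : ℤ} (hi : IsIdx d c y i) :
    y ∈ DD d W x ↔ (t + 2 ≤ i ∨ i ≤ s - 2) := by
  constructor
  · rintro ⟨a, ha, h1, h2⟩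
    obtain ⟨j, rfl⟩ := (hT.rng a).1 ha
    have hs : c s ∈ W := (hT.mem s).2 ⟨le_rfl, hT.st⟩
    have ht : c t ∈ W := (hT.mem t).2 ⟨hT.st, le_rfl⟩
    have hj : ¬ (s ≤ j ∧ j ≤ t) := by
      intro h3
      have h4 := h1 (c j) ((hT.mem j).2 h3)
      rw [(hC.tm.zero _ _).2 rfl] at h4
      omega
    have k1 := h1 (c s) hs
    have k2 := h1 (c t) ht
    have l1 := hT.line j s
    have l2 := hT.line j t
    have b1 := h2 (c s) hs
    have b2 := h2 (c t) ht
    unfold Btw at b1 b2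
    have i1 := hi s
    have i2 := hi t
    have i3 := hi j
    rw [abs_eq_max_neg] at l1 l2 i1 i2 i3
    have hst := hT.st
    omega
  · intro h
    refine ⟨c i, (hT.rng _).2 ⟨i, rfl⟩, ?_, ?_⟩
    · intro w hw
      obtain ⟨k, hk⟩ := idx_exists hC.tm hT.line w
      obtain ⟨hk1, hk2⟩ := idx_W hC hW hT hw hk
      have g1 := hk i
      rw [hC.tm.symm (c i) w]
      rw [abs_eq_max_neg] at g1
      omega
    · intro w hw
      obtain ⟨k, hk⟩ := idx_exists hC.tm hT.line w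
      obtain ⟨hk1, hk2⟩ := idx_W hC hW hT hw hk
      have hik : i ≠ k := by omega
      have g1 := hk i
      have g2 := idx2 hC.tm hT.line hi hk hik
      have g3 := hC.tm.symm (c i) w
      unfold Btw
      rw [abs_eq_max_neg] at g1 g2
      omega

end SXP
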