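import Pool.Agent.SXP.WPing
import Pool.Agent.SXP.WDisj

/-! Project SXP, module SXP-WNF: the normal form. -/

namespace SXP

variable {V G : Type*} [Group G] [MulAction G V] {d : V → V → ℕ} {R : Set G} {W : Set V}

theorem gw_W (hW : WM d R W) {g : G} (hg : g ∈ GW d R W) (w : V) : g • w ∈ W ↔ w ∈ W := by
  refine ⟨fun h => ?_, fun h => hW.p1 g hg w h⟩
  have h1 := hW.p1 g⁻¹ (inv_mem hg) _ h
  rwa [inv_smul_smul] at h1

theorem tt_conj (hC : Ctx d R) (hW : WM d R W) {k x : G} (hk : k ∈ GW d R W)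
    (hx : x ∈ TT d R W) : k * x * k⁻¹ ∈ TT d R W := by
  obtain ⟨hR, ⟨a, ha1, ha2⟩, h3⟩ := hx
  refine ⟨hC.conj k x hR, ⟨k • a, (ax_conj hC.iso x k a).2 ha1, hW.p1 k hk a ha2⟩, fun h => h3 ?_⟩
  intro v hv
  exact (gw_W hW hk v).1 (h ((ax_conj hC.iso x k v).2 hv))

/-- normal forms -/
private inductive NF (d : V → V → ℕ) (R : Set G) (W : Set V) : G → Prop
  | base (g : G) (hg : g ∈ GW d R W) : NF d R W g
  | step (x h : G) (n : ℤ) (hx : x ∈ TT d R W) (hn : n ≠ 0) (hh : NF d R W h)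
      (hd : ∀ w ∈ W, h • w ∉ DD d W x) : NF d R W (x ^ n * h)

private theorem dd_conj (hC : Ctx d R) (hW : WM d R W) {k x : G} (hk : k ∈ GW d R W) {u : V}
    (h : k • u ∈ DD d W (k * x * k⁻¹)) : u ∈ DD d W x := by
  obtain ⟨a, ha1, ha2, ha3⟩ := h
  have hka : k • (k⁻¹ • a) = a := smul_inv_smul k a
  refine ⟨k⁻¹ • a, ?_, fun w hw => ?_, fun w hw => ?_⟩
  · rw [← ax_conj hC.iso x k, hka]
    exact ha1
  · rw [← hC.iso k, hka]
    exact ha2 _ (hW.p1 k hk w hw)
  · have h1 := ha3 _ (hW.p1 k hk w hw)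
    unfold Btw at h1 ⊢
    rw [← hC.iso k u (k⁻¹ • a), ← hC.iso k (k⁻¹ • a) w, ← hC.iso k u w, hka]
    exact h1

private theorem nf1 (hC : Ctx d R) (hW : WM d R W) {g : G} (hg : NF d R W g) :
    g ∈ GW d R W ∨ ∃ (x h : G) (n : ℤ), x ∈ TT d R W ∧ n ≠ 0 ∧ NF d R W h ∧ g = x ^ n * h ∧
      (∀ w ∈ W, h • w ∉ DD d W x) ∧ (∀ w ∈ W, g • w ∈ DD d W x) ∧
      ∀ w ∈ W, ∀ w' ∈ W, 4 ≤ d (g • w) w' := by
  induction hg with
  | base g hg => exact Or.inl hg
  | step x h n hx hn hh hd ih =>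
    right
    have key : ∀ w ∈ W, (x ^ n * h) • w ∈ DD d W x ∧ ∀ w' ∈ W, 4 ≤ d ((x ^ n * h) • w) w' := by
      intro w hw
      rw [mul_smul]
      refine pingpong hC hW hx (hd w hw) ?_ hn
      rcases ih with ih | ⟨x', h', n', _, _, _, _, _, _, h7⟩
      · exact Or.inl (hW.p1 h ih w hw)
      · right
        intro w' hw'
        have := h7 w hw w' hw'
        omega
    exact ⟨x, h, n, hx, hn, hh, rfl, hd, fun w hw => (key w hw).1, fun w hw => (key w hw).2⟩

private theorem nf_left (hC : Ctx d R) (hW : WM d R W) {k g : G} (hk : k ∈ GW d R W)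
    (hg : NF d R W g) : NF d R W (k * g) := by
  induction hg with
  | base g hg => exact NF.base _ (mul_mem hk hg)
  | step x h n hx hn hh hd ih =>
    have e : k * (x ^ n * h) = (k * x * k⁻¹) ^ n * (k * h) := by
      rw [conj_zpow]
      group
    rw [e]
    refine NF.step _ _ n (tt_conj hC hW hk hx) hn ih fun w hw h1 => hd w hw ?_
    rw [mul_smul] at h1
    exact dd_conj hC hW hk h1

private theorem nf_pow (hC : Ctx d R) (hW : WM d R W) {y g : G} (hy : y ∈ TT d R W) (m : ℤ)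
    (hg : NF d R W g) : NF d R W (y ^ m * g) := by
  by_cases hm : m = 0
  · rw [hm, zpow_zero, one_mul]
    exact hg
  by_cases H : ∀ w ∈ W, g • w ∉ DD d W y
  · exact NF.step y g m hy hm hg H
  push Not at H
  obtain ⟨w, hw, hwd⟩ := H
  rcases nf1 hC hW hg with h1 | ⟨x, h, n, hx, hn, hh, he, hd, hD, h4⟩
  · exact absurd (hW.p1 g h1 w hw) (dd_notW hC hwd)
  · by_cases hxy : x = y
    · subst hxy
      rw [he, ← mul_assoc, ← zpow_add]
      by_cases hmn : m + n = 0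
      · rw [hmn, zpow_zero, one_mul]
        exact hh
      · exact NF.step x h (m + n) hx hmn hh hd
    · exact absurd (dd_disj hC hW hx hy hxy (hD w hw) hwd) not_false

private theorem nf_all (hC : Ctx d R) (hW : WM d R W) {g : G} (hg : g ∈ G1 d R W) :
    ∀ h, NF d R W h → NF d R W (g * h) ∧ NF d R W (g⁻¹ * h) := by
  unfold G1 at hg
  induction hg using Subgroup.closure_induction with
  | mem x hx =>
    intro h hh
    rcases hx with hx | hx
    · have hx' : x ∈ GW d R W := Subgroup.subset_closure hx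
      exact ⟨nf_left hC hW hx' hh, nf_left hC hW (inv_mem hx') hh⟩
    · have h1 := nf_pow hC hW hx 1 hh
      have h2 := nf_pow hC hW hx (-1) hh
      rw [zpow_one] at h1
      rw [zpow_neg_one] at h2
      exact ⟨h1, h2⟩
  | one =>
    intro h hh
    rw [inv_one, one_mul]
    exact ⟨hh, hh⟩
  | mul x y _ _ ihx ihy =>
    intro h hh
    constructor
    · rw [mul_assoc]
      exact (ihx _ (ihy h hh).1).1
    · rw [mul_inv_rev, mul_assoc]
      exact (ihy _ (ihx h hh).2).2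
  | inv x _ ih =>
    intro h hh
    rw [inv_inv]
    exact ⟨(ih h hh).2, (ih h hh).1⟩

theorem nf (hC : Ctx d R) (hW : WM d R W) {g : G} (hg : g ∈ G1 d R W) :
    (g ∈ GW d R W ∨ ∀ w ∈ W, ∀ w' ∈ W, 4 ≤ d (g • w) w') ∧
      ∀ a ∈ TT d R W, ∃ n : ℤ, ∀ w ∈ W, a ^ n • g • w ∉ DD d W a := by
  have hN : NF d R W g := by
    have := (nf_all hC hW hg 1 (NF.base 1 (one_mem _))).1
    rwa [mul_one] at this
  rcases nf1 hC hW hN with h1 | ⟨x, h, n, hx, hn, hh, he, hd, hD, h4⟩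
  · refine ⟨Or.inl h1, fun a _ => ⟨0, fun w hw h2 => ?_⟩⟩
    rw [zpow_zero, one_smul] at h2
    exact dd_notW hC h2 (hW.p1 g h1 w hw)
  · refine ⟨Or.inr h4, fun a ha => ?_⟩
    by_cases hxa : x = a
    · subst hxa
      refine ⟨-n, fun w hw h2 => hd w hw ?_⟩
      rw [he, mul_smul, zpow_neg, inv_smul_smul] at h2
      exact h2
    · refine ⟨0, fun w hw h2 => ?_⟩
      rw [zpow_zero, one_smul] at h2
      exact dd_disj hC hW hx ha hxa (hD w hw) h2

/-- consequence: two vertices of translates at distance `≤ 3` lie in the same translate -/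
theorem near_same (hC : Ctx d R) (hW : WM d R W) {g h : G} (hg : g ∈ G1 d R W)
    (hh : h ∈ G1 d R W) {w w' : V} (hw : w ∈ W) (hw' : w' ∈ W) (hd : d (g • w) (h • w') ≤ 3) :
    g⁻¹ * h ∈ GW d R W := by
  have hk : g⁻¹ * h ∈ G1 d R W := mul_mem (inv_mem hg) hh
  rcases (nf hC hW hk).1 with h1 | h1
  · exact h1
  · have h2 := h1 w' hw' w hw
    rw [← hC.iso g, ← mul_smul, mul_inv_cancel_left, hC.tm.symm] at h2
    omega

end SXP
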