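import Pool.Agent.SXP.WAdj

/-! Project SXP, module SXP-WUniq: a vertex at distance at least two from all translates of `W` lies
on at most one line of the windmill.

`line_uniq0`: put `z := g * b * g⁻¹ ∈ R`, suppose `a ≠ z`.
(1) `adj_lemma` for `a, z, h := g, u` and `q ∈ W ∩ Ax d b` (`b ∈ TT`), `g • q ∈ Ax d z` by `ax_conj`:
get `h', w, v`.
(2) `adj_lemma` for `b`, `z' := g⁻¹ * a * g ∈ R`, `b ≠ z'`, `h := g⁻¹`, `u' := g⁻¹ • u` (`∈ Ax d b` and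
`∈ Ax d z'` by `ax_conj`), `q' ∈ W ∩ Ax d a`, `g⁻¹ • q' ∈ Ax d z'`; `hfar` is transported by `hC.iso`:
get `h₂, w₂, v₂`.  Put `v' := g • v₂`, `f := g * h₂`: `v' ∈ Ax d z ∩ Ax d a`, `d v' u = 1`,
`f • w₂ ∈ Ax d z`, `d (f • w₂) v' = 1`.
(3) `v = v'`: both in `Ax d a ∩ Ax d z`, so `d v v' ≤ 1` (`hC.ov`), and `d v v'` is even by parity
(`hC.tm.par`), so `0`.
(4) `d (h' • w) (f • w₂) ≤ 2`, so `h'⁻¹ * f ∈ GW` (`near_same`), so `w₃ := h'⁻¹ • f • w₂ ∈ W` (`gw_W`).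
In `W`: `w` and `w₃` are both adjacent to `h'⁻¹ • v ∉ W`, so `w = w₃` by `nbr_eq`, i.e.
`h' • w = f • w₂ ∈ Ax d z`.
(5) `h' • w` and `u` are in `Ax d a ∩ Ax d z` with distance `2`: contradiction to `hC.ov`.

`line_uniq`: apply `line_uniq0` with `a`, `g := g₁⁻¹ * g₂`, `u := g₁⁻¹ • u` and conjugate back. -/

namespace SXP

variable {V G : Type*} [Group G] [MulAction G V] {d : V → V → ℕ} {R : Set G} {W : Set V}

theorem line_uniq0 (hC : Ctx d R) (hW : WM d R W) {a b g : G} (ha : a ∈ TT d R W)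
    (hb : b ∈ TT d R W) (hg : g ∈ G1 d R W) {u : V} (hua : u ∈ Ax d a)
    (hub : u ∈ Ax d (g * b * g⁻¹)) (hfar : ∀ k ∈ G1 d R W, ∀ w ∈ W, 2 ≤ d u (k • w)) :
    a = g * b * g⁻¹ := by
  by_contra hne
  have h := hC.tm
  have hz : g * b * g⁻¹ ∈ R := hC.conj g b hb.1
  obtain ⟨q, hqb, hqW⟩ := hb.2.1
  have hgq : g • q ∈ Ax d (g * b * g⁻¹) := (ax_conj hC.iso b g q).2 hqb
  obtain ⟨h', hh', w, hw, v, hva, hvz, hvu, hwa, hwv, hwu, hvW⟩ :=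
    adj_lemma hC hW ha hz hne hg hua hub hqW hgq hfar
  have hg' : g⁻¹ ∈ G1 d R W := inv_mem hg
  have hz' : g⁻¹ * a * (g⁻¹)⁻¹ ∈ R := hC.conj g⁻¹ a ha.1
  have hne' : b ≠ g⁻¹ * a * (g⁻¹)⁻¹ := by
    intro he
    apply hne
    rw [he]
    group
  obtain ⟨q', hqa', hqW'⟩ := ha.2.1
  have hgq' : g⁻¹ • q' ∈ Ax d (g⁻¹ * a * (g⁻¹)⁻¹) := (ax_conj hC.iso a g⁻¹ q').2 hqa'
  have hub' : g⁻¹ • u ∈ Ax d b := by
    rw [← ax_conj hC.iso b g (g⁻¹ • u), smul_inv_smul]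
    exact hub
  have huz' : g⁻¹ • u ∈ Ax d (g⁻¹ * a * (g⁻¹)⁻¹) := (ax_conj hC.iso a g⁻¹ u).2 hua
  have hfar' : ∀ k ∈ G1 d R W, ∀ w ∈ W, 2 ≤ d (g⁻¹ • u) (k • w) := by
    intro k hk w hw
    have h1 := hfar (g * k) (mul_mem hg hk) w hw
    rw [← hC.iso g, smul_inv_smul, smul_smul]
    exact h1
  obtain ⟨h₂, hh₂, w₂, hw₂, v₂, hv₂b, hv₂z, hv₂u, hw₂b, hw₂v, hw₂u, hv₂W⟩ :=
    adj_lemma hC hW hb hz' hne' hg' hub' huz' hqW' hgq' hfar'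
  have hv'z : g • v₂ ∈ Ax d (g * b * g⁻¹) := (ax_conj hC.iso b g v₂).2 hv₂b
  have hv'a : g • v₂ ∈ Ax d a := by
    rw [← ax_conj hC.iso a g⁻¹ (g • v₂), inv_smul_smul]
    exact hv₂z
  have hv'u : d (g • v₂) u = 1 := by
    rw [← hv₂u, ← hC.iso g v₂, smul_inv_smul]
  have hfz : (g * h₂) • w₂ ∈ Ax d (g * b * g⁻¹) := by
    rw [mul_smul]
    exact (ax_conj hC.iso b g _).2 hw₂b
  have hfv : d ((g * h₂) • w₂) (g • v₂) = 1 := by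
    rw [mul_smul, hC.iso]
    exact hw₂v
  have hvv : v = g • v₂ := by
    have h1 := hC.ov a ha.1 _ hz hne v (g • v₂) hva hvz hv'a hv'z
    have h2 := h.par v u (g • v₂)
    have h3 := h.symm u (g • v₂)
    have h4 : d v (g • v₂) = 0 := by omega
    exact (h.zero _ _).1 h4
  have hd : d (h' • w) ((g * h₂) • w₂) ≤ 3 := by
    have h1 := h.tri (h' • w) v ((g * h₂) • w₂)
    have h2 := h.symm v ((g * h₂) • w₂)
    rw [hvv] at h2 h1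
    rw [hvv] at hwv
    omega
  have hGW : h'⁻¹ * (g * h₂) ∈ GW d R W :=
    near_same hC hW hh' (mul_mem hg hh₂) hw hw₂ hd
  have hw₃ : (h'⁻¹ * (g * h₂)) • w₂ ∈ W := (gw_W hW hGW w₂).2 hw₂
  have hww : w = (h'⁻¹ * (g * h₂)) • w₂ := by
    apply nbr_eq h hW.conv hvW hw hw₃
    · rw [← hC.iso h', smul_inv_smul, h.symm]
      exact hwv
    · rw [← hC.iso h', smul_inv_smul, mul_smul, smul_inv_smul, h.symm, hvv]
      exact hfv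
  have hwz : h' • w ∈ Ax d (g * b * g⁻¹) := by
    rw [hww, mul_smul, smul_inv_smul]
    exact hfz
  have := hC.ov a ha.1 _ hz hne (h' • w) u hwa hwz hua hub
  omega

theorem line_uniq (hC : Ctx d R) (hW : WM d R W) {a b g₁ g₂ : G} (ha : a ∈ TT d R W)
    (hb : b ∈ TT d R W) (hg₁ : g₁ ∈ G1 d R W) (hg₂ : g₂ ∈ G1 d R W) {u : V}
    (hua : u ∈ Ax d (g₁ * a * g₁⁻¹)) (hub : u ∈ Ax d (g₂ * b * g₂⁻¹))
    (hfar : ∀ k ∈ G1 d R W, ∀ w ∈ W, 2 ≤ d u (k • w)) :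
    g₁ * a * g₁⁻¹ = g₂ * b * g₂⁻¹ := by
  have h1 : g₁⁻¹ • u ∈ Ax d a := by
    rw [← ax_conj hC.iso a g₁ (g₁⁻¹ • u), smul_inv_smul]
    exact hua
  have h2 : g₂⁻¹ • u ∈ Ax d b := by
    rw [← ax_conj hC.iso b g₂ (g₂⁻¹ • u), smul_inv_smul]
    exact hub
  have h3 : g₁⁻¹ • u ∈ Ax d ((g₁⁻¹ * g₂) * b * (g₁⁻¹ * g₂)⁻¹) := by
    have h4 := (ax_conj hC.iso b (g₁⁻¹ * g₂) (g₂⁻¹ • u)).2 h2
    rwa [mul_smul, smul_inv_smul] at h4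
  have h5 := line_uniq0 hC hW ha hb (mul_mem (inv_mem hg₁) hg₂) h1 h3 (by
    intro k hk w hw
    have h6 := hfar (g₁ * k) (mul_mem hg₁ hk) w hw
    rw [← hC.iso g₁, smul_inv_smul, smul_smul]
    exact h6)
  rw [h5]
  group

end SXP
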