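import Pool.Agent.SXP.WConv
import Pool.Agent.SXP.WUniq

/-! Project SXP, module SXP-WP2: `G1` acts freely on the vertices.

`near_free`: `k ∈ G1`, `k • v = v` and `d v (h • w) ≤ 1` for some `h ∈ G1`, `w ∈ W`.  Then
`d (h • w) (k • h • w) ≤ 2` (both at distance `≤ 1` from `v`), so `h⁻¹ * (k * h) ∈ GW` (`near_same` with
`g := h`, `h := k * h`), and it fixes `h⁻¹ • v`; by `hW.p2` it is `1`, so `k = 1`.

`w1_free`: suppose `k • v = v`, `k ∈ G1`, `k ≠ 1`.
(1) We may assume `v ∈ W1`: let `p` be the gate of `v` in `W1` (`gate`, `w1_conv`; `W1` contains `W`);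
`k • p` is also a gate (`w1_smul` for `k` and `k⁻¹`, `hC.iso`), so `k • p = p` (both minimise the
distance: `d v (k•p) = d v p + d p (k•p)` and `d v (k • p) = d (k • v) (k • p) = d v p`).
(2) If `d v (h • w) ≤ 1` for some `h ∈ G1`, `w ∈ W`: `near_free`.
(3) Otherwise `hfar : ∀ h ∈ G1, ∀ w ∈ W, 2 ≤ d v (h • w)`.  As `v ∈ W1`, it is on `Ax d y`,
`y = h * x * h⁻¹`, `x ∈ TT` (the first alternative has distance `0`).  `v = k • v ∈ Ax d (k*y*k⁻¹)`
(`ax_conj`), so `y = k * y * k⁻¹` by `line_uniq` (`g₂ := k * h`).  So `k` commutes with all `y ^ n` and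
fixes all `y ^ n • v`.  Let `c, τ` be a chart of `y` (`ax_line`): `v = c i`; let `q ∈ W ∩ Ax d x`,
`h • q ∈ Ax d y`, `h • q = c j`.  Choose `n` with `i - n τ ≤ j ≤ i + n τ` (`n = |i| + |j|`, `τ ≥ 1`).
`k` fixes `c (i - n τ)` and `c (i + n τ)` (`line_pow`), and `c j` is between; `k • c j` is also between
with the same distances, so `k • c j = c j` (`btw_uniq`).  Now `near_free` with `v := c j` (distance
`0` to `h • q`). -/

namespace SXP

variable {V G : Type*} [Group G] [MulAction G V] {d : V → V → ℕ} {R : Set G} {W : Set V}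

theorem near_free (hC : Ctx d R) (hW : WM d R W) {k h : G} (hk : k ∈ G1 d R W)
    (hh : h ∈ G1 d R W) {v w : V} (hw : w ∈ W) (hkv : k • v = v) (hd : d v (h • w) ≤ 1) :
    k = 1 := by
  have htm := hC.tm
  have h1 : d v ((k * h) • w) ≤ 1 := by
    have h2 : d (k • v) (k • h • w) = d v (h • w) := hC.iso k _ _
    rw [hkv, smul_smul] at h2
    omega
  have h3 : d (h • w) ((k * h) • w) ≤ 3 := by
    have h4 := htm.tri (h • w) v ((k * h) • w)
    have h5 := htm.symm (h • w) v
    omega
  have h6 : h⁻¹ * (k * h) ∈ GW d R W := near_same hC hW hh (mul_mem hk hh) hw hw h3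
  by_contra hk1
  have h7 : h⁻¹ * (k * h) ≠ 1 := by
    intro he
    apply hk1
    have h8 : k * h = h := by
      have := congrArg (fun t => h * t) he
      simpa using this
    exact mul_eq_right.1 h8
  apply hW.p2 _ h6 h7 (h⁻¹ • v)
  rw [mul_smul, mul_smul, smul_inv_smul, hkv]

theorem w1_free (hC : Ctx d R) (hW : WM d R W) {k : G} (hk : k ∈ G1 d R W) (hk1 : k ≠ 1)
    (v : V) : k • v ≠ v := by
  intro hkv
  have htm := hC.tm
  haveI : Nonempty V := ⟨v⟩
  have hne : (W1 d R W).Nonempty := by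
    obtain ⟨w, hw⟩ := hW.ne
    exact ⟨w, 1, one_mem _, Or.inl ⟨w, hw, (one_smul G w).symm⟩⟩
  obtain ⟨p, hp, hgate⟩ := gate htm (w1_conv hC hW).1 hne v
  have hkp : k • p = p := by
    have h1 := hgate (k • p) (w1_smul hC hk hp)
    have h2 : d (k • v) (k • p) = d v p := hC.iso k _ _
    rw [hkv] at h2
    have h3 : d p (k • p) = 0 := by omega
    exact ((htm.zero _ _).1 h3).symm
  by_cases hnear : ∃ h ∈ G1 d R W, ∃ w ∈ W, d p (h • w) ≤ 1
  · obtain ⟨h, hh, w, hw, hd⟩ := hnear
    exact hk1 (near_free hC hW hk hh hw hkp hd)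
  · have hfar : ∀ h ∈ G1 d R W, ∀ w ∈ W, 2 ≤ d p (h • w) := by
      intro h hh w hw
      by_contra hlt
      exact hnear ⟨h, hh, w, hw, by omega⟩
    obtain ⟨g, hg, hcase⟩ := hp
    rcases hcase with ⟨w, hw, hpw⟩ | ⟨x, hx, hpx⟩
    · have h1 := hfar g hg w hw
      rw [hpw, (htm.zero _ _).2 rfl] at h1
      omega
    · have hpk : p ∈ Ax d ((k * g) * x * (k * g)⁻¹) := by
        have h1 := (ax_conj hC.iso (g * x * g⁻¹) k p).2 hpx
        rw [hkp] at h1
        have h2 : (k * g) * x * (k * g)⁻¹ = k * (g * x * g⁻¹) * k⁻¹ := by group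
        rw [h2]
        exact h1
      have hyk := line_uniq hC hW hx hx hg (mul_mem hk hg) hpx hpk hfar
      have hcomm : Commute k (g * x * g⁻¹) := by
        have h2 : g * x * g⁻¹ = k * (g * x * g⁻¹) * k⁻¹ := hyk.trans (by group)
        show k * (g * x * g⁻¹) = (g * x * g⁻¹) * k
        conv_rhs => rw [h2]
        group
      have hyR : g * x * g⁻¹ ∈ R := hC.conj g x hx.1
      obtain ⟨c, τ, hc, htr, hrng, hτ⟩ := ax_line hC hyR
      obtain ⟨i, hi⟩ := (hrng p).1 hpx
      obtain ⟨q, hqx, hqW⟩ := hx.2.1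
      have hgq : g • q ∈ Ax d (g * x * g⁻¹) := (ax_conj hC.iso x g q).2 hqx
      obtain ⟨j, hj⟩ := (hrng _).1 hgq
      have hfix : ∀ n : ℤ, k • c (i + n * τ) = c (i + n * τ) := by
        intro n
        rw [← line_pow htr n i, smul_smul, (hcomm.zpow_right n).eq, mul_smul, ← hi, hkp]
      set n : ℤ := |i| + |j| with hn
      have hτ' : (1 : ℤ) ≤ τ := by exact_mod_cast (by omega : 1 ≤ τ)
      have hn0 : 0 ≤ n := by positivity
      have hnτ : n ≤ n * τ := by nlinarith
      have hij1 : i - j ≤ n := by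
        have := le_abs_self i
        have := neg_abs_le j
        omega
      have hij2 : j - i ≤ n := by
        have := le_abs_self j
        have := neg_abs_le i
        omega
      have hA := hfix (-n)
      have hB := hfix n
      have hbtw : Btw d (c (i + -n * τ)) (c j) (c (i + n * τ)) := by
        unfold Btw
        have h1 := hc (i + -n * τ) j
        have h2 := hc j (i + n * τ)
        have h3 := hc (i + -n * τ) (i + n * τ)
        rw [abs_of_nonpos (by nlinarith)] at h1 h2 h3
        have h4 : ((d (c (i + -n * τ)) (c j) : ℤ)) + (d (c j) (c (i + n * τ)) : ℤ) =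
            (d (c (i + -n * τ)) (c (i + n * τ)) : ℤ) := by
          rw [h1, h2, h3]
          ring
        exact_mod_cast h4
      have hd1 : d (c (i + -n * τ)) (k • c j) = d (c (i + -n * τ)) (c j) := by
        have h1 : d (k • c (i + -n * τ)) (k • c j) = d (c (i + -n * τ)) (c j) := hC.iso k _ _
        rwa [hA] at h1
      have hd2 : d (k • c j) (c (i + n * τ)) = d (c j) (c (i + n * τ)) := by
        have h1 : d (k • c j) (k • c (i + n * τ)) = d (c j) (c (i + n * τ)) := hC.iso k _ _
        rwa [hB] at h1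
      have hbtw' : Btw d (c (i + -n * τ)) (k • c j) (c (i + n * τ)) := by
        unfold Btw
        rw [hd1, hd2]
        exact hbtw
      have hkc : c j = k • c j := btw_uniq htm hbtw hbtw' hd1.symm
      apply hk1
      apply near_free hC hW hk hg hqW hkc.symm
      rw [← hj, (htm.zero _ _).2 rfl]
      omega

end SXP
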