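import Pool.Agent.SXP.WConv
import Pool.Agent.SXP.WUniq

/-! Project SXP, module SXP-WP3: property (P3) for the next windmill.

* `touch`: `m ∈ R`, `h ∈ G1`, `w ∈ W`, `h • w ∈ Ax d m`.  Put `x := h⁻¹ * m * h ∈ R`, `w ∈ Ax d x`
  (`ax_conj`).  If `Ax d x ⊆ W` then `x ∈ G1` and `Ax d m = h • Ax d x ⊆ h W ⊆ W1`.  Otherwise
  `x ∈ TT`, `m = h * x * h⁻¹`, so `m ∈ G1` and `Ax d m ⊆ W1`.
* `w1_p3`: if the axis of `m` touches a translate, use `touch`.  Otherwise (`hno`) show that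
  `a, b ∈ Ax d m ∩ W1` have `d a b ≤ 2`.  Suppose `d a b ≥ 3`; both sets are convex (`w1_conv`,
  `ax_conv`), so there are `a₀, a₁, a₂, a₃ ∈ Ax d m ∩ W1` with `d aᵢ aᵢ₊₁ = 1`, `d a₀ a₂ = 2`,
  `d a₁ a₃ = 2` (e.g. from a chart `ax_line` of `m`: `a = c i`, `b = c j`, wlog `i + 3 ≤ j`, use
  `c i, c (i+1), c (i+2), c (i+3)`).  By `w1_conv` and `hno` every edge `aᵢ aᵢ₊₁` is contained in a line
  of `yᵢ = gᵢ xᵢ gᵢ⁻¹`, `xᵢ ∈ TT`.  `yᵢ ≠ m`, because the axis of `yᵢ` touches the translate `gᵢ W`.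
  So by `hC.ov` the axis of `yᵢ` does not contain two vertices of `Ax d m` at distance two; so
  `y₀ ≠ y₁` and `y₁ ≠ y₂`.  By `line_uniq` (contrapositive) `a₁` (on the axes of `y₀, y₁`) is not far
  from all translates: there are `h ∈ G1`, `w ∈ W` with `d a₁ (h • w) ≤ 1`, so `= 1` (by `hno`).
  Similarly `d a₂ (h' • w') = 1`.  `d (h • w) (h' • w') ≤ 3`, so `h⁻¹ * h' ∈ GW` (`near_same`), so both
  are in `X := {v | h⁻¹ • v ∈ W}` (`gw_W`).  `nbr` (for `X`, or for `W` after applying `h⁻¹`) with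
  `a₁, a₂ ∉ X` gives the contradiction. -/

namespace SXP

variable {V G : Type*} [Group G] [MulAction G V] {d : V → V → ℕ} {R : Set G} {W : Set V}

theorem touch (hC : Ctx d R) (hW : WM d R W) {m h : G} (hm : m ∈ R) (hh : h ∈ G1 d R W)
    {w : V} (hw : w ∈ W) (hwm : h • w ∈ Ax d m) : m ∈ G1 d R W ∧ Ax d m ⊆ W1 d R W := by
  obtain ⟨x, hx⟩ : ∃ x, x = h⁻¹ * m * h := ⟨_, rfl⟩
  have hmx : m = h * x * h⁻¹ := by
    rw [hx]
    group
  have hxR : x ∈ R := by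
    have := hC.conj h⁻¹ m hm
    rwa [inv_inv, ← hx] at this
  have hwx : w ∈ Ax d x := by
    rw [hmx] at hwm
    exact (ax_conj hC.iso x h w).1 hwm
  by_cases hsub : Ax d x ⊆ W
  · have hxG : x ∈ G1 d R W := Subgroup.subset_closure (Or.inl ⟨hxR, hsub⟩)
    refine ⟨?_, fun v hv => ?_⟩
    · rw [hmx]
      exact mul_mem (mul_mem hh hxG) (inv_mem hh)
    · refine ⟨h, hh, Or.inl ⟨h⁻¹ • v, hsub ?_, (smul_inv_smul h v).symm⟩⟩
      rw [hmx] at hv
      have := (ax_conj hC.iso x h (h⁻¹ • v)).1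
      rw [smul_inv_smul] at this
      exact this hv
  · have hxT : x ∈ TT d R W := ⟨hxR, ⟨w, hwx, hw⟩, hsub⟩
    have hxG : x ∈ G1 d R W := Subgroup.subset_closure (Or.inr hxT)
    refine ⟨?_, fun v hv => ?_⟩
    · rw [hmx]
      exact mul_mem (mul_mem hh hxG) (inv_mem hh)
    · refine ⟨h, hh, Or.inr ⟨x, hxT, ?_⟩⟩
      rwa [← hmx]

theorem w1_p3 (hC : Ctx d R) (hW : WM d R W) {m : G} (hm : m ∈ R) :
    (m ∈ G1 d R W ∧ Ax d m ⊆ W1 d R W) ∨
      ∀ a b, a ∈ Ax d m → a ∈ W1 d R W → b ∈ Ax d m → b ∈ W1 d R W → d a b ≤ 2 := by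
  by_cases htouch : ∃ h ∈ G1 d R W, ∃ w ∈ W, h • w ∈ Ax d m
  · obtain ⟨h, hh, w, hw, hwm⟩ := htouch
    exact Or.inl (touch hC hW hm hh hw hwm)
  right
  have hno : ∀ h ∈ G1 d R W, ∀ w ∈ W, h • w ∉ Ax d m := fun h hh w hw hwm =>
    htouch ⟨h, hh, w, hw, hwm⟩
  intro a b ha haW hb hbW
  by_contra hd
  have : Nonempty V := ⟨a⟩
  obtain ⟨c, τ, hline, _, hrng, _⟩ := ax_line hC hm
  obtain ⟨i, rfl⟩ := (hrng a).1 ha
  obtain ⟨j, rfl⟩ := (hrng b).1 hb
  have hax : ∀ l, c l ∈ Ax d m := fun l => (hrng _).2 ⟨l, rfl⟩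
  obtain ⟨hconv, hcov⟩ := w1_conv hC hW
  have hmem : ∀ l, min i j ≤ l → l ≤ max i j → c l ∈ W1 d R W := by
    intro l h1 h2
    refine hconv _ haW _ hbW _ ?_
    have e1 := hline i l
    have e2 := hline l j
    have e3 := hline i j
    unfold Btw
    rcases le_total i j with hij | hij
    · rw [min_eq_left hij] at h1
      rw [max_eq_right hij] at h2
      rw [abs_of_nonpos (by omega)] at e1 e2 e3
      omega
    · rw [min_eq_right hij] at h1
      rw [max_eq_left hij] at h2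
      rw [abs_of_nonneg (by omega)] at e1 e2 e3
      omega
  obtain ⟨k, hk⟩ : ∃ k, k = min i j := ⟨_, rfl⟩
  have hk3 : k + 3 ≤ max i j := by
    have e3 := hline i j
    rcases le_total i j with hij | hij
    · rw [min_eq_left hij] at hk
      rw [max_eq_right hij]
      rw [abs_of_nonpos (by omega)] at e3
      omega
    · rw [min_eq_right hij] at hk
      rw [max_eq_left hij]
      rw [abs_of_nonneg (by omega)] at e3
      omega
  have hd1 : ∀ l, d (c l) (c (l + 1)) = 1 := by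
    intro l
    have := hline l (l + 1)
    rw [show l - (l + 1) = -1 by ring, abs_neg, abs_one] at this
    exact_mod_cast this
  have hd2 : ∀ l, d (c l) (c (l + 1 + 1)) = 2 := by
    intro l
    have := hline l (l + 1 + 1)
    rw [show l - (l + 1 + 1) = -2 by ring, abs_neg, show |(2 : ℤ)| = 2 from rfl] at this
    exact_mod_cast this
  have hedge : ∀ l, k ≤ l → l + 1 ≤ k + 3 → ∃ g ∈ G1 d R W, ∃ x ∈ TT d R W,
      c l ∈ Ax d (g * x * g⁻¹) ∧ c (l + 1) ∈ Ax d (g * x * g⁻¹) := by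
    intro l h1 h2
    rcases hcov (c l) (hmem l (by omega) (by omega)) (c (l + 1)) (hmem (l + 1) (by omega) (by omega))
      (hd1 l) with ⟨g, hg, ⟨w, hw, hcw⟩, _⟩ | h
    · exact absurd (hcw ▸ hax l) (hno g hg w hw)
    · exact h
  -- the lines of the edges are different from the axis of `m`
  have hne : ∀ g ∈ G1 d R W, ∀ x ∈ TT d R W, g * x * g⁻¹ ≠ m := by
    intro g hg x hx he
    obtain ⟨hxR, ⟨q, hq, hqW⟩, _⟩ := hx
    have h1 : g • q ∈ Ax d (g * x * g⁻¹) := (ax_conj hC.iso x g q).2 hq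
    rw [he] at h1
    exact hno g hg q hqW h1
  have hov : ∀ g ∈ G1 d R W, ∀ x ∈ TT d R W, ∀ l, c l ∈ Ax d (g * x * g⁻¹) →
      c (l + 1 + 1) ∈ Ax d (g * x * g⁻¹) → False := by
    intro g hg x hx l h1 h2
    have h3 := hC.ov _ (hC.conj g x hx.1) m hm (hne g hg x hx) (c l) (c (l + 1 + 1)) h1 (hax _) h2
      (hax _)
    rw [hd2] at h3
    omega
  -- inner vertices are adjacent to translates
  have hinner : ∀ l, k ≤ l → l + 1 + 1 ≤ k + 3 → ∃ h ∈ G1 d R W, ∃ w ∈ W,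
      d (c (l + 1)) (h • w) = 1 := by
    intro l h1 h2
    obtain ⟨g, hg, x, hx, e1, e2⟩ := hedge l h1 (by omega)
    obtain ⟨g', hg', x', hx', e3, e4⟩ := hedge (l + 1) (by omega) h2
    by_contra hcon
    have hfar : ∀ k ∈ G1 d R W, ∀ w ∈ W, 2 ≤ d (c (l + 1)) (k • w) := by
      intro h hh w hw
      have h3 : d (c (l + 1)) (h • w) ≠ 1 := fun h3 => hcon ⟨h, hh, w, hw, h3⟩
      have h4 : d (c (l + 1)) (h • w) ≠ 0 := by
        intro h4
        have h5 := (hC.tm.zero _ _).1 h4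
        exact hno h hh w hw (h5 ▸ hax (l + 1))
      omega
    have h5 := line_uniq hC hW hx hx' hg hg' e2 e3 hfar
    rw [← h5] at e4
    exact hov g hg x hx l e1 e4
  obtain ⟨h, hh, w, hw, e1⟩ := hinner k le_rfl (by omega)
  obtain ⟨h', hh', w', hw', e2⟩ := hinner (k + 1) (by omega) (by omega)
  have e12 := hd1 (k + 1)
  have hclose : d (h • w) (h' • w') ≤ 3 := by
    have t1 := hC.tm.tri (h • w) (c (k + 1)) (h' • w')
    have t2 := hC.tm.tri (c (k + 1)) (c (k + 1 + 1)) (h' • w')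
    rw [hC.tm.symm (h • w) (c (k + 1))] at t1
    omega
  have hGW := near_same hC hW hh hh' hw hw' hclose
  have hqW : (h⁻¹ * h') • w' ∈ W := (gw_W hW hGW w').2 hw'
  refine nbr hC.tm hW.conv (a := h⁻¹ • c (k + 1)) (b := h⁻¹ • c (k + 1 + 1)) (p := w)
    (q := (h⁻¹ * h') • w') ?_ ?_ ?_ hw ?_ hqW ?_
  · rw [hC.iso]
    exact e12
  · intro hcon
    have := hno h hh _ hcon
    rw [smul_inv_smul] at this
    exact this (hax _)
  · intro hcon
    have := hno h hh _ hcon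
    rw [smul_inv_smul] at this
    exact this (hax _)
  · have := hC.iso h (h⁻¹ • c (k + 1)) w
    rw [smul_inv_smul] at this
    rw [← this]
    exact e1
  · rw [mul_smul, hC.iso]
    exact e2

end SXP
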