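import Pool.Agent.SXP.WChart

/-! Project SXP, module SXP-WPing: ping-pong for one element `x ∈ TT`.

Let `c, τ, s, t` be the chart of `x` (`tt_chart`) and `i` the index of `y` (`idx_exists`).  By
`idx_DD`, `s - 1 ≤ i ≤ t + 1`.  By `idx_pow` the index of `x ^ n • y` is `j = i + n τ` and
`d (x ^ n • y) (c j) = d y (c i)`.  For `w ∈ W` with index `k ∈ [s, t]` (`idx_W`), `k ≠ j`, `idx2`:
`d (x ^ n • y) w = d y (c i) + |j - k| + d w (c k)`.
* `n ≥ 1`: `j ≥ s - 1 + 6 ≥ t + 3`, so in `DD` and `|j - k| ≥ 3`; `n ≤ -1` symmetric.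
* If `s ≤ i ≤ t` then `|j - k| ≥ 6 - 2 = 4`.
* If `i = t + 1` or `i = s - 1`: then `y ∉ W` (`idx_W`), so `2 ≤ d y w'` for all `w' ∈ W`; for
  `w' := c t` (resp. `c s`): `2 ≤ d y (c t) = d y (c i) + 1`, so `d y (c i) ≥ 1` and the total is
  at least `3 + 1`. -/

namespace SXP

variable {V G : Type*} [Group G] [MulAction G V] {d : V → V → ℕ} {R : Set G} {W : Set V}

theorem pingpong (hC : Ctx d R) (hW : WM d R W) {x : G} (hx : x ∈ TT d R W) {y : V}
    (hy : y ∉ DD d W x) (h2 : y ∈ W ∨ ∀ w ∈ W, 2 ≤ d y w) {n : ℤ} (hn : n ≠ 0) :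
    x ^ n • y ∈ DD d W x ∧ ∀ w ∈ W, 4 ≤ d (x ^ n • y) w := by
  obtain ⟨c, τ, s, t, hT⟩ := tt_chart hC hW hx
  obtain ⟨i, hi⟩ := idx_exists hC.tm hT.line y
  have hi1 : ¬ (t + 2 ≤ i ∨ i ≤ s - 2) := fun h => hy ((idx_DD hC hW hT hi).2 h)
  obtain ⟨hj, hd⟩ := idx_pow hC.iso hT.tr hi n
  have hst := hT.st
  have hts := hT.ts
  have hτ : (6 : ℤ) ≤ (τ : ℤ) := by exact_mod_cast hT.six
  have hnτ : (1 ≤ n ∧ 6 ≤ n * (τ : ℤ)) ∨ (n ≤ -1 ∧ n * (τ : ℤ) ≤ -6) := by
    rcases lt_or_gt_of_ne hn with h | h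
    · right
      exact ⟨by omega, by nlinarith⟩
    · left
      exact ⟨by omega, by nlinarith⟩
  generalize hJ : i + n * (τ : ℤ) = j at hj hd
  have hij : (i + 6 ≤ j) ∨ (j ≤ i - 6) := by
    rcases hnτ with h | h
    · left; omega
    · right; omega
  refine ⟨(idx_DD hC hW hT hj).2 (by omega), ?_⟩
  intro w hw
  obtain ⟨k, hk⟩ := idx_exists hC.tm hT.line w
  obtain ⟨hk1, hk2⟩ := idx_W hC hW hT hw hk
  have hjk : j ≠ k := by omega
  have h3 := idx2 hC.tm hT.line hj hk hjk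
  have h4 := le_abs_self (j - k)
  have h5 := neg_le_abs (j - k)
  by_cases hin : s ≤ i ∧ i ≤ t
  · have h6 : (4 : ℤ) ≤ (d (x ^ n • y) w : ℤ) := by
      rcases hij with h | h <;> omega
    exact_mod_cast h6
  · have hyW : ¬ y ∈ W := fun h => hin (idx_W hC hW hT h hi)
    have h2' : ∀ w ∈ W, 2 ≤ d y w := by
      rcases h2 with h | h
      · exact absurd h hyW
      · exact h
    have h7 : 1 ≤ d y (c i) := by
      rcases (by omega : i = t + 1 ∨ i = s - 1) with h | h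
      · have h8 := h2' (c t) ((hT.mem t).2 ⟨hst, le_rfl⟩)
        have h9 := hi t
        have h10 : |t - i| = 1 := by
          rw [h]
          have : t - (t + 1) = -1 := by ring
          rw [this]
          rfl
        rw [h10] at h9
        omega
      · have h8 := h2' (c s) ((hT.mem s).2 ⟨le_rfl, hst⟩)
        have h9 := hi s
        have h10 : |s - i| = 1 := by
          rw [h]
          have : s - (s - 1) = 1 := by ring
          rw [this]
          rfl
        rw [h10] at h9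
        omega
    have h6 : (4 : ℤ) ≤ (d (x ^ n • y) w : ℤ) := by
      rcases hij with h | h <;> omega
    exact_mod_cast h6

theorem dd_far {x : G} {u w : V} (hu : u ∈ DD d W x) (hw : w ∈ W) : 2 ≤ d u w := by
  obtain ⟨a, _, h1, h2⟩ := hu
  have h3 := h1 w hw
  have h4 : d u a + d a w = d u w := h2 w hw
  omega

theorem dd_notW (hC : Ctx d R) {x : G} {u : V} (hu : u ∈ DD d W x) : u ∉ W := by
  intro h
  have h1 := dd_far hu h
  have h2 : d u u = 0 := (hC.tm.zero u u).2 rfl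
  omega

end SXP
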