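import Pool.Agent.SXP.Tree

/-! Project SXP, definitions: discrete wall spaces and their regions.

`WS sep`: `sep w x y` means: the wall `w` separates the points `x` and `y`. -/

namespace SXP

structure WS {X W : Type*} (sep : W → X → X → Prop) : Prop where
  fin : ∀ x y, {w | sep w x y}.Finite
  xor : ∀ w x y z, sep w x z ↔ (sep w x y ↔ ¬ sep w y z)
  nest : ∀ w w', w ≠ w' → ∀ x y z u, sep w x y → ¬ sep w' x y → ¬ sep w x z → sep w' x z →
    sep w x u → sep w' x u → False
  step : ∀ x y, (∃ w, sep w x y) → ∃ w z, sep w x y ∧ ∀ w', sep w' x z ↔ w' = w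

variable {X W G : Type*} {sep : W → X → X → Prop}

theorem WS.irr (hS : WS sep) (w : W) (x : X) : ¬ sep w x x := by
  have := hS.xor w x x x; tauto

theorem WS.sym (hS : WS sep) (w : W) (x y : X) : sep w x y ↔ sep w y x := by
  have h1 := hS.xor w x y x; have h2 := hS.irr w x; tauto

/-- Number of walls separating two points. -/
noncomputable def ds (sep : W → X → X → Prop) (x y : X) : ℕ := {w | sep w x y}.ncard

/-- Two points are in the same region if no wall separates them. -/
def regSetoid (hS : WS sep) : Setoid X where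
  r x y := ∀ w, ¬ sep w x y
  iseqv :=
    { refl := fun x w => hS.irr w x
      symm := fun {x y} h w => by rw [← hS.sym]; exact h w
      trans := fun {x y z} h1 h2 w => by
        have := hS.xor w x y z; have a := h1 w; have b := h2 w; tauto }

/-- Regions. -/
def Reg (hS : WS sep) : Type _ := Quotient (regSetoid hS)

/-- The region of a point. -/
def reg (hS : WS sep) (x : X) : Reg hS := Quotient.mk (regSetoid hS) x

theorem reg_eq (hS : WS sep) {x y : X} : reg hS x = reg hS y ↔ ∀ w, ¬ sep w x y :=
  Quotient.eq (r := regSetoid hS)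

theorem reg_surj (hS : WS sep) (v : Reg hS) : ∃ x, v = reg hS x := by
  obtain ⟨x, hx⟩ := Quotient.exists_rep v
  exact ⟨x, hx.symm⟩

/-- The distance of two regions: number of separating walls. -/
noncomputable def rd (hS : WS sep) : Reg hS → Reg hS → ℕ :=
  Quotient.lift₂ (s₁ := regSetoid hS) (s₂ := regSetoid hS) (fun x y => ds sep x y)
    (fun x y x' y' h1 h2 => by
      show ds sep x y = ds sep x' y'
      unfold ds; congr 1; ext w
      have a : ¬ sep w x x' := h1 w
      have b : ¬ sep w y y' := h2 w
      have c := hS.xor w x x' y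
      have e := hS.xor w x' y y'
      simp only [Set.mem_ofPred_eq]; tauto)

@[simp] theorem rd_reg (hS : WS sep) (x y : X) : rd hS (reg hS x) (reg hS y) = ds sep x y := rfl

/-- The action on regions. -/
@[reducible] def regAct [Group G] [MulAction G X] [MulAction G W] (hS : WS sep)
    (heq : ∀ (g : G) w x y, sep (g • w) (g • x) (g • y) ↔ sep w x y) :
    MulAction G (Reg hS) where
  smul g := Quotient.map' (s₁ := regSetoid hS) (s₂ := regSetoid hS) (fun x => g • x)
    (fun x y h w => by
      have : w = g • (g⁻¹ • w) := by simp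
      rw [this, heq]; exact h _)
  one_smul v := by
    obtain ⟨x, rfl⟩ := reg_surj hS v
    show reg hS ((1 : G) • x) = reg hS x
    rw [one_smul]
  mul_smul g h v := by
    obtain ⟨x, rfl⟩ := reg_surj hS v
    show reg hS ((g * h) • x) = reg hS (g • h • x)
    rw [mul_smul]

theorem regAct_smul [Group G] [MulAction G X] [MulAction G W] (hS : WS sep)
    (heq : ∀ (g : G) w x y, sep (g • w) (g • x) (g • y) ↔ sep w x y) (g : G) (x : X) :
    (regAct hS heq).smul g (reg hS x) = reg hS (g • x) := rfl

/-- The wall `w` is crossed by the axis of `g`: it separates the two ends of the axis. -/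
def Cross [Group G] [MulAction G X] (sep : W → X → X → Prop) (g : G) (w : W) : Prop :=
  ∀ p : X, ∃ K : ℕ, ∀ k : ℕ, K ≤ k → sep w (g ^ (-(k : ℤ)) • p) (g ^ (k : ℤ) • p)

end SXP
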