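import Pool.Agent.SXP.Tree

/-! Project SXP, definitions for the windmill theorem.  `Ctx d R`: `G` acts by isometries on the
tree `(V, d)`, `R` is a conjugation invariant subset of `G`, every element of `R` moves every
vertex by at least 6, and two different elements of `R` have axes which overlap in at most one
edge. -/

namespace SXP

variable {V G : Type*} [Group G] [MulAction G V]

structure Ctx (d : V → V → ℕ) (R : Set G) : Prop where
  tm : TM d
  iso : ∀ (g : G) (x y : V), d (g • x) (g • y) = d x y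
  conj : ∀ g : G, ∀ x ∈ R, g * x * g⁻¹ ∈ R
  six : ∀ x ∈ R, ∀ v : V, 6 ≤ d v (x • v)
  ov : ∀ x ∈ R, ∀ y ∈ R, x ≠ y → ∀ a b, a ∈ Ax d x → a ∈ Ax d y → b ∈ Ax d x → b ∈ Ax d y →
    d a b ≤ 1

/-- The group generated by the elements of `R` whose axis is contained in `W`. -/
def GW (d : V → V → ℕ) (R : Set G) (W : Set V) : Subgroup G :=
  Subgroup.closure {x | x ∈ R ∧ Ax d x ⊆ W}

/-- `W` is a windmill. -/
structure WM (d : V → V → ℕ) (R : Set G) (W : Set V) : Prop where
  ne : W.Nonempty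
  conv : Conv d W
  p1 : ∀ g ∈ GW d R W, ∀ w ∈ W, g • w ∈ W
  p2 : ∀ g ∈ GW d R W, g ≠ 1 → ∀ v : V, g • v ≠ v
  p3 : ∀ x ∈ R, Ax d x ⊆ W ∨
    ∀ a b, a ∈ Ax d x → a ∈ W → b ∈ Ax d x → b ∈ W → d a b ≤ 2

/-- The elements of `R` whose axis meets `W` without being contained in `W`. -/
def TT (d : V → V → ℕ) (R : Set G) (W : Set V) : Set G :=
  {x | x ∈ R ∧ (∃ a, a ∈ Ax d x ∧ a ∈ W) ∧ ¬ Ax d x ⊆ W}

/-- The group generated by the elements of `R` whose axis meets `W`. -/
def G1 (d : V → V → ℕ) (R : Set G) (W : Set V) : Subgroup G :=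
  Subgroup.closure ({x | x ∈ R ∧ Ax d x ⊆ W} ∪ TT d R W)

/-- The ping-pong domain of `x`: vertices from which the way to `W` passes through a vertex of
the axis of `x` at distance at least two from `W`. -/
def DD (d : V → V → ℕ) (W : Set V) (x : G) : Set V :=
  {y | ∃ a, a ∈ Ax d x ∧ (∀ w ∈ W, 2 ≤ d a w) ∧ ∀ w ∈ W, Btw d y a w}

/-- The next windmill: all translates of `W` and of the axes meeting `W`. -/
def W1 (d : V → V → ℕ) (R : Set G) (W : Set V) : Set V :=
  {v | ∃ g ∈ G1 d R W, (∃ w ∈ W, v = g • w) ∨ ∃ x ∈ TT d R W, v ∈ Ax d (g * x * g⁻¹)}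

/-- A chart of the axis of `x ∈ TT`: the axis is the line `c`, `x` is the translation by `τ`, the
part inside `W` is the interval `[s, t]` of length at most two. -/
structure TCh (d : V → V → ℕ) (W : Set V) (x : G) (c : ℤ → V) (τ : ℕ) (s t : ℤ) : Prop where
  line : IsLine d c
  tr : ∀ n : ℤ, x • c n = c (n + τ)
  rng : ∀ v, v ∈ Ax d x ↔ ∃ n, v = c n
  six : 6 ≤ τ
  st : s ≤ t
  ts : t ≤ s + 2
  mem : ∀ i, c i ∈ W ↔ s ≤ i ∧ i ≤ t

end SXP
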