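import Pool.Agent.SXP.WT1
import Pool.Agent.SXP.WT2
import Pool.Agent.SXP.WZorn

/-! Project SXP: the windmill theorem. -/

namespace SXP

variable {V G : Type*} [Group G] [MulAction G V] {d : V → V → ℕ} {R : Set G}

/-- Let a group act on a tree by isometries and let `R` be a conjugation invariant set of
elements which move every vertex by at least six, such that the axes of different elements of `R`
overlap in at most one edge.  Then the group generated by `R` acts freely on the vertices. -/
theorem windmill (hC : Ctx d R) [Nonempty V] {g : G} (hg : g ∈ Subgroup.closure R)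
    (hg1 : g ≠ 1) (v : V) : g • v ≠ v := by
  have hU : WM d R (Set.univ : Set V) := by
    apply zorn_wm hC
    intro W hW hne
    by_cases hT : TT d R W = ∅
    · exact type2 hC hW hne hT
    · exact type1 hC hW (Set.nonempty_iff_ne_empty.mpr hT)
  apply hU.p2 g _ hg1 v
  have : {x | x ∈ R ∧ Ax d x ⊆ (Set.univ : Set V)} = R := by
    ext x; simp
  unfold GW
  rw [this]; exact hg

end SXP
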