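import Pool.Agent.SXP.XTree
import Pool.Agent.SXP.Windmill

/-! Project SXP, module SXP-XFree: translation of the tree results to wall spaces.

Use `letI := regAct hS heq`; then `g • reg hS x = reg hS (g • x)` (`regAct_smul`, `rfl`), and
`rd` is invariant: `ds sep (g • x) (g • y) = ds sep x y` because `w ↦ g • w` is a bijection from the
walls separating `x, y` to the walls separating `g • x, g • y` (`Set.ncard_congr` or
`Set.ncard_image_of_injective`).

* `ax_cross`: let `c, τ` be an axis (line, translation by `τ ≥ 1`) of `g` on the regions, `p, q`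
  points with `reg p = c i`, `reg q = c j`, and `sep w p q`.  Then `Cross sep g w`.
  Proof: wlog `i < j` (`sep` is symmetric; `i ≠ j` as a wall separates).  Let `r : X` be any point,
  `m` the index of `reg r` (`idx_exists`).  For `k` with `m - k τ < i` and `j < m + k τ`, put
  `r⁻ = g ^ (-k) • r`, `r⁺ = g ^ k • r`: their indices are `m - k τ`, `m + k τ` (`idx_pow`).  By `IsIdx`
  and `idx2`: `Btw r⁻ (c i) (c j)` and `Btw r⁻ (c j) r⁺` (distances: `d r⁻ (c n) = D + |n - m + k τ|`,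
  `d r⁻ r⁺ = D + 2 k τ + D`).  So by `sep_btw` `sep w p q → sep w r⁻ q → sep w r⁻ r⁺`.
* `ws_min`: `axis` for `g` on `Reg hS`, `c 0 = reg p₀`, `g • p₀` is a representative of `c τ`,
  `ax_cross`.  Also `ds p₀ (g p₀) = τ ≤ ds p (g p)` for all `p`.
* `ws_comm`: `comm_fix` on `Reg hS` and `reg_eq`.
* `ws_free`: `windmill` with `V := Reg hS`, `d := rd hS`.  The hypothesis `Ctx`: `tm := reg_tm`,
  `six := hsix`.  `ov`: let `x ≠ y ∈ R`, `a, b ∈ Ax x ∩ Ax y`, suppose `d a b ≥ 2`.  Represent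
  `a = reg p`, `b = reg q`; there are two different walls `w ≠ w'` separating `p` and `q`
  (`Set.one_lt_ncard`).  By `axis` (existence of charts for `x`, `y`) and `ax_cross`, both walls are
  crossed by `x` and `y`: contradiction to `hov`. -/

namespace SXP

variable {X W G : Type*} [Group G] [MulAction G X] [MulAction G W] {sep : W → X → X → Prop}

theorem ds_smul (hS : WS sep)
    (heq : ∀ (g : G) w x y, sep (g • w) (g • x) (g • y) ↔ sep w x y) (g : G) (x y : X) :
    ds sep (g • x) (g • y) = ds sep x y := by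
  unfold ds
  have h : {w | sep w (g • x) (g • y)} = (fun w => g • w) '' {w | sep w x y} := by
    ext w
    simp only [Set.mem_image, Set.mem_ofPred_eq]
    constructor
    · intro hw
      refine ⟨g⁻¹ • w, ?_, by simp⟩
      rw [← heq g]
      simpa using hw
    · rintro ⟨w', hw', rfl⟩
      exact (heq g w' x y).2 hw'
  rw [h]
  exact Set.ncard_image_of_injective _ (MulAction.injective g)

private theorem rd_iso (hS : WS sep)
    (heq : ∀ (g : G) w x y, sep (g • w) (g • x) (g • y) ↔ sep w x y) [MulAction G (Reg hS)]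
    (hsm : ∀ (g : G) (x : X), g • reg hS x = reg hS (g • x)) (g : G) (u v : Reg hS) :
    rd hS (g • u) (g • v) = rd hS u v := by
  obtain ⟨x, rfl⟩ := reg_surj hS u
  obtain ⟨y, rfl⟩ := reg_surj hS v
  rw [hsm, hsm, rd_reg, rd_reg]
  exact ds_smul hS heq g x y

private theorem ax_cross_lt (hS : WS sep)
    (heq : ∀ (g : G) w x y, sep (g • w) (g • x) (g • y) ↔ sep w x y) [MulAction G (Reg hS)]
    (hsm : ∀ (g : G) (x : X), g • reg hS x = reg hS (g • x)) {g : G} {c : ℤ → Reg hS} {τ : ℕ}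
    (hτ : 1 ≤ τ) (hc : IsLine (rd hS) c) (htr : ∀ n : ℤ, g • c n = c (n + τ)) {i j : ℤ}
    (hij : i < j) {p q : X} (hp : reg hS p = c i) (hq : reg hS q = c j) {w : W}
    (hw : sep w p q) : Cross sep g w := by
  intro r
  obtain ⟨m, hm⟩ := idx_exists (reg_tm hS) hc (reg hS r)
  refine ⟨(|m - i| + |m - j| + 1).toNat, fun k hk => ?_⟩
  have hk' : |m - i| + |m - j| + 1 ≤ (k : ℤ) := by
    have h0 := Int.self_le_toNat (|m - i| + |m - j| + 1)
    omega
  have hkτ : (k : ℤ) ≤ k * τ := by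
    have h1 : (1 : ℤ) ≤ τ := by exact_mod_cast hτ
    have h2 : (0 : ℤ) ≤ k := by positivity
    nlinarith
  have a1 := neg_abs_le (m - i)
  have a2 := le_abs_self (m - i)
  have a3 := neg_abs_le (m - j)
  have a4 := le_abs_self (m - j)
  have a5 := abs_nonneg (m - i)
  have a6 := abs_nonneg (m - j)
  obtain ⟨hm1, hm2⟩ := idx_pow (rd_iso hS heq hsm) htr hm (-(k : ℤ))
  obtain ⟨hp1, hp2⟩ := idx_pow (rd_iso hS heq hsm) htr hm (k : ℤ)
  have hne : m + -(k : ℤ) * τ ≠ m + (k : ℤ) * τ := by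
    intro h
    have : (k : ℤ) * τ = 0 := by linarith
    omega
  have e1 := idx2 (reg_tm hS) hc hm1 hp1 hne
  have e2 := hm1 i
  have e3 := hm1 j
  have e4 := hp1 j
  have e5 := hc i j
  rw [hm2] at e2 e3
  rw [hp2] at e4
  rw [hm2, hp2] at e1
  rw [hsm] at e2 e3
  rw [hsm, hsm] at e1
  rw [hsm] at e4
  rw [← hp, ← hq, rd_reg] at e5
  rw [← hp, rd_reg] at e2
  rw [← hq, rd_reg] at e3
  rw [← hq, rd_reg] at e4
  rw [rd_reg] at e1
  have b1 : |i - (m + -(k : ℤ) * τ)| = i - (m + -(k : ℤ) * τ) := abs_of_nonneg (by linarith)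
  have b2 : |j - (m + -(k : ℤ) * τ)| = j - (m + -(k : ℤ) * τ) := abs_of_nonneg (by linarith)
  have b3 : |j - (m + (k : ℤ) * τ)| = m + (k : ℤ) * τ - j := by
    rw [abs_of_nonpos (by linarith)]
    ring
  have b4 : |i - j| = j - i := by
    rw [abs_of_neg (by linarith)]
    ring
  have b5 : |m + -(k : ℤ) * τ - (m + (k : ℤ) * τ)| = 2 * (k * τ) := by
    rw [abs_of_nonpos (by linarith)]
    ring
  rw [b1] at e2
  rw [b2] at e3
  rw [b3] at e4
  rw [b4] at e5
  rw [b5] at e1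
  have f1 : ds sep (g ^ (-(k : ℤ)) • r) p + ds sep p q = ds sep (g ^ (-(k : ℤ)) • r) q := by
    have : (ds sep (g ^ (-(k : ℤ)) • r) p : ℤ) + ds sep p q =
        ds sep (g ^ (-(k : ℤ)) • r) q := by
      rw [e2, e3, e5]; ring
    exact_mod_cast this
  have hsym : ds sep (g ^ (k : ℤ) • r) q = ds sep q (g ^ (k : ℤ) • r) := by
    unfold ds
    congr 1
    ext w
    exact hS.sym w _ _
  rw [hsym] at e4
  have f2 : ds sep (g ^ (-(k : ℤ)) • r) q + ds sep q (g ^ (k : ℤ) • r) =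
      ds sep (g ^ (-(k : ℤ)) • r) (g ^ (k : ℤ) • r) := by
    have : (ds sep (g ^ (-(k : ℤ)) • r) q : ℤ) + ds sep q (g ^ (k : ℤ) • r) =
        ds sep (g ^ (-(k : ℤ)) • r) (g ^ (k : ℤ) • r) := by
      rw [e1, e3, e4]; ring
    exact_mod_cast this
  exact (sep_btw hS f2 w).2 (Or.inl ((sep_btw hS f1 w).2 (Or.inr hw)))

private theorem ax_cross (hS : WS sep)
    (heq : ∀ (g : G) w x y, sep (g • w) (g • x) (g • y) ↔ sep w x y) [MulAction G (Reg hS)]
    (hsm : ∀ (g : G) (x : X), g • reg hS x = reg hS (g • x)) {g : G} {c : ℤ → Reg hS} {τ : ℕ}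
    (hτ : 1 ≤ τ) (hc : IsLine (rd hS) c) (htr : ∀ n : ℤ, g • c n = c (n + τ)) {i j : ℤ}
    {p q : X} (hp : reg hS p = c i) (hq : reg hS q = c j) {w : W}
    (hw : sep w p q) : Cross sep g w := by
  rcases lt_trichotomy i j with h | h | h
  · exact ax_cross_lt hS heq hsm hτ hc htr h hp hq hw
  · exfalso
    rw [← h, ← hp] at hq
    exact (reg_eq hS).1 hq.symm w hw
  · exact ax_cross_lt hS heq hsm hτ hc htr h hq hp ((hS.sym w p q).1 hw)

/-- A wall separating two vertices of the axis of `x` is crossed by the axis. -/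
theorem cross_of_ax (hS : WS sep)
    (heq : ∀ (g : G) w x y, sep (g • w) (g • x) (g • y) ↔ sep w x y) {x : G}
    (h2 : ∀ p : X, 2 ≤ ds sep p (x • p)) {p q : X} :
    letI := regAct hS heq
    reg hS p ∈ Ax (rd hS) x → reg hS q ∈ Ax (rd hS) x → ∀ {w}, sep w p q → Cross sep x w := by
  letI := regAct hS heq
  intro hp hq w hw
  have hsm : ∀ (g : G) (x : X), g • reg hS x = reg hS (g • x) := fun _ _ => rfl
  have hiso := rd_iso hS heq hsm
  haveI : Nonempty (Reg hS) := ⟨reg hS p⟩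
  have h2' : ∀ v : Reg hS, 2 ≤ rd hS v (x • v) := by
    intro v
    obtain ⟨y, rfl⟩ := reg_surj hS v
    rw [hsm, rd_reg]
    exact h2 y
  obtain ⟨c, τ, hc, htr, hrng, hmin⟩ := axis (reg_tm hS) hiso x h2'
  obtain ⟨i, hi⟩ := (hrng _).1 hp
  obtain ⟨j, hj⟩ := (hrng _).1 hq
  have hτ : 1 ≤ τ := by
    have h5 := hc 0 (0 + τ)
    have h6 := h2' (c 0)
    rw [htr] at h6
    have h7 : |(0 : ℤ) - (0 + τ)| = τ := by
      rw [zero_add, zero_sub, abs_neg]
      exact abs_of_nonneg (by positivity)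
    rw [h7] at h5
    have h8 : rd hS (c 0) (c (0 + τ)) = τ := by exact_mod_cast h5
    omega
  exact ax_cross hS heq hsm hτ hc htr hi hj hw

theorem ws_min (hS : WS sep)
    (heq : ∀ (g : G) w x y, sep (g • w) (g • x) (g • y) ↔ sep w x y) [Nonempty X] {g : G}
    (h2 : ∀ p : X, 2 ≤ ds sep p (g • p)) :
    ∃ p₀ : X, (∀ w, sep w p₀ (g • p₀) → Cross sep g w) ∧
      ∀ p, ds sep p₀ (g • p₀) ≤ ds sep p (g • p) := by
  letI := regAct hS heq
  have hsm : ∀ (g : G) (x : X), g • reg hS x = reg hS (g • x) := fun _ _ => rfl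
  have hiso := rd_iso hS heq hsm
  haveI : Nonempty (Reg hS) := ⟨reg hS (Classical.arbitrary X)⟩
  have h2' : ∀ v : Reg hS, 2 ≤ rd hS v (g • v) := by
    intro v
    obtain ⟨x, rfl⟩ := reg_surj hS v
    rw [hsm, rd_reg]
    exact h2 x
  obtain ⟨c, τ, hc, htr, -, hmin⟩ := axis (reg_tm hS) hiso g h2'
  obtain ⟨p₀, hp₀⟩ := reg_surj hS (c 0)
  have h3 : reg hS (g • p₀) = c τ := by
    rw [← hsm, ← hp₀, htr, zero_add]
  have h4 : ds sep p₀ (g • p₀) = τ := by
    have h5 := hc 0 τ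
    rw [hp₀, ← h3, rd_reg] at h5
    have h6 : |(0 : ℤ) - τ| = τ := by
      rw [zero_sub, abs_neg]
      exact abs_of_nonneg (by positivity)
    rw [h6] at h5
    exact_mod_cast h5
  have hτ : 1 ≤ τ := by
    have := h2 p₀
    omega
  refine ⟨p₀, fun w hw => ?_, fun p => ?_⟩
  · exact ax_cross hS heq hsm hτ hc htr hp₀.symm h3 hw
  · rw [h4]
    have := hmin (reg hS p)
    rwa [hsm, rd_reg] at this

theorem ws_comm (hS : WS sep)
    (heq : ∀ (g : G) w x y, sep (g • w) (g • x) (g • y) ↔ sep w x y) [Nonempty X] {g l : G}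
    (hgl : l * g = g * l) (h2 : ∀ p : X, 2 ≤ ds sep p (g • p)) :
    ∃ (a : ℕ) (b : ℤ) (p : X), 0 < a ∧ ∀ w, ¬ sep w p ((l ^ a * g ^ b) • p) := by
  letI := regAct hS heq
  have hsm : ∀ (g : G) (x : X), g • reg hS x = reg hS (g • x) := fun _ _ => rfl
  have hiso := rd_iso hS heq hsm
  haveI : Nonempty (Reg hS) := ⟨reg hS (Classical.arbitrary X)⟩
  have h2' : ∀ v : Reg hS, 2 ≤ rd hS v (g • v) := by
    intro v
    obtain ⟨x, rfl⟩ := reg_surj hS v
    rw [hsm, rd_reg]
    exact h2 x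
  obtain ⟨a, b, v, ha, hv⟩ := comm_fix (reg_tm hS) hiso hgl h2'
  obtain ⟨p, rfl⟩ := reg_surj hS v
  rw [hsm] at hv
  exact ⟨a, b, p, ha, (reg_eq hS).1 hv.symm⟩

theorem ws_free (hS : WS sep)
    (heq : ∀ (g : G) w x y, sep (g • w) (g • x) (g • y) ↔ sep w x y) (R : Set G)
    (hconj : ∀ g : G, ∀ x ∈ R, g * x * g⁻¹ ∈ R)
    (hsix : ∀ x ∈ R, ∀ p : X, 6 ≤ ds sep p (x • p))
    (hov : ∀ x ∈ R, ∀ y ∈ R, x ≠ y → ∀ w w', w ≠ w' → Cross sep x w → Cross sep x w' →
      Cross sep y w → Cross sep y w' → False)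
    {g : G} (hg : g ∈ Subgroup.closure R) (hg1 : g ≠ 1) (p : X) : ∃ w, sep w p (g • p) := by
  letI := regAct hS heq
  have hsm : ∀ (g : G) (x : X), g • reg hS x = reg hS (g • x) := fun _ _ => rfl
  have hiso := rd_iso hS heq hsm
  haveI : Nonempty (Reg hS) := ⟨reg hS p⟩
  have hsix' : ∀ x ∈ R, ∀ v : Reg hS, 6 ≤ rd hS v (x • v) := by
    intro x hx v
    obtain ⟨y, rfl⟩ := reg_surj hS v
    rw [hsm, rd_reg]
    exact hsix x hx y
  have hcr : ∀ x ∈ R, ∀ p q : X, reg hS p ∈ Ax (rd hS) x → reg hS q ∈ Ax (rd hS) x →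
      ∀ w, sep w p q → Cross sep x w := by
    intro x hx p q hp hq w hw
    obtain ⟨c, τ, hc, htr, hrng, hmin⟩ := axis (reg_tm hS) hiso x
      (fun v => le_trans (by norm_num) (hsix' x hx v))
    obtain ⟨i, hi⟩ := (hrng _).1 hp
    obtain ⟨j, hj⟩ := (hrng _).1 hq
    have hτ : 1 ≤ τ := by
      have h5 := hc 0 (0 + τ)
      have h6 := hsix' x hx (c 0)
      rw [htr] at h6
      have h7 : |(0 : ℤ) - (0 + τ)| = τ := by
        rw [zero_add, zero_sub, abs_neg]
        exact abs_of_nonneg (by positivity)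
      rw [h7] at h5
      have h8 : rd hS (c 0) (c (0 + τ)) = τ := by exact_mod_cast h5
      omega
    exact ax_cross hS heq hsm hτ hc htr hi hj hw
  have hC : Ctx (rd hS) R :=
    { tm := reg_tm hS
      iso := hiso
      conj := hconj
      six := hsix'
      ov := by
        intro x hx y hy hxy a b ha1 ha2 hb1 hb2
        by_contra hcon
        push Not at hcon
        obtain ⟨p, rfl⟩ := reg_surj hS a
        obtain ⟨q, rfl⟩ := reg_surj hS b
        rw [rd_reg] at hcon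
        unfold ds at hcon
        rw [Set.one_lt_ncard (hS.fin p q)] at hcon
        obtain ⟨w, hw, w', hw', hne⟩ := hcon
        exact hov x hx y hy hxy w w' hne (hcr x hx p q ha1 hb1 w hw)
          (hcr x hx p q ha1 hb1 w' hw') (hcr y hy p q ha2 hb2 w hw) (hcr y hy p q ha2 hb2 w' hw') }
  have h1 := windmill hC hg hg1 (reg hS p)
  by_contra hcon
  push Not at hcon
  apply h1
  rw [hsm]
  exact ((reg_eq hS).2 hcon).symm

end SXP
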