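import Pool.Agent.SXP.Walls

/-! Project SXP, module SXP-XTree: the regions of a discrete wall space form a tree.
The distance is a sum of indicators over a finite set of walls; all axioms are pointwise. -/

namespace SXP

variable {X W : Type*} {sep : W → X → X → Prop}

open Classical in
private theorem ds_sum (F : Finset W) (a b : X) (h : ∀ w, sep w a b → w ∈ F) :
    ds sep a b = ∑ w ∈ F, (if sep w a b then 1 else 0) := by
  unfold ds
  rw [← Finset.card_filter]
  have h1 : {w | sep w a b} = ((F.filter (fun w => sep w a b) : Finset W) : Set W) := by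
    ext w
    rw [Finset.mem_coe, Finset.mem_filter]
    exact ⟨fun hw => ⟨h w hw, hw⟩, fun hw => hw.2⟩
  rw [h1, Set.ncard_coe_finset]

/-- a finite set of walls which contains all walls separating two of four points -/
private theorem exists_fin (hS : WS sep) (x y z u : X) : ∃ F : Finset W,
    (∀ w, sep w x y → w ∈ F) ∧ (∀ w, sep w x z → w ∈ F) ∧ (∀ w, sep w x u → w ∈ F) ∧
    (∀ w, sep w y z → w ∈ F) ∧ (∀ w, sep w y u → w ∈ F) ∧ ∀ w, sep w z u → w ∈ F := by
  classical
  have hfin := ((((((hS.fin x y).union (hS.fin x z)).union (hS.fin x u)).union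
    (hS.fin y z)).union (hS.fin y u)).union (hS.fin z u))
  refine ⟨hfin.toFinset, ?_, ?_, ?_, ?_, ?_, ?_⟩
  · intro w hw
    exact hfin.mem_toFinset.2 (Or.inl (Or.inl (Or.inl (Or.inl (Or.inl hw)))))
  · intro w hw
    exact hfin.mem_toFinset.2 (Or.inl (Or.inl (Or.inl (Or.inl (Or.inr hw)))))
  · intro w hw
    exact hfin.mem_toFinset.2 (Or.inl (Or.inl (Or.inl (Or.inr hw))))
  · intro w hw
    exact hfin.mem_toFinset.2 (Or.inl (Or.inl (Or.inr hw)))
  · intro w hw
    exact hfin.mem_toFinset.2 (Or.inl (Or.inr hw))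
  · intro w hw
    exact hfin.mem_toFinset.2 (Or.inr hw)

open Classical in
private theorem pw (a b c d e f : Prop) (e1 : b ↔ (a ↔ ¬ d)) (e2 : c ↔ (a ↔ ¬ e))
    (e3 : c ↔ (b ↔ ¬ f)) :
    (¬ (a ∧ ¬ b ∧ c) → (if a then 1 else 0) + (if f then 1 else 0 : ℕ) ≤
      (if b then 1 else 0) + (if e then 1 else 0)) ∧
    (¬ (a ∧ b ∧ ¬ c) → (if a then 1 else 0) + (if f then 1 else 0 : ℕ) ≤
      (if c then 1 else 0) + (if d then 1 else 0)) := by
  have ed : d ↔ ¬ (a ↔ b) := by
    by_cases ha : a <;> by_cases hb : b <;> by_cases hd : d <;> simp_all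
  have ee : e ↔ ¬ (a ↔ c) := by
    by_cases ha : a <;> by_cases hb : c <;> by_cases hd : e <;> simp_all
  have ef : f ↔ ¬ (b ↔ c) := by
    by_cases ha : b <;> by_cases hb : c <;> by_cases hd : f <;> simp_all
  clear e1 e2 e3
  by_cases ha : a <;> by_cases hb : b <;> by_cases hc : c <;> simp_all

private theorem four_aux (hS : WS sep) (x y z u : X) :
    ds sep x y + ds sep z u ≤ max (ds sep x z + ds sep y u) (ds sep x u + ds sep y z) := by
  classical
  obtain ⟨F, h1, h2, h3, h4, h5, h6⟩ := exists_fin hS x y z u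
  rw [ds_sum F x y h1, ds_sum F x z h2, ds_sum F x u h3, ds_sum F y z h4, ds_sum F y u h5,
    ds_sum F z u h6, ← Finset.sum_add_distrib, ← Finset.sum_add_distrib, ← Finset.sum_add_distrib]
  by_cases hQ : ∃ w, sep w x y ∧ ¬ sep w x z ∧ sep w x u
  · obtain ⟨w₂, ha, hb, hc⟩ := hQ
    refine le_trans ?_ (le_max_right _ _)
    apply Finset.sum_le_sum
    intro w _
    have e1 := hS.xor w x y z
    have e2 := hS.xor w x y u
    have e3 := hS.xor w x z u
    have hno : ¬ (sep w x y ∧ sep w x z ∧ ¬ sep w x u) := by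
      rintro ⟨h7, h8, h9⟩
      have hne : w₂ ≠ w := by
        rintro rfl
        exact hb h8
      exact hS.nest w₂ w hne x u z y hc h9 hb h8 ha h7
    exact (pw _ _ _ _ _ _ e1 e2 e3).2 hno
  · refine le_trans ?_ (le_max_left _ _)
    apply Finset.sum_le_sum
    intro w _
    have e1 := hS.xor w x y z
    have e2 := hS.xor w x y u
    have e3 := hS.xor w x z u
    exact (pw _ _ _ _ _ _ e1 e2 e3).1 fun h => hQ ⟨w, h⟩

private theorem par_aux (hS : WS sep) (x y z : X) :
    (ds sep x y + ds sep y z + ds sep x z) % 2 = 0 := by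
  classical
  obtain ⟨F, h1, h2, -, h4, -, -⟩ := exists_fin hS x y z z
  rw [ds_sum F x y h1, ds_sum F x z h2, ds_sum F y z h4, ← Finset.sum_add_distrib,
    ← Finset.sum_add_distrib]
  apply Nat.mod_eq_zero_of_dvd
  apply Finset.dvd_sum
  intro w _
  have e1 := hS.xor w x y z
  by_cases k1 : sep w x y <;> by_cases k2 : sep w x z <;> by_cases k4 : sep w y z <;>
    simp only [k1, k2, k4, if_true, if_false] <;> first | omega | (exfalso; tauto)

private theorem tri_aux (hS : WS sep) (x y z : X) : ds sep x z ≤ ds sep x y + ds sep y z := by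
  classical
  obtain ⟨F, h1, h2, -, h4, -, -⟩ := exists_fin hS x y z z
  rw [ds_sum F x y h1, ds_sum F x z h2, ds_sum F y z h4, ← Finset.sum_add_distrib]
  apply Finset.sum_le_sum
  intro w _
  have e1 := hS.xor w x y z
  by_cases k1 : sep w x y <;> by_cases k2 : sep w x z <;> by_cases k4 : sep w y z <;>
    simp only [k1, k2, k4, if_true, if_false] <;> first | omega | (exfalso; tauto)

private theorem ds_zero (hS : WS sep) {x y : X} : ds sep x y = 0 ↔ ∀ w, ¬ sep w x y := by
  unfold ds
  rw [Set.ncard_eq_zero (hS.fin x y), Set.eq_empty_iff_forall_notMem]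
  rfl

theorem reg_tm (hS : WS sep) : TM (rd hS) := by
  refine ⟨?_, ?_, ?_, ?_, ?_, ?_⟩
  · intro v v'
    obtain ⟨x, rfl⟩ := reg_surj hS v
    obtain ⟨y, rfl⟩ := reg_surj hS v'
    rw [rd_reg, ds_zero hS, reg_eq]
  · intro v v'
    obtain ⟨x, rfl⟩ := reg_surj hS v
    obtain ⟨y, rfl⟩ := reg_surj hS v'
    rw [rd_reg, rd_reg]
    unfold ds
    congr 1
    ext w
    exact hS.sym w x y
  · intro v v' v''
    obtain ⟨x, rfl⟩ := reg_surj hS v
    obtain ⟨y, rfl⟩ := reg_surj hS v'
    obtain ⟨z, rfl⟩ := reg_surj hS v''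
    rw [rd_reg, rd_reg, rd_reg]
    exact tri_aux hS x y z
  · intro v v' n h
    obtain ⟨x, rfl⟩ := reg_surj hS v
    obtain ⟨y, rfl⟩ := reg_surj hS v'
    rw [rd_reg] at h
    have hex : ∃ w, sep w x y := by
      by_contra hcon
      push Not at hcon
      rw [(ds_zero hS).2 hcon] at h
      omega
    obtain ⟨w, z, hw, hz⟩ := hS.step x y hex
    refine ⟨reg hS z, ?_, ?_⟩
    · rw [rd_reg]
      unfold ds
      have : {w' | sep w' x z} = {w} := by
        ext w'
        exact hz w'
      rw [this, Set.ncard_singleton]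
    · rw [rd_reg]
      have : {w' | sep w' z y} = {w' | sep w' x y} \ {w} := by
        ext w'
        have e := hS.xor w' x z y
        have e2 := hz w'
        simp only [Set.mem_ofPred_eq, Set.mem_sdiff, Set.mem_singleton_iff]
        constructor
        · intro h3
          by_cases hww : w' = w
          · exfalso
            subst hww
            tauto
          · exact ⟨by tauto, hww⟩
        · rintro ⟨h3, h4⟩
          tauto
      unfold ds at h ⊢
      rw [this, Set.ncard_sdiff_singleton_of_mem (by exact hw), h]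
      omega
  · intro v v' v'' v'''
    obtain ⟨x, rfl⟩ := reg_surj hS v
    obtain ⟨y, rfl⟩ := reg_surj hS v'
    obtain ⟨z, rfl⟩ := reg_surj hS v''
    obtain ⟨u, rfl⟩ := reg_surj hS v'''
    simp only [rd_reg]
    exact four_aux hS x y z u
  · intro v v' v''
    obtain ⟨x, rfl⟩ := reg_surj hS v
    obtain ⟨y, rfl⟩ := reg_surj hS v'
    obtain ⟨z, rfl⟩ := reg_surj hS v''
    simp only [rd_reg]
    exact par_aux hS x y z

/-- If `y` is between `x` and `z`, then the walls separating `x, z` are those separating `x, y`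
and those separating `y, z`. -/
theorem sep_btw (hS : WS sep) {x y z : X} (h : ds sep x y + ds sep y z = ds sep x z) (w : W) :
    sep w x z ↔ (sep w x y ∨ sep w y z) := by
  classical
  obtain ⟨F, h1, h2, -, h4, -, -⟩ := exists_fin hS x y z z
  rw [ds_sum F x y h1, ds_sum F x z h2, ds_sum F y z h4, ← Finset.sum_add_distrib] at h
  have hle : ∀ w ∈ F, (if sep w x z then 1 else 0 : ℕ) ≤
      (if sep w x y then 1 else 0) + (if sep w y z then 1 else 0) := by
    intro w _
    have e1 := hS.xor w x y z
    by_cases k1 : sep w x y <;> by_cases k2 : sep w x z <;> by_cases k4 : sep w y z <;>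
      simp only [k1, k2, k4, if_true, if_false] <;> first | omega | (exfalso; tauto)
  have heq := (Finset.sum_eq_sum_iff_of_le hle).1 h.symm
  have e1 := hS.xor w x y z
  by_cases hw : w ∈ F
  · have h5 := heq w hw
    by_cases k1 : sep w x y <;> by_cases k2 : sep w x z <;> by_cases k4 : sep w y z <;>
      simp only [k1, k2, k4, if_true, if_false] at h5 <;> first | omega | tauto
  · have k1 : ¬ sep w x y := fun h => hw (h1 w h)
    have k2 : ¬ sep w x z := fun h => hw (h2 w h)
    have k4 : ¬ sep w y z := fun h => hw (h4 w h)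
    tauto

end SXP
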